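import Pool.Agent.W_1ab439_h81b.Defs
import Pool.Agent.W_1ab439_h81.Calib
import Pool.Agent.W_1ab439_h81.Angle

section Cols

/-!
Cols (M).  Basic facts on the column lengths.

`col_cont`: `intervalIntegral.continuous_parametric_intervalIntegral_of_continuous` (or `continuous_parametric_intervalIntegral_of_continuous'`).
`col_le`: `χ ≤ 1`.  `col_eq`: if `col = H` then `χ = 1` on the column (the continuous nonnegative function `1 - χ` has integral zero), `col_eq_zero` the same.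
`mm_le_one`, ...: definitions.  `mm_full`: `m < 1` means `(H - col)/δ < 1`, so `col + δ > H ≥ π` and `Y > 2`.
`vv_cont`, `vv_bound`: `0 ≤ m ≤ 1`, `Y ≥ 2 δ/π > 0`.
`int_col`: Fubini on `bx 0 L 0 H = Ioo 0 L ×ˢ Ioo 0 H` (`setIntegral_prod`, `intervalIntegral.integral_of_le`, `integral_Ioc_eq_integral_Ioo`).
`int_yy`: `∫ 0..L Y = 2/π (∫ 0..L col + δ L)`.
-/

set_option autoImplicit false

open MeasureTheory Set Real

namespace Pool.Agent.W_1ab439_h81b

open Pool.Agent.W_1ab439_h81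

variable {f χ : ℝ × ℝ → ℝ} {H δ L : ℝ}

private theorem Cols_line (hχ : Cut f χ) (x : ℝ) : Continuous fun y : ℝ => χ (x, y) :=
  hχ.cont.comp (by fun_prop)

theorem col_cont (hχ : Cut f χ) (H : ℝ) : Continuous (col χ H) := by
  have h : Continuous (Function.uncurry fun x y : ℝ => χ (x, y)) := hχ.cont
  exact intervalIntegral.continuous_parametric_intervalIntegral_of_continuous' h 0 H

theorem col_nonneg (hχ : Cut f χ) (hH : 0 ≤ H) (x : ℝ) : 0 ≤ col χ H x := by
  exact intervalIntegral.integral_nonneg hH fun y _ => hχ.nonneg (x, y)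

theorem col_le (hχ : Cut f χ) (hH : 0 ≤ H) (x : ℝ) : col χ H x ≤ H := by
  have h1 : col χ H x ≤ ∫ _ in (0 : ℝ)..H, (1 : ℝ) :=
    intervalIntegral.integral_mono_on hH ((Cols_line hχ x).intervalIntegrable 0 H)
      (continuous_const.intervalIntegrable 0 H) fun y _ => hχ.le_one (x, y)
  simpa using h1

private theorem Cols_zero {g : ℝ → ℝ} (hg : Continuous g) (h0 : ∀ y, 0 ≤ g y) (hH : 0 < H)
    (h : ∫ y in (0 : ℝ)..H, g y = 0) {y : ℝ} (hy : y ∈ Icc 0 H) : g y = 0 := by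
  by_contra hne
  have hpos : 0 < g y := lt_of_le_of_ne (h0 y) (Ne.symm hne)
  have h1 : 0 < ∫ y in (0 : ℝ)..H, g y :=
    intervalIntegral.integral_pos hH hg.continuousOn (fun z _ => h0 z) ⟨y, hy, hpos⟩
  linarith

theorem col_eq (hχ : Cut f χ) (hH : 0 < H) {x : ℝ} (h : col χ H x = H) {y : ℝ}
    (hy : y ∈ Icc 0 H) : χ (x, y) = 1 := by
  have hc : Continuous fun y : ℝ => 1 - χ (x, y) := continuous_const.sub (Cols_line hχ x)
  have h0 : ∫ y in (0 : ℝ)..H, (1 - χ (x, y)) = 0 := by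
    rw [intervalIntegral.integral_sub (continuous_const.intervalIntegrable 0 H)
      ((Cols_line hχ x).intervalIntegrable 0 H)]
    have h1 : ∫ y in (0 : ℝ)..H, χ (x, y) = H := h
    rw [h1]
    simp
  have h2 := Cols_zero hc (fun y => sub_nonneg.2 (hχ.le_one (x, y))) hH h0 hy
  have h3 : 1 - χ (x, y) = 0 := h2
  linarith

theorem col_eq_zero (hχ : Cut f χ) (hH : 0 < H) {x : ℝ} (h : col χ H x = 0) {y : ℝ}
    (hy : y ∈ Icc 0 H) : χ (x, y) = 0 := by
  exact Cols_zero (Cols_line hχ x) (fun y => hχ.nonneg (x, y)) hH h hy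

theorem mm_cont (hχ : Cut f χ) (H δ : ℝ) : Continuous (mm χ H δ) := by
  exact continuous_const.min ((continuous_const.sub (col_cont hχ H)).div_const δ)

theorem yy_cont (hχ : Cut f χ) (H δ : ℝ) : Continuous (yy χ H δ) := by
  exact ((continuous_const.mul ((col_cont hχ H).add continuous_const))).div_const π

theorem mm_nonneg (hχ : Cut f χ) (hH : 0 ≤ H) (hδ : 0 < δ) (x : ℝ) : 0 ≤ mm χ H δ x := by
  exact le_min zero_le_one (div_nonneg (sub_nonneg.2 (col_le hχ hH x)) hδ.le)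

theorem mm_le_one (χ : ℝ × ℝ → ℝ) (H δ x : ℝ) : mm χ H δ x ≤ 1 := by
  exact min_le_left _ _

theorem yy_pos (hχ : Cut f χ) (hH : 0 ≤ H) (hδ : 0 < δ) (x : ℝ) : 0 < yy χ H δ x := by
  have h := col_nonneg hχ hH x
  exact div_pos (by linarith) Real.pi_pos

theorem mm_full (hχ : Cut f χ) (hH : π ≤ H) (hδ : 0 < δ) (x : ℝ) (h : mm χ H δ x < 1) :
    2 ≤ yy χ H δ x := by
  have h1 : (H - col χ H x) / δ < 1 := by
    rcases min_lt_iff.1 h with h1 | h1
    · exact absurd h1 (lt_irrefl _)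
    · exact h1
  rw [div_lt_one hδ] at h1
  rw [yy, le_div_iff₀ Real.pi_pos]
  linarith

theorem vv_cont (hχ : Cut f χ) (hH : 0 ≤ H) (hδ : 0 < δ) : Continuous (vv χ H δ) := by
  exact (mm_cont hχ H δ).div ((yy_cont hχ H δ).pow 2) fun x => (pow_pos (yy_pos hχ hH hδ x) 2).ne'

theorem vv_nonneg (hχ : Cut f χ) (hH : 0 ≤ H) (hδ : 0 < δ) (x : ℝ) : 0 ≤ vv χ H δ x := by
  exact div_nonneg (mm_nonneg hχ hH hδ x) (sq_nonneg _)

theorem vv_le (hχ : Cut f χ) (hH : 0 ≤ H) (hδ : 0 < δ) (x : ℝ) :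
    vv χ H δ x ≤ (π / (2 * δ)) ^ 2 := by
  have h1 := mm_le_one χ H δ x
  have h2 : 2 * δ / π ≤ yy χ H δ x := by
    have h := col_nonneg hχ hH x
    rw [yy]
    exact div_le_div_of_nonneg_right (by linarith) Real.pi_pos.le
  have h3 : 0 < 2 * δ / π := div_pos (by linarith) Real.pi_pos
  have h4 : (2 * δ / π) ^ 2 ≤ yy χ H δ x ^ 2 := pow_le_pow_left₀ h3.le h2 2
  have h5 : vv χ H δ x ≤ 1 / (2 * δ / π) ^ 2 :=
    div_le_div₀ zero_le_one h1 (pow_pos h3 2) h4
  have h6 : 1 / (2 * δ / π) ^ 2 = (π / (2 * δ)) ^ 2 := by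
    have := Real.pi_pos
    field_simp
  rwa [h6] at h5

theorem int_col (hχ : Cut f χ) (hL : 0 ≤ L) (hH : 0 ≤ H) :
    ∫ x in (0 : ℝ)..L, col χ H x = ∫ z in bx 0 L 0 H, χ z := by
  have hi : IntegrableOn χ (Ioo 0 L ×ˢ Ioo 0 H) (volume.prod volume) :=
    (hχ.cont.integrable_of_hasCompactSupport hχ.cpt).integrableOn
  have h1 : ∫ z in bx 0 L 0 H, χ z = ∫ x in Ioo 0 L, ∫ y in Ioo 0 H, χ (x, y) :=
    setIntegral_prod χ hi
  rw [h1, intervalIntegral.integral_of_le hL, integral_Ioc_eq_integral_Ioo]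
  refine setIntegral_congr_fun measurableSet_Ioo fun x _ => ?_
  show (∫ y in (0 : ℝ)..H, χ (x, y)) = ∫ y in Ioo 0 H, χ (x, y)
  rw [intervalIntegral.integral_of_le hH, integral_Ioc_eq_integral_Ioo]

theorem int_yy (hχ : Cut f χ) (hL : 0 ≤ L) (hH : 0 ≤ H) :
    ∫ x in (0 : ℝ)..L, yy χ H δ x = 2 / π * ((∫ z in bx 0 L 0 H, χ z) + δ * L) := by
  have h1 : ∀ x, yy χ H δ x = 2 / π * (col χ H x + δ) := by
    intro x
    rw [yy]
    ring
  simp only [h1]
  rw [intervalIntegral.integral_const_mul, intervalIntegral.integral_add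
    ((col_cont hχ H).intervalIntegrable 0 L) (continuous_const.intervalIntegrable 0 L),
    int_col hχ hL hH]
  simp only [intervalIntegral.integral_const, sub_zero, smul_eq_mul]
  ring

end Pool.Agent.W_1ab439_h81b

end Cols

section Quart

/-!
Quart (M).  The column inequality with free ends (row 523, 3a), one variable.

`quarter`: `I y = ∫ 0..y χ` (`I' = χ`, `0 ≤ I ≤ X` on `[0,b]`), `l = π/(2(X+δ))`, `w y = l tan (l I y)`; on `[0,b]` `0 ≤ l I ≤ l X < π/2`, so `cos > 0`;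
`w 0 = 0`, `w' = l^2 χ (1 + tan^2) = l^2 χ + χ w^2`; where `g ≠ 0`, `χ = 1` and `w' - w^2 = l^2`, so `(w' - w^2) g^2 = l^2 g^2` everywhere.
`0 ≤ ∫ 0..b (g' + w g)^2 = ∫ g'^2 + ∫ (w^2 g^2 + w (g^2)')`, `∫ 0..b (w' g^2 + w (g^2)') = w b * g b ^2 - w 0 * g 0 ^2 = 0`.  Hence
`0 ≤ ∫ g'^2 - ∫ (w' - w^2) g^2`.  (Compare `riccati_y` in `W_1ab439_h81/Calib.lean`, which can be used with `p = w`, `R = b`.)
`column`: `quarter` on `[0,y0]`, and on `[y0,H]` for the reflected functions `y ↦ g (H - y)` with `b = H - y0` (`intervalIntegral.integral_comp_sub_left`).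
-/

set_option autoImplicit false

open MeasureTheory Set Real

namespace Pool.Agent.W_1ab439_h81b

private theorem quart_alg (l c s : ℝ) (hc : c ≠ 0) (hs : s ^ 2 = 1 - c ^ 2) :
    l * (1 / c ^ 2 * (l * 1)) - (l * (s / c)) ^ 2 = l ^ 2 := by
  have h5 : c ^ 2 ≠ 0 := pow_ne_zero 2 hc
  have h4 : (l * (s / c)) ^ 2 = l ^ 2 * (s ^ 2 / c ^ 2) := by
    rw [mul_pow, div_pow]
  have h6 : (1 - c ^ 2) / c ^ 2 = 1 / c ^ 2 - 1 := by
    rw [sub_div, div_self h5]
  rw [h4, hs, h6]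
  ring

theorem quarter {g g' χ : ℝ → ℝ} {b X δ : ℝ} (hb : 0 ≤ b) (hg : ∀ y, HasDerivAt g (g' y) y)
    (hg' : Continuous g') (hχ : Continuous χ) (h0 : ∀ y, 0 ≤ χ y)
    (hone : ∀ y, g y ≠ 0 → χ y = 1) (hz : g b = 0) (hδ : 0 < δ)
    (hX : (∫ y in (0 : ℝ)..b, χ y) ≤ X) :
    (π / (2 * (X + δ))) ^ 2 * ∫ y in (0 : ℝ)..b, g y ^ 2 ≤ ∫ y in (0 : ℝ)..b, g' y ^ 2 := by
  rcases hb.eq_or_lt with h | hb'
  · rw [← h]
    simp
  set l : ℝ := π / (2 * (X + δ)) with hl
  set I : ℝ → ℝ := fun y => ∫ t in (0 : ℝ)..y, χ t with hI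
  have hint : ∀ a c : ℝ, IntervalIntegrable χ volume a c := fun a c => hχ.intervalIntegrable a c
  have hId : ∀ y, HasDerivAt I (χ y) y := fun y =>
    (hχ.integral_hasStrictDerivAt 0 y).hasDerivAt
  have hI0 : ∀ y, 0 ≤ y → 0 ≤ I y := fun y hy =>
    intervalIntegral.integral_nonneg hy fun u _ => h0 u
  have hIb : ∀ y, y ≤ b → I y ≤ X := by
    intro y hy
    have h1 : (∫ t in (0 : ℝ)..y, χ t) + ∫ t in y..b, χ t = ∫ t in (0 : ℝ)..b, χ t :=
      intervalIntegral.integral_add_adjacent_intervals (hint _ _) (hint _ _)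
    have h2 : 0 ≤ ∫ t in y..b, χ t := intervalIntegral.integral_nonneg hy fun u _ => h0 u
    have h3 : I y = ∫ t in (0 : ℝ)..y, χ t := rfl
    linarith
  have hX0 : 0 ≤ X := (hI0 b hb).trans (hIb b le_rfl)
  have hXd : 0 < X + δ := by linarith
  have hl0 : 0 < l := by positivity
  have hlX : l * X < π / 2 := by
    have h1 : l * (X + δ) = π / 2 := by
      rw [hl]
      field_simp
    have h2 : 0 < l * δ := mul_pos hl0 hδ
    have h3 : l * (X + δ) = l * X + l * δ := by ring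
    linarith
  have hcos : ∀ y ∈ Icc 0 b, 0 < cos (l * I y) := by
    intro y hy
    have h1 : 0 ≤ l * I y := mul_nonneg hl0.le (hI0 y hy.1)
    have h2 : l * I y ≤ l * X := mul_le_mul_of_nonneg_left (hIb y hy.2) hl0.le
    have h3 := Real.pi_pos
    exact Real.cos_pos_of_mem_Ioo ⟨by linarith, by linarith⟩
  have hIc : Continuous I := continuous_iff_continuousAt.2 fun y => (hId y).continuousAt
  have hp : ∀ y ∈ Icc 0 b, HasDerivAt (fun y => l * tan (l * I y))
      (l * (1 / cos (l * I y) ^ 2 * (l * χ y))) y := by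
    intro y hy
    have h1 : HasDerivAt (fun y => l * I y) (l * χ y) y := (hId y).const_mul l
    have h2 : HasDerivAt tan (1 / cos (l * I y) ^ 2) (l * I y) :=
      Real.hasDerivAt_tan (hcos y hy).ne'
    exact (HasDerivAt.comp y h2 h1).const_mul l
  have hp' : ContinuousOn (fun y => l * (1 / cos (l * I y) ^ 2 * (l * χ y))) (Icc 0 b) := by
    have c1 : Continuous fun y => cos (l * I y) ^ 2 :=
      (Real.continuous_cos.comp (continuous_const.mul hIc)).pow 2
    refine continuousOn_const.mul (ContinuousOn.mul ?_ (continuousOn_const.mul hχ.continuousOn))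
    exact continuousOn_const.div c1.continuousOn fun y hy => (pow_pos (hcos y hy) 2).ne'
  have hw0 : (fun y => l * tan (l * I y)) 0 = 0 := by
    have h1 : I 0 = 0 := by
      show (∫ t in (0 : ℝ)..0, χ t) = 0
      exact intervalIntegral.integral_same
    show l * tan (l * I 0) = 0
    rw [h1, mul_zero, Real.tan_zero, mul_zero]
  have key := Pool.Agent.W_1ab439_h81.riccati_y hb' hg hg' hz hp hp' hw0
  have hcongr : ∫ y in (0 : ℝ)..b, (l * (1 / cos (l * I y) ^ 2 * (l * χ y)) -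
      (l * tan (l * I y)) ^ 2) * g y ^ 2 = l ^ 2 * ∫ y in (0 : ℝ)..b, g y ^ 2 := by
    rw [← intervalIntegral.integral_const_mul]
    refine intervalIntegral.integral_congr fun y hy => ?_
    rw [uIcc_of_le hb] at hy
    show (l * (1 / cos (l * I y) ^ 2 * (l * χ y)) - (l * tan (l * I y)) ^ 2) * g y ^ 2 =
      l ^ 2 * g y ^ 2
    by_cases hgy : g y = 0
    · rw [hgy]
      ring
    · have hc := (hcos y hy).ne'
      rw [hone y hgy, Real.tan_eq_sin_div_cos]
      have h1 : l * (1 / cos (l * I y) ^ 2 * (l * 1)) - (l * (sin (l * I y) / cos (l * I y))) ^ 2 =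
          l ^ 2 := by
        have h2 : sin (l * I y) ^ 2 = 1 - cos (l * I y) ^ 2 := by
          have := Real.sin_sq_add_cos_sq (l * I y)
          linarith
        exact quart_alg _ _ _ hc h2
      rw [h1]
  rw [hcongr] at key
  exact key

theorem column {g g' χ : ℝ → ℝ} {H y0 δ : ℝ} (hy0 : y0 ∈ Icc 0 H)
    (hg : ∀ y, HasDerivAt g (g' y) y)
    (hg' : Continuous g') (hχ : Continuous χ) (h0 : ∀ y, 0 ≤ χ y)
    (hone : ∀ y, g y ≠ 0 → χ y = 1) (hz : g y0 = 0) (hδ : 0 < δ) :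
    (π / (2 * ((∫ y in (0 : ℝ)..H, χ y) + δ))) ^ 2 * ∫ y in (0 : ℝ)..H, g y ^ 2 ≤
      ∫ y in (0 : ℝ)..H, g' y ^ 2 := by
  have hgc : Continuous g := continuous_iff_continuousAt.2 fun y => (hg y).continuousAt
  have hint : ∀ {u : ℝ → ℝ}, Continuous u → ∀ a c : ℝ, IntervalIntegrable u volume a c :=
    fun hu a c => hu.intervalIntegrable a c
  have hsplit : ∀ {u : ℝ → ℝ}, Continuous u →
      ∫ y in (0 : ℝ)..H, u y = (∫ y in (0 : ℝ)..y0, u y) + ∫ y in y0..H, u y := fun hu =>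
    (intervalIntegral.integral_add_adjacent_intervals (hint hu _ _) (hint hu _ _)).symm
  set X : ℝ := ∫ y in (0 : ℝ)..H, χ y with hX
  have hXs := hsplit hχ
  rw [← hX] at hXs
  have hn1 : 0 ≤ ∫ y in (0 : ℝ)..y0, χ y := intervalIntegral.integral_nonneg hy0.1 fun u _ => h0 u
  have hn2 : 0 ≤ ∫ y in y0..H, χ y := intervalIntegral.integral_nonneg hy0.2 fun u _ => h0 u
  have q1 := quarter (X := X) hy0.1 hg hg' hχ h0 hone hz hδ (by linarith)
  have href : ∀ u : ℝ → ℝ, ∫ y in (0 : ℝ)..(H - y0), u (H - y) = ∫ y in y0..H, u y := by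
    intro u
    rw [intervalIntegral.integral_comp_sub_left]
    simp
  have hgr : ∀ y, HasDerivAt (fun y => g (H - y)) (-g' (H - y)) y := by
    intro y
    have h1 : HasDerivAt (fun y => H - y) (-1) y := by
      simpa using (hasDerivAt_id y).const_sub H
    have h2 := HasDerivAt.comp y (hg (H - y)) h1
    rw [mul_neg_one] at h2
    exact h2
  have hcs : Continuous fun y : ℝ => H - y := continuous_const.sub continuous_id
  have q2 := quarter (g := fun y => g (H - y)) (g' := fun y => -g' (H - y))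
    (χ := fun y => χ (H - y)) (b := H - y0) (X := X) (δ := δ) (by linarith [hy0.2]) hgr
    ((hg'.comp hcs).neg) (hχ.comp hcs) (fun y => h0 _) (fun y hy => hone _ hy)
    (by
      show g (H - (H - y0)) = 0
      rw [sub_sub_cancel]
      exact hz) hδ
    (by
      rw [href χ]
      linarith)
  have e1 : ∫ y in (0 : ℝ)..(H - y0), (g (H - y)) ^ 2 = ∫ y in y0..H, g y ^ 2 :=
    href fun y => g y ^ 2
  have e2 : ∫ y in (0 : ℝ)..(H - y0), (-g' (H - y)) ^ 2 = ∫ y in y0..H, g' y ^ 2 := by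
    rw [← href fun y => g' y ^ 2]
    refine intervalIntegral.integral_congr fun y _ => ?_
    show (-g' (H - y)) ^ 2 = g' (H - y) ^ 2
    ring
  have q2' : (π / (2 * (X + δ))) ^ 2 * ∫ y in y0..H, g y ^ 2 ≤ ∫ y in y0..H, g' y ^ 2 := by
    rw [← e1, ← e2]
    exact q2
  have s1 : ∫ y in (0 : ℝ)..H, g y ^ 2 =
      (∫ y in (0 : ℝ)..y0, g y ^ 2) + ∫ y in y0..H, g y ^ 2 := hsplit (hgc.pow 2)
  have s2 : ∫ y in (0 : ℝ)..H, g' y ^ 2 =
      (∫ y in (0 : ℝ)..y0, g' y ^ 2) + ∫ y in y0..H, g' y ^ 2 := hsplit (hg'.pow 2)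
  rw [s1, s2, mul_add]
  exact add_le_add q1 q2'

end Pool.Agent.W_1ab439_h81b

end Quart

section CalBox

/-!
CalBox (M).  Calibration on the box (row 523, 3a, 3b).

`col_cal`: if `col χ H x = H` then `mm = min 1 0 = 0` and `vv = 0`.  Otherwise some `y0 ∈ [0,H]` has `χ (x,y0) ≠ 1` (else the integral is `H`), so `f (x,y0) = 0` and
`column` applies with `g y = f (x,y)`, `g' y = dy f (x,y)`; `vv ≤ 1 / yy^2 = (π/(2 (col + δ)))^2`.
`riccati_end`: as `riccati_y` in `W_1ab439_h81/Calib.lean`, but the boundary term at `R` is `p R * f R ^ 2 ≤ 0`: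
`0 ≤ ∫ (f' + p f)^2 = ∫ f'^2 + p R f R^2 - ∫ (p' - p^2) f^2`.
`cal_box`: Fubini on `bx 0 R 0 H` in both orders (integrands continuous with compact support, times functions of `x` alone which are continuous):
for each `x`: `∫ y in 0..H, dy f ^2 ≥ vv x ∫ y in 0..H, f^2` (col_cal); for each `y ∈ (0,H)`: `∫ x in 0..R, dx f ^2 ≥ ∫ x in 0..R, (1 - vv x) f^2` (riccati_end with
`p' x = 1 + p x ^2 - vv x`).  Add.
-/

set_option autoImplicit false

open MeasureTheory Set Real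

namespace Pool.Agent.W_1ab439_h81b

open Pool.Agent.W_1ab439_h81

variable {f χ : ℝ × ℝ → ℝ} {H δ R : ℝ}

theorem col_cal (hf : CC f) (hχ : Cut f χ) (hH : 0 < H) (hδ : 0 < δ) (x : ℝ) :
    vv χ H δ x * ∫ y in (0 : ℝ)..H, f (x, y) ^ 2 ≤ ∫ y in (0 : ℝ)..H, dy f (x, y) ^ 2 := by
  have hr : 0 ≤ ∫ y in (0 : ℝ)..H, dy f (x, y) ^ 2 :=
    intervalIntegral.integral_nonneg hH.le fun y _ => sq_nonneg _
  have hf2 : 0 ≤ ∫ y in (0 : ℝ)..H, f (x, y) ^ 2 :=
    intervalIntegral.integral_nonneg hH.le fun y _ => sq_nonneg _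
  by_cases hc : col χ H x = H
  · have h1 : vv χ H δ x = 0 := by
      unfold vv mm
      rw [hc, sub_self, zero_div, min_eq_right zero_le_one, zero_div]
    rw [h1, zero_mul]
    exact hr
  · obtain ⟨y0, hy0, hy1⟩ : ∃ y0 ∈ Icc 0 H, χ (x, y0) ≠ 1 := by
      by_contra hcon
      push Not at hcon
      apply hc
      unfold col
      have h2 : ∫ y in (0 : ℝ)..H, χ (x, y) = ∫ _ in (0 : ℝ)..H, (1 : ℝ) := by
        refine intervalIntegral.integral_congr fun y hy => ?_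
        rw [uIcc_of_le hH.le] at hy
        exact hcon y hy
      rw [h2, intervalIntegral.integral_const, sub_zero, smul_eq_mul, mul_one]
    have hz : f (x, y0) = 0 := by
      by_contra h3
      exact hy1 (hχ.one _ h3)
    have h4 := column (g := fun y => f (x, y)) (g' := fun y => dy f (x, y))
      (χ := fun y => χ (x, y)) hy0 (fun y => hf.hasDerivAt_y x y)
      (hf.dy_cont.comp (by fun_prop)) (hχ.cont.comp (by fun_prop)) (fun y => hχ.nonneg _)
      (fun y hy => hχ.one _ hy) hz hδ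
    refine le_trans ?_ h4
    refine mul_le_mul_of_nonneg_right ?_ hf2
    have h5 : 0 ≤ col χ H x := col_nonneg hχ hH.le x
    have h6 : 0 < col χ H x + δ := by linarith
    have h7 : yy χ H δ x = 2 * (col χ H x + δ) / π := rfl
    have h8 : 0 < yy χ H δ x := yy_pos hχ hH.le hδ x
    have h9 : vv χ H δ x ≤ 1 / yy χ H δ x ^ 2 := by
      unfold vv
      exact div_le_div_of_nonneg_right (mm_le_one χ H δ x) (by positivity)
    refine h9.trans (le_of_eq ?_)
    rw [h7]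
    have hπ := pi_pos
    show 1 / (2 * (col χ H x + δ) / π) ^ 2 = (π / (2 * (col χ H x + δ))) ^ 2
    field_simp

theorem riccati_end {f f' p p' : ℝ → ℝ} {R : ℝ} (hR : 0 < R) (hf : ∀ y, HasDerivAt f (f' y) y)
    (hf' : Continuous f') (hz : p R * f R ^ 2 ≤ 0) (hp : ∀ y ∈ Icc 0 R, HasDerivAt p (p' y) y)
    (hp' : ContinuousOn p' (Icc 0 R)) (hp0 : p 0 = 0) :
    ∫ y in (0 : ℝ)..R, (p' y - p y ^ 2) * f y ^ 2 ≤ ∫ y in (0 : ℝ)..R, f' y ^ 2 := by
  have hu : uIcc (0 : ℝ) R = Icc 0 R := uIcc_of_le hR.le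
  have hfc : Continuous f := continuous_iff_continuousAt.2 fun y => (hf y).continuousAt
  have hpc : ContinuousOn p (Icc 0 R) := fun y hy => (hp y hy).continuousAt.continuousWithinAt
  have hfo : ContinuousOn f (Icc 0 R) := hfc.continuousOn
  have hfo' : ContinuousOn f' (Icc 0 R) := hf'.continuousOn
  have c1 : ContinuousOn (fun y => p' y * f y ^ 2 + p y * (2 * f y * f' y)) (Icc 0 R) :=
    (hp'.mul (hfo.pow 2)).add (hpc.mul ((continuousOn_const.mul hfo).mul hfo'))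
  have c2 : ContinuousOn (fun y => (f' y + p y * f y) ^ 2) (Icc 0 R) :=
    (hfo'.add (hpc.mul hfo)).pow 2
  have c3 : ContinuousOn (fun y => (p' y - p y ^ 2) * f y ^ 2) (Icc 0 R) :=
    (hp'.sub (hpc.pow 2)).mul (hfo.pow 2)
  have i1 := (hu ▸ c1 : ContinuousOn _ (uIcc (0 : ℝ) R)).intervalIntegrable (μ := volume)
  have i2 := (hu ▸ c2 : ContinuousOn _ (uIcc (0 : ℝ) R)).intervalIntegrable (μ := volume)
  have i3 := (hu ▸ c3 : ContinuousOn _ (uIcc (0 : ℝ) R)).intervalIntegrable (μ := volume)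
  have h0 : ∫ y in (0 : ℝ)..R, (p' y * f y ^ 2 + p y * (2 * f y * f' y)) = p R * f R ^ 2 := by
    have := intervalIntegral.integral_eq_sub_of_hasDerivAt (a := 0) (b := R)
      (f := fun y => p y * f y ^ 2) (f' := fun y => p' y * f y ^ 2 + p y * (2 * f y * f' y))
      (fun y hy => by
        have h1 := (hp y (hu ▸ hy)).mul ((hf y).pow 2)
        convert h1 using 1
        all_goals first | rfl | (norm_num) | skip) i1
    rw [this]
    simp [hp0]
  have h1 : 0 ≤ ∫ y in (0 : ℝ)..R, (f' y + p y * f y) ^ 2 :=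
    intervalIntegral.integral_nonneg hR.le fun y _ => sq_nonneg _
  have h2 : ∫ y in (0 : ℝ)..R, f' y ^ 2 =
      (∫ y in (0 : ℝ)..R, (f' y + p y * f y) ^ 2) +
      (∫ y in (0 : ℝ)..R, (p' y - p y ^ 2) * f y ^ 2) -
      ∫ y in (0 : ℝ)..R, (p' y * f y ^ 2 + p y * (2 * f y * f' y)) := by
    rw [← intervalIntegral.integral_add i2 i3, ← intervalIntegral.integral_sub (i2.add i3) i1]
    refine intervalIntegral.integral_congr fun y _ => ?_
    ring
  rw [h2, h0]
  linarith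

private theorem CalBox_sq_cpt {g : ℝ × ℝ → ℝ} (h : HasCompactSupport g) :
    HasCompactSupport fun z => g z ^ 2 := by
  have : (fun z => g z ^ 2) = g * g := funext fun z => by simp [pow_two]
  rw [this]
  exact h.mul_left

theorem cal_box (hf : CC f) (hχ : Cut f χ) (hR : 0 < R) (hH : 0 < H) (hδ : 0 < δ) {p : ℝ → ℝ}
    (hp0 : p 0 = 0) (hp : ∀ x ∈ Icc 0 R, HasDerivAt p (1 + p x ^ 2 - vv χ H δ x) x)
    (hend : p R ≤ 0 ∨ ∀ y ∈ Icc 0 H, f (R, y) = 0) :
    0 ≤ En f (bx 0 R 0 H) := by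
  have hV : Continuous (vv χ H δ) := vv_cont hχ hH.le hδ
  set μ : Measure ℝ := volume.restrict (Ioo 0 R) with hμ
  set ν : Measure ℝ := volume.restrict (Ioo 0 H) with hν
  have hm : (volume : Measure (ℝ × ℝ)).restrict (bx 0 R 0 H) = μ.prod ν := by
    rw [bx, Measure.volume_eq_prod, hμ, hν, Measure.prod_restrict]
  have hi : ∀ {F : ℝ × ℝ → ℝ}, Continuous F → HasCompactSupport F → Integrable F (μ.prod ν) := by
    intro F hF hF'
    rw [← hm]
    exact (hF.integrable_of_hasCompactSupport hF').restrict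
  have i1 : Integrable (fun z => dx f z ^ 2) (μ.prod ν) :=
    hi (hf.dx_cont.pow 2) (CalBox_sq_cpt hf.dx_cpt)
  have i2 : Integrable (fun z => dy f z ^ 2) (μ.prod ν) :=
    hi (hf.dy_cont.pow 2) (CalBox_sq_cpt hf.dy_cpt)
  have i3 : Integrable (fun z => f z ^ 2) (μ.prod ν) :=
    hi (hf.cont.pow 2) (CalBox_sq_cpt hf.2)
  have i4 : Integrable (fun z : ℝ × ℝ => vv χ H δ z.1 * f z ^ 2) (μ.prod ν) :=
    hi ((hV.comp continuous_fst).mul (hf.cont.pow 2)) (CalBox_sq_cpt hf.2).mul_left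
  have i5 : Integrable (fun z : ℝ × ℝ => (1 - vv χ H δ z.1) * f z ^ 2) (μ.prod ν) :=
    hi ((continuous_const.sub (hV.comp continuous_fst)).mul (hf.cont.pow 2))
      (CalBox_sq_cpt hf.2).mul_left
  have hIx : ∀ g : ℝ → ℝ, ∫ x, g x ∂μ = ∫ x in (0 : ℝ)..R, g x := fun g => by
    rw [hμ, intervalIntegral.integral_of_le hR.le, integral_Ioc_eq_integral_Ioo]
  have hIy : ∀ g : ℝ → ℝ, ∫ y, g y ∂ν = ∫ y in (0 : ℝ)..H, g y := fun g => by
    rw [hν, intervalIntegral.integral_of_le hH.le, integral_Ioc_eq_integral_Ioo]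
  have k1 : ∫ z, vv χ H δ z.1 * f z ^ 2 ∂(μ.prod ν) ≤ ∫ z, dy f z ^ 2 ∂(μ.prod ν) := by
    rw [integral_prod _ i4, integral_prod _ i2]
    refine integral_mono i4.integral_prod_left i2.integral_prod_left fun x => ?_
    show ∫ y, vv χ H δ x * f (x, y) ^ 2 ∂ν ≤ ∫ y, dy f (x, y) ^ 2 ∂ν
    rw [hIy, hIy, intervalIntegral.integral_const_mul]
    exact col_cal hf hχ hH hδ x
  have k2 : ∫ z, (1 - vv χ H δ z.1) * f z ^ 2 ∂(μ.prod ν) ≤ ∫ z, dx f z ^ 2 ∂(μ.prod ν) := by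
    rw [integral_prod_symm _ i5, integral_prod_symm _ i1]
    refine integral_mono_ae i5.integral_prod_right i1.integral_prod_right ?_
    rw [hν]
    filter_upwards [ae_restrict_mem measurableSet_Ioo] with y hy
    show ∫ x, (1 - vv χ H δ x) * f (x, y) ^ 2 ∂μ ≤ ∫ x, dx f (x, y) ^ 2 ∂μ
    rw [hIx, hIx]
    have hz : p R * f (R, y) ^ 2 ≤ 0 := by
      rcases hend with h | h
      · exact mul_nonpos_of_nonpos_of_nonneg h (sq_nonneg _)
      · rw [h y (Ioo_subset_Icc_self hy)]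
        simp
    have hpc : ContinuousOn p (Icc 0 R) := fun x hx => (hp x hx).continuousAt.continuousWithinAt
    have h1 := riccati_end (f := fun x => f (x, y)) (f' := fun x => dx f (x, y)) (p := p)
      (p' := fun x => 1 + p x ^ 2 - vv χ H δ x) hR (fun x => hf.hasDerivAt_x x y)
      (hf.dx_cont.comp (by fun_prop)) hz hp
      ((continuousOn_const.add (hpc.pow 2)).sub hV.continuousOn) hp0
    refine le_trans (le_of_eq ?_) h1
    refine intervalIntegral.integral_congr fun x _ => ?_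
    show (1 - vv χ H δ x) * f (x, y) ^ 2 = (1 + p x ^ 2 - vv χ H δ x - p x ^ 2) * f (x, y) ^ 2
    ring
  have e1 : En f (bx 0 R 0 H) = (∫ z, dx f z ^ 2 ∂(μ.prod ν)) + (∫ z, dy f z ^ 2 ∂(μ.prod ν)) -
      ∫ z, f z ^ 2 ∂(μ.prod ν) := by
    have h2 : En f (bx 0 R 0 H) = ∫ z, (dx f z ^ 2 + dy f z ^ 2 - f z ^ 2) ∂(μ.prod ν) := by
      rw [← hm]
      rfl
    have h3 : ∫ z, (dx f z ^ 2 + dy f z ^ 2 - f z ^ 2) ∂(μ.prod ν) =
        (∫ z, (dx f z ^ 2 + dy f z ^ 2) ∂(μ.prod ν)) - ∫ z, f z ^ 2 ∂(μ.prod ν) :=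
      integral_sub (f := fun z => dx f z ^ 2 + dy f z ^ 2) (i1.add i2) i3
    rw [h2, h3, integral_add i1 i2]
  have e2 : ∫ z, f z ^ 2 ∂(μ.prod ν) = (∫ z, vv χ H δ z.1 * f z ^ 2 ∂(μ.prod ν)) +
      ∫ z, (1 - vv χ H δ z.1) * f z ^ 2 ∂(μ.prod ν) := by
    rw [← integral_add i4 i5]
    refine integral_congr_ae (Filter.Eventually.of_forall fun z => ?_)
    show f z ^ 2 = vv χ H δ z.1 * f z ^ 2 + (1 - vv χ H δ z.1) * f z ^ 2
    ring
  rw [e1, e2]
  linarith

end Pool.Agent.W_1ab439_h81b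

end CalBox

section RunEx

/-!
RunEx (S).  A piece of negative energy gives a run (row 523, 3c).

`pruefer` (in `W_1ab439_h81/Angle.lean`) for `V = vv χ H δ` (continuous, `0 ≤ V ≤ (π/(2δ))^2`) on `[0,R]`; `dichotomy`: either `φ` reaches `π/2` at some `T ≤ R`
with `|φ| < π/2` before (first alternative; `Run T` from the facts in Cols), or `|φ| < π/2` on `[0,R]`.  In the second case `p = tan φ` satisfies
`p' = 1 + p^2 - V` (`riccati`), `p 0 = 0`; if `f (R,·) = 0` on `[0,H]` or `φ R ≤ 0` (then `tan (φ R) ≤ 0`) cal_box gives `0 ≤ En f (bx 0 R 0 H)`, a contradiction.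
-/

set_option autoImplicit false

open MeasureTheory Set Real

namespace Pool.Agent.W_1ab439_h81b

open Pool.Agent.W_1ab439_h81

variable {f χ : ℝ × ℝ → ℝ} {H δ R : ℝ}

private theorem mk_run (hχ : Cut f χ) (hH : π ≤ H) (hδ : 0 < δ) {T : ℝ} (hT : 0 ≤ T)
    {φ : ℝ → ℝ} (h0 : φ 0 = 0)
    (hd : ∀ t ∈ Icc 0 T, HasDerivAt φ (1 - vv χ H δ t * cos (φ t) ^ 2) t)
    (hb : ∀ t ∈ Icc 0 T, |φ t| ≤ π / 2) : Run T φ (mm χ H δ) (yy χ H δ) := by
  have hH0 : 0 ≤ H := pi_pos.le.trans hH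
  exact ⟨hT, yy_cont hχ H δ, mm_cont hχ H δ, yy_pos hχ hH0 hδ, mm_nonneg hχ hH0 hδ,
    mm_le_one χ H δ, mm_full hχ hH hδ, hd, h0, hb⟩

theorem exists_run (hf : CC f) (hχ : Cut f χ) (hH : π ≤ H) (hδ : 0 < δ) (hR : 0 < R)
    (hE : En f (bx 0 R 0 H) < 0) :
    (∃ T, ∃ φ : ℝ → ℝ, 0 < T ∧ T ≤ R ∧ Run T φ (mm χ H δ) (yy χ H δ) ∧ φ T = π / 2) ∨
      ((¬ ∀ y ∈ Icc 0 H, f (R, y) = 0) ∧
        ∃ φ : ℝ → ℝ, Run R φ (mm χ H δ) (yy χ H δ) ∧ 0 ≤ φ R) := by
  have hHp : 0 < H := pi_pos.trans_le hH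
  obtain ⟨φ, h0, hd⟩ := pruefer (vv_cont hχ hHp.le hδ) (M := (π / (2 * δ)) ^ 2)
    (vv_nonneg hχ hHp.le hδ) (vv_le hχ hHp.le hδ) hR
  rcases dichotomy hR h0 hd with ⟨T, hT0, hTR, hTφ, hlt⟩ | hlt
  · left
    refine ⟨T, φ, hT0, hTR, mk_run hχ hH hδ hT0.le h0
      (fun t ht => hd t ⟨ht.1, ht.2.trans hTR⟩) ?_, hTφ⟩
    intro t ht
    rcases ht.2.lt_or_eq with h | h
    · exact (hlt t ⟨ht.1, h⟩).le
    · rw [h, hTφ, abs_of_pos (by positivity)]
  · right
    have hric := riccati hd hlt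
    have hkey : ∀ h : (tan (φ R) ≤ 0 ∨ ∀ y ∈ Icc 0 H, f (R, y) = 0), False := by
      intro h
      have h1 := cal_box hf hχ hR hHp hδ (p := fun t => tan (φ t))
        (by simp only [h0, tan_zero]) hric h
      linarith
    refine ⟨fun hz => hkey (Or.inr hz), φ, mk_run hχ hH hδ hR.le h0 hd
      (fun t ht => (hlt t ht).le), ?_⟩
    by_contra hneg
    push Not at hneg
    have hb := abs_lt.1 (hlt R ⟨hR.le, le_rfl⟩)
    exact hkey (Or.inl (tan_nonpos_of_nonpos_of_neg_pi_div_two_le hneg.le hb.1.le))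

end Pool.Agent.W_1ab439_h81b

end RunEx

section Near

/-!
Near (M).  `∫ 0..L (1 - mm χ H δ) → fl χ L H` as `δ → 0`.

`1 - mm χ H δ x = max 0 (1 - (H - col)/δ)`; at a fixed `x` it is `1` if `col = H`, and `0` for `δ < H - col` if `col < H`.  Dominated convergence
(bound `1`, continuous functions, `δ = 1/(n+1)`) on `Icc 0 L`: the limit is the integral of the indicator of `{x | col χ H x = H}`, which is `fl χ L H`
(`integral_indicator_one`, `Measure.restrict_apply`; the set is closed).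
-/

set_option autoImplicit false

open MeasureTheory Set Real Filter

namespace Pool.Agent.W_1ab439_h81b

open Pool.Agent.W_1ab439_h81

variable {f χ : ℝ × ℝ → ℝ} {H L : ℝ}

private theorem Near_lim (hχ : Cut f χ) (hL : 0 ≤ L) (H : ℝ) :
    ∫ x in (0 : ℝ)..L, ({x | col χ H x = H} : Set ℝ).indicator (fun _ => (1 : ℝ)) x =
      fl χ L H := by
  have hm : MeasurableSet {x | col χ H x = H} :=
    (isClosed_eq (col_cont hχ H) continuous_const).measurableSet
  rw [intervalIntegral.integral_of_le hL, ← integral_Icc_eq_integral_Ioc]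
  have h1 : ∫ x in Icc 0 L, ({x | col χ H x = H} : Set ℝ).indicator (fun _ => (1 : ℝ)) x =
      (volume.restrict (Icc 0 L)).real {x | col χ H x = H} := integral_indicator_one hm
  rw [h1, measureReal_def, Measure.restrict_apply hm, fl]
  congr 2
  ext x
  simp only [mem_inter_iff, mem_ofPred_eq, and_comm]

private theorem Near_pt (hχ : Cut f χ) (hH : 0 ≤ H) (x : ℝ) :
    Tendsto (fun n : ℕ => 1 - mm χ H (1 / ((n : ℝ) + 1)) x) atTop
      (nhds (({x | col χ H x = H} : Set ℝ).indicator (fun _ => (1 : ℝ)) x)) := by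
  by_cases hx : col χ H x = H
  · rw [indicator_of_mem (show x ∈ {x | col χ H x = H} from hx)]
    have h1 : ∀ n : ℕ, 1 - mm χ H (1 / ((n : ℝ) + 1)) x = 1 := by
      intro n
      rw [mm, hx, sub_self, zero_div, min_eq_right zero_le_one, sub_zero]
    simp only [h1]
    exact tendsto_const_nhds
  · rw [indicator_of_notMem (show x ∉ {x | col χ H x = H} from hx)]
    have hlt : 0 < H - col χ H x :=
      sub_pos.2 (lt_of_le_of_ne (col_le hχ hH x) hx)
    obtain ⟨N, hN⟩ := exists_nat_gt (1 / (H - col χ H x))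
    refine tendsto_atTop_of_eventually_const (i₀ := N) fun n hn => ?_
    have h1 : 1 ≤ (H - col χ H x) / (1 / ((n : ℝ) + 1)) := by
      rw [div_div_eq_mul_div, div_one]
      have h2 : 1 / (H - col χ H x) < (n : ℝ) + 1 := by
        have h3 : (N : ℝ) ≤ n := Nat.cast_le.2 hn
        linarith
      rw [div_lt_iff₀ hlt] at h2
      linarith
    rw [mm, min_eq_left h1, sub_self]

theorem near_full (hχ : Cut f χ) (hL : 0 ≤ L) (hH : 0 ≤ H) :
    Tendsto (fun n : ℕ => ∫ x in (0 : ℝ)..L, (1 - mm χ H (1 / ((n : ℝ) + 1)) x)) atTop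
      (nhds (fl χ L H)) := by
  rw [← Near_lim hχ hL H]
  refine intervalIntegral.tendsto_integral_filter_of_dominated_convergence (fun _ => (1 : ℝ))
    (Eventually.of_forall fun n => ?_) (Eventually.of_forall fun n => ?_)
    intervalIntegrable_const (Eventually.of_forall fun x _ => Near_pt hχ hH x)
  · exact (continuous_const.sub (mm_cont hχ H _)).aestronglyMeasurable
  · refine Eventually.of_forall fun x _ => ?_
    have hδ : (0 : ℝ) < 1 / ((n : ℝ) + 1) := by positivity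
    have h1 := mm_nonneg hχ hH hδ x
    have h2 := mm_le_one χ H (1 / ((n : ℝ) + 1)) x
    rw [Real.norm_eq_abs, abs_le]
    constructor <;> linarith

end Pool.Agent.W_1ab439_h81b

end Near
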