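import Pool.Agent.W_1ab439_h81.Basic

/-!
Definitions for `N(lam) ≤ (8/5) Weyl` on bounded open planar sets (MP_1ab439_an, paper proof: table
proofs row 523).  Everything happens on `ℝ × ℝ` after scaling to `lam = 1`.
-/

set_option autoImplicit false

open MeasureTheory Set Real

namespace Pool.Agent.W_1ab439_h81b

open Pool.Agent.W_1ab439_h81

/-- the open box `(a,b) × (c,d)` -/
def bx (a b c d : ℝ) : Set (ℝ × ℝ) := Ioo a b ×ˢ Ioo c d

/-- length of the column of `χ` over `x` between the heights `0` and `H` -/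
noncomputable def col (χ : ℝ × ℝ → ℝ) (H x : ℝ) : ℝ := ∫ y in (0 : ℝ)..H, χ (x, y)

/-- the weight `m`: equal to `1` on the columns of length at most `H - δ`, to `0` on full columns -/
noncomputable def mm (χ : ℝ × ℝ → ℝ) (H δ x : ℝ) : ℝ := min 1 ((H - col χ H x) / δ)

/-- the normalised length `Y = 2 (X + δ) / π` -/
noncomputable def yy (χ : ℝ × ℝ → ℝ) (H δ x : ℝ) : ℝ := 2 * (col χ H x + δ) / π

/-- the potential `V = m / Y ^ 2` -/
noncomputable def vv (χ : ℝ × ℝ → ℝ) (H δ x : ℝ) : ℝ := mm χ H δ x / yy χ H δ x ^ 2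

/-- the measure of the set of full columns -/
noncomputable def fl (χ : ℝ × ℝ → ℝ) (L H : ℝ) : ℝ :=
  (volume {x | x ∈ Icc 0 L ∧ col χ H x = H}).toReal

/-- a run: the Pruefer angle `φ` of `V = m / Y ^ 2`, started at `0` -/
structure Run (L : ℝ) (φ m Y : ℝ → ℝ) : Prop where
  L0 : 0 ≤ L
  Yc : Continuous Y
  mc : Continuous m
  Y0 : ∀ t, 0 < Y t
  m0 : ∀ t, 0 ≤ m t
  m1 : ∀ t, m t ≤ 1
  full : ∀ t, m t < 1 → 2 ≤ Y t
  d : ∀ t ∈ Icc 0 L, HasDerivAt φ (1 - m t / Y t ^ 2 * cos (φ t) ^ 2) t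
  z : φ 0 = 0
  bd : ∀ t ∈ Icc 0 L, |φ t| ≤ π / 2

/-- the cap function `max (a cos x - q) 0`, `a = 2.598` -/
noncomputable def capP (q x : ℝ) : ℝ := max (1299 / 500 * cos x - q) 0

/-- the primitive of `capP q` -/
noncomputable def capI (q x : ℝ) : ℝ := ∫ s in (0 : ℝ)..x, capP q s

variable {ι : Type} [Fintype ι]

/-- linear combination of a finite family -/
noncomputable def lc (v : ι → ℝ × ℝ → ℝ) (c : ι → ℝ) (z : ℝ × ℝ) : ℝ := ∑ i, c i * v i z

/-- the energy on `S` is negative definite on the subspace `W` of the coefficient space -/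
def Neg (v : ι → ℝ × ℝ → ℝ) (W : Submodule ℝ (ι → ℝ)) (S : Set (ℝ × ℝ)) : Prop :=
  ∀ c ∈ W, c ≠ 0 → En (lc v c) S < 0

end Pool.Agent.W_1ab439_h81b
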