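import Pool.Agent.W_1ab439_h81b.Defs

section Pt

/-!
Pt (S).  Pointwise inequalities (row 523, section 1).

`cubic`: with `s = A + n`: `y^3 - s y^2 + A ≥ y^3 - s y^2 + 4 s^3/27 = (y - 2s/3)^2 (y + s/3) ≥ 0`; divide by `y^2`.
`pt_up`: if `c = 0` then `nu = 0` and the claim is `0 ≤ Y`.  Otherwise, with `y = Y/c`, the claim at `nu = 0` is `cubic` for `A = a`, `n = 0`
(times `c`; `4 a^3 ≤ 27 a`), at `nu = n c` it is `cubic` for `A = a - b n`.  Both sides are affine in `nu`.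
`pt_dn`: the same with constant slope `B` (`4 B^3 ≤ 4 (B+n)^3 ≤ 27 B`).
`pt_mid`: affine in the slope.  `pt_one`: `y + 1/(2 y^2) ≥ 3/2`, i.e. `2y^3 - 3y^2 + 1 = (y-1)^2 (2y+1) ≥ 0`.
`pt_full`: the difference of the two sides is `(1-m) ((Y + kap) - (nu + psi)) + m (Y - (nu + psi (1 - c^2/Y^2)))`.
-/

set_option autoImplicit false

open MeasureTheory Set Real

namespace Pool.Agent.W_1ab439_h81b

theorem cubic {A n y : ℝ} (hA : 0 ≤ A) (hn : 0 ≤ n) (h : 4 * (A + n) ^ 3 ≤ 27 * A) (hy : 0 < y) :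
    n + A * (1 - 1 / y ^ 2) ≤ y := by
  have h1 : 0 ≤ (y - 2 * (A + n) / 3) ^ 2 * (y + (A + n) / 3) :=
    mul_nonneg (sq_nonneg _) (by positivity)
  have h2 : (y - 2 * (A + n) / 3) ^ 2 * (y + (A + n) / 3) =
      y ^ 3 - (A + n) * y ^ 2 + 4 * (A + n) ^ 3 / 27 := by ring
  have h3 : 0 ≤ y ^ 3 - (A + n) * y ^ 2 + A := by linarith
  have h4 : y - (n + A * (1 - 1 / y ^ 2)) = (y ^ 3 - (A + n) * y ^ 2 + A) / y ^ 2 := by
    field_simp
    ring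
  have h5 : 0 ≤ (y ^ 3 - (A + n) * y ^ 2 + A) / y ^ 2 := div_nonneg h3 (by positivity)
  linarith

private theorem pt_scale {A n c Y : ℝ} (hA : 0 ≤ A) (hn : 0 ≤ n) (h : 4 * (A + n) ^ 3 ≤ 27 * A)
    (hY : 0 < Y) (hc : 0 < c) : n * c + A * c * (1 - c ^ 2 / Y ^ 2) ≤ Y := by
  have h1 := cubic hA hn h (div_pos hY hc)
  have h2 : 1 / (Y / c) ^ 2 = c ^ 2 / Y ^ 2 := by
    field_simp
  rw [h2] at h1
  have h3 := mul_le_mul_of_nonneg_left h1 hc.le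
  have h4 : c * (Y / c) = Y := by field_simp
  rw [h4] at h3
  have h5 : c * (n + A * (1 - c ^ 2 / Y ^ 2)) = n * c + A * c * (1 - c ^ 2 / Y ^ 2) := by ring
  rw [h5] at h3
  exact h3

theorem pt_up {a b n c Y nu : ℝ} (ha : 0 ≤ a) (ha2 : a ^ 2 ≤ 27 / 4) (hn : 0 ≤ n)
    (hA : 0 ≤ a - b * n) (hA2 : 4 * (a - b * n + n) ^ 3 ≤ 27 * (a - b * n)) (hY : 0 < Y)
    (hc : 0 ≤ c) (hnu : 0 ≤ nu) (hnc : nu ≤ n * c) :
    nu + (a * c - b * nu) * (1 - c ^ 2 / Y ^ 2) ≤ Y := by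
  rcases hc.eq_or_lt with h0 | h0
  · subst h0
    have h1 : nu = 0 := le_antisymm (by simpa using hnc) hnu
    subst h1
    simpa using hY.le
  · have h1 : 4 * (a + 0) ^ 3 ≤ 27 * a := by nlinarith
    have h2 := pt_scale ha le_rfl h1 hY h0
    have h3 := pt_scale hA hn hA2 hY h0
    set w := 1 - c ^ 2 / Y ^ 2 with hw
    rcases le_total (1 - b * w) 0 with h4 | h4
    · have h5 := mul_nonpos_of_nonneg_of_nonpos hnu h4
      linarith
    · have h5 := mul_le_mul_of_nonneg_right hnc h4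
      linarith

theorem pt_dn {B n c Y nu : ℝ} (hB : 0 ≤ B) (hn : 0 ≤ n) (hB2 : 4 * (B + n) ^ 3 ≤ 27 * B)
    (hY : 0 < Y) (hc : 0 ≤ c) (hnu : 0 ≤ nu) (hnc : nu ≤ n * c) :
    nu + B * c * (1 - c ^ 2 / Y ^ 2) ≤ Y := by
  rcases hc.eq_or_lt with h0 | h0
  · subst h0
    have h1 : nu = 0 := le_antisymm (by simpa using hnc) hnu
    subst h1
    simpa using hY.le
  · have h3 := pt_scale hB hn hB2 hY h0
    linarith

theorem pt_mid {c Y nu lo hi psi : ℝ} (h1 : nu + lo * (1 - c ^ 2 / Y ^ 2) ≤ Y)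
    (h2 : nu + hi * (1 - c ^ 2 / Y ^ 2) ≤ Y) (h3 : lo ≤ psi) (h4 : psi ≤ hi) :
    nu + psi * (1 - c ^ 2 / Y ^ 2) ≤ Y := by
  rcases le_total (1 - c ^ 2 / Y ^ 2) 0 with h5 | h5
  · have h6 := mul_le_mul_of_nonpos_right h3 h5
    linarith
  · have h6 := mul_le_mul_of_nonneg_right h4 h5
    linarith

theorem pt_one {c Y : ℝ} (hY : 0 < Y) (hc : 0 ≤ c) :
    c + c / 2 * (1 - c ^ 2 / Y ^ 2) ≤ Y := by
  rcases hc.eq_or_lt with h0 | h0
  · subst h0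
    simpa using hY.le
  · have h1 := pt_scale (A := 1 / 2) (n := 1) (by norm_num) (by norm_num) (by norm_num) hY h0
    have h2 : c / 2 = 1 / 2 * c := by ring
    rw [h2]
    linarith

theorem pt_full {kap nu psi m Y c : ℝ} (hm0 : 0 ≤ m) (hm1 : m ≤ 1) (hf : m < 1 → 2 ≤ Y)
    (h1 : nu + psi * (1 - c ^ 2 / Y ^ 2) ≤ Y) (h2 : nu + psi ≤ 2 + kap) :
    nu + psi * (1 - m / Y ^ 2 * c ^ 2) ≤ Y + kap * (1 - m) := by
  have h3 : Y + kap * (1 - m) - (nu + psi * (1 - m / Y ^ 2 * c ^ 2)) =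
      (1 - m) * ((Y + kap) - (nu + psi)) + m * (Y - (nu + psi * (1 - c ^ 2 / Y ^ 2))) := by
    ring
  have h4 : 0 ≤ (1 - m) * ((Y + kap) - (nu + psi)) := by
    rcases hm1.lt_or_eq with h | h
    · have h5 := hf h
      exact mul_nonneg (by linarith) (by linarith)
    · rw [h]
      simp
  have h5 : 0 ≤ m * (Y - (nu + psi * (1 - c ^ 2 / Y ^ 2))) := mul_nonneg hm0 (by linarith)
  linarith

end Pool.Agent.W_1ab439_h81b

end Pt

section NumA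

/-!
NumA (S/M).  Numerical inequalities.

`ang`: `θ ≤ π/2 - cos θ` for `0 ≤ θ ≤ π/2`: `cos θ = sin (π/2 - θ) ≤ π/2 - θ`.
`num_A`: put `c = cos θ ∈ [0, .804]`, `s = sin θ ≥ 0`, `s^2 = 1 - c^2`.  By `ang`, `7/10 c π - 67/40 (7/10 c) θ ≥ 7/10 c (π - 67/40 (π/2 - c)) =
7/10 c (13/80 π + 67/40 c) ≥ .35735 c + 1.1725 c^2` (π > 3.1415).  And `s ≥ 1 - .6272 c^2` (square: `1 - c^2 - (1 - .6272 c^2)^2 =
c^2 (.2544 - .39337984 c^2) ≥ 0` as `c^2 ≤ .646416`).  So the left side is at least `2.53 + .35735 c - .41432 c^2 ≥ 2.53 ≥ 2.525`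
as `c ≤ .804`.
-/

set_option autoImplicit false

open MeasureTheory Set Real

namespace Pool.Agent.W_1ab439_h81b

theorem ang {θ : ℝ} (h1 : θ ≤ π / 2) : θ ≤ π / 2 - cos θ := by
  have h : cos θ = sin (π / 2 - θ) := (Real.sin_pi_div_two_sub θ).symm
  have h2 : sin (π / 2 - θ) ≤ π / 2 - θ := Real.sin_le (by linarith)
  linarith

theorem num_A {θ : ℝ} (h0 : 0 ≤ θ) (h1 : θ ≤ π / 2) (hc : cos θ ≤ 804 / 1000) :
    101 / 40 ≤ 7 / 10 * cos θ * π + (1299 / 500 * sin θ - 67 / 40 * (7 / 10 * cos θ) * θ) -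
      17 / 250 * sin θ := by
  have ha := ang h1
  have hc0 : 0 ≤ cos θ := Real.cos_nonneg_of_mem_Icc ⟨by linarith [Real.pi_pos], h1⟩
  have hs0 : 0 ≤ sin θ := Real.sin_nonneg_of_nonneg_of_le_pi h0 (by linarith [Real.pi_pos])
  have hsc : sin θ ^ 2 = 1 - cos θ ^ 2 := Real.sin_sq θ
  have hpi : (3.1415 : ℝ) < π := Real.pi_gt_d4
  set c := cos θ with hcdef
  set s := sin θ with hsdef
  have hc2 : c ^ 2 ≤ 646416 / 1000000 := by nlinarith
  have hs : 1 - 6272 / 10000 * c ^ 2 ≤ s := by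
    have hsq : (1 - 6272 / 10000 * c ^ 2) ^ 2 ≤ s ^ 2 := by
      rw [hsc]
      nlinarith [sq_nonneg c, mul_nonneg (sq_nonneg c) (sub_nonneg.2 hc2)]
    exact abs_le_of_sq_le_sq' hsq hs0 |>.2
  have h3 : 7 / 10 * c * (θ) ≤ 7 / 10 * c * (π / 2 - c) := by
    apply mul_le_mul_of_nonneg_left ha
    positivity
  have h4 : c * 3.1415 ≤ c * π := mul_le_mul_of_nonneg_left hpi.le hc0
  have h5 : c ^ 2 ≤ 804 / 1000 * c := by nlinarith
  nlinarith [h3, h4, h5, hs]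

end Pool.Agent.W_1ab439_h81b

end NumA

section NumB

/-!
NumB (S/M).  Numerical inequalities for Lemma B.

`num_B1`: `c = cos θ ∈ [.254, .765]`, `s = sin θ`.  `t = (2 + .4725 c - q0)/(q1 - q0)`, `q0 = .8 a = 2.0784`, `q1 = 12 a/13`, `q1 - q0 = 8a/65`.
`(1-t) .2246 + t .0528 = .2246 - .1718 t ≤ .26673 - .25386 c`.  `7/10 c π - 67/40 (7/10 c) θ ≥ .35735 c + 1.1725 c^2` (as in num_A).
`s ≥ 1.0072 - .6207 c^2` on this range (square: `1 - w - (1.0072 - .6207 w)^2 = -.01445184 + .25033808 w - .38526849 w^2 ≥ 0` for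
`w = c^2 ∈ [.064516, .585225]`).  Sum: `≥ 2.2814 + .6112 c - .3979 c^2 ≥ 2.41 ≥ 2.402` (concave in `c`: check the end points, or write it as
`(c - .254) (.6112 - .3979 (c + .254)) + ...`).
`num_B2`: if `cos θ = .254`, `0 ≤ θ ≤ π/2`: `θ ≤ π/2 - .254 ≤ 1.3168`, `sin θ = √(1 - .254^2) ≥ .9672`:
`.127 π + 2.598 * .9672 - .2054 * 1.3168 - .2246 ≥ .39897 + 2.51278 - .27048 - .2246 = 2.41667`.
-/

set_option autoImplicit false

open MeasureTheory Set Real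

namespace Pool.Agent.W_1ab439_h81b

theorem num_B1 {θ t : ℝ} (h0 : 0 ≤ θ) (h1 : θ ≤ π / 2) (hc : 254 / 1000 ≤ cos θ)
    (hc1 : cos θ ≤ 765 / 1000)
    (ht : t = (2 + 27 / 40 * (7 / 10 * cos θ) - 1299 / 500 * (4 / 5)) / (1299 / 500 * (8 / 65))) :
    1201 / 500 ≤ 7 / 10 * cos θ * π + (1299 / 500 * sin θ - 67 / 40 * (7 / 10 * cos θ) * θ -
      ((1 - t) * (2246 / 10000) + t * (528 / 10000))) - 17 / 250 * sin θ := by
  have hs0 : 0 ≤ sin θ := sin_nonneg_of_nonneg_of_le_pi h0 (by linarith [pi_pos])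
  have hsc : sin θ ^ 2 + cos θ ^ 2 = 1 := sin_sq_add_cos_sq θ
  have hang := ang h1
  obtain ⟨c, hcd⟩ : ∃ c, c = cos θ := ⟨_, rfl⟩
  obtain ⟨s, hsd⟩ : ∃ s, s = sin θ := ⟨_, rfl⟩
  rw [← hcd] at hc hc1 ht hsc hang ⊢
  rw [← hsd] at hs0 hsc ⊢
  have hpi := pi_gt_d4
  have hw1 : (64516 : ℝ) / 1000000 ≤ c ^ 2 := by nlinarith
  have hw2 : c ^ 2 ≤ 585225 / 1000000 := by nlinarith
  have hk : (10072 / 10000 - 6207 / 10000 * c ^ 2) ^ 2 ≤ s ^ 2 := by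
    have h2 := mul_nonneg (sub_nonneg.2 hw1) (sub_nonneg.2 hw2)
    have h3 : s ^ 2 = 1 - c ^ 2 := by linarith
    rw [h3]
    nlinarith
  have hs : 10072 / 10000 - 6207 / 10000 * c ^ 2 ≤ s := by
    by_contra hcon
    push Not at hcon
    have h2 : 0 < 10072 / 10000 - 6207 / 10000 * c ^ 2 - s := by linarith
    have h3 : 0 < 10072 / 10000 - 6207 / 10000 * c ^ 2 + s := by linarith
    nlinarith [mul_pos h2 h3]
  have htc : t = (4725 / 10000 * c - 784 / 10000) * (32500 / 10392) := by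
    rw [ht]
    ring
  have h5 : 7 / 10 * c * (π - 67 / 40 * (π / 2 - c)) ≤
      7 / 10 * c * π - 67 / 40 * (7 / 10 * c) * θ := by
    have h6 : 0 ≤ c * (π / 2 - c - θ) := mul_nonneg (by linarith) (by linarith)
    nlinarith
  have h7 : 3573 / 10000 * c + 11725 / 10000 * c ^ 2 ≤
      7 / 10 * c * (π - 67 / 40 * (π / 2 - c)) := by
    have h8 : 0 ≤ c * (π - 31415 / 10000) := mul_nonneg (by linarith) (by linarith)
    nlinarith
  have h9 : 0 ≤ (c - 254 / 1000) * (765 / 1000 - c) :=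
    mul_nonneg (by linarith) (by linarith)
  rw [htc]
  nlinarith

/-- the interpolation parameter is in `[0,1]` -/
theorem num_t {c t : ℝ} (hc : 254 / 1000 ≤ c) (hc1 : c ≤ 765 / 1000)
    (ht : t = (2 + 27 / 40 * (7 / 10 * c) - 1299 / 500 * (4 / 5)) / (1299 / 500 * (8 / 65))) :
    0 ≤ t ∧ t ≤ 1 := by
  rw [ht]
  constructor
  · refine div_nonneg ?_ (by norm_num)
    linarith
  · rw [div_le_one (by norm_num)]
    linarith

theorem num_B2 {θ : ℝ} (h0 : 0 ≤ θ) (h1 : θ ≤ π / 2) (hc : cos θ = 254 / 1000) :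
    1201 / 500 ≤ 127 / 1000 * π + (1299 / 500 * sin θ - 2054 / 10000 * θ - 2246 / 10000) := by
  have hs0 : 0 ≤ sin θ := sin_nonneg_of_nonneg_of_le_pi h0 (by linarith [pi_pos])
  have hsc : sin θ ^ 2 + cos θ ^ 2 = 1 := sin_sq_add_cos_sq θ
  have hang := ang h1
  rw [hc] at hsc hang
  have hpi := pi_gt_d4
  have hpi1 := pi_lt_d4
  have hs : 9672 / 10000 ≤ sin θ := by
    by_contra hcon
    push Not at hcon
    nlinarith
  linarith

end Pool.Agent.W_1ab439_h81b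

end NumB
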