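import Pool.Agent.W_1ab439_h81b.Defs
import Pool.Agent.W_1ab439_h81b.Num

section Gi

/-!
Gi (M).  Integration along a run.

`run_int`.  `r ↦ Ψ (φ r)` has the derivative `ψ (φ r) * φ' r` on `[s,t]` (continuous: `φ` is continuous on `[0,L]`, `m`, `Y` continuous, `Y > 0`), so
`∫ s..t, (ν + ψ(φ) φ') = ν (t - s) + Ψ(φ t) - Ψ(φ s)` (`intervalIntegral.integral_eq_sub_of_hasDerivAt`), and the integrand is at most
`Y + κ (1 - m)` on `[s,t]` (`intervalIntegral.integral_mono_on`).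

`two_pot`.  `θ = max |φ| = |φ t0|`.  If `φ t0 = θ`: run_int with `ψ` on `[0,t0]` and with `B cos`, `B sin` on `[t0,L]`:
`∫ ≥ ν t0 + Ψ θ + ν (L - t0) + B (sin (φ L) - sin θ)`, `sin (φ L) ≥ 0` because `0 ≤ φ L ≤ π/2`.  (`Ψ 0 = 0` by oddness.)
If `φ t0 = -θ`: `B cos` on `[0,t0]` gives `ν t0 - B sin θ`, `ψ` on `[t0,L]` gives `ν (L - t0) + Ψ (φ L) + Ψ θ`, and `Ψ (φ L) ≥ 0`.
-/

set_option autoImplicit false

open MeasureTheory Set Real

namespace Pool.Agent.W_1ab439_h81b

variable {L : ℝ} {φ m Y : ℝ → ℝ}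

theorem run_int (h : Run L φ m Y) {κ ν : ℝ} {ψ Ψ : ℝ → ℝ} (hψ : Continuous ψ)
    (hΨ : ∀ x, HasDerivAt Ψ (ψ x) x) {s t : ℝ} (hs : 0 ≤ s) (hst : s ≤ t) (ht : t ≤ L)
    (hpt : ∀ r ∈ Icc s t, ν + ψ (φ r) * (1 - m r / Y r ^ 2 * cos (φ r) ^ 2) ≤
      Y r + κ * (1 - m r)) :
    ν * (t - s) + (Ψ (φ t) - Ψ (φ s)) ≤ ∫ r in s..t, (Y r + κ * (1 - m r)) := by
  have hsub : Icc s t ⊆ Icc 0 L := Icc_subset_Icc hs ht
  have hφc : ContinuousOn φ (Icc s t) := fun r hr =>
    (h.d r (hsub hr)).continuousAt.continuousWithinAt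
  have hderiv : ∀ r ∈ uIcc s t, HasDerivAt (fun r => ν * r + Ψ (φ r))
      (ν + ψ (φ r) * (1 - m r / Y r ^ 2 * cos (φ r) ^ 2)) r := by
    intro r hr
    rw [uIcc_of_le hst] at hr
    have h1 : HasDerivAt (fun r => ν * r) ν r := by
      simpa using (hasDerivAt_id r).const_mul ν
    have h2 : HasDerivAt (fun r => Ψ (φ r))
        (ψ (φ r) * (1 - m r / Y r ^ 2 * cos (φ r) ^ 2)) r :=
      (hΨ (φ r)).comp r (h.d r (hsub hr))
    exact h1.add h2
  have hcont : ContinuousOn (fun r => ν + ψ (φ r) * (1 - m r / Y r ^ 2 * cos (φ r) ^ 2))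
      (uIcc s t) := by
    rw [uIcc_of_le hst]
    have hm : ContinuousOn m (Icc s t) := h.mc.continuousOn
    have hY : ContinuousOn Y (Icc s t) := h.Yc.continuousOn
    refine continuousOn_const.add ((hψ.comp_continuousOn hφc).mul ?_)
    refine continuousOn_const.sub ((hm.div (hY.pow 2) ?_).mul
      ((continuous_cos.comp_continuousOn hφc).pow 2))
    intro r _
    exact pow_ne_zero 2 (h.Y0 r).ne'
  have h3 := intervalIntegral.integral_eq_sub_of_hasDerivAt hderiv hcont.intervalIntegrable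
  have h4 : Continuous (fun r => Y r + κ * (1 - m r)) := by
    have := h.mc
    have := h.Yc
    fun_prop
  have h5 := intervalIntegral.integral_mono_on (μ := volume) hst hcont.intervalIntegrable
    (h4.intervalIntegrable s t) hpt
  rw [h3] at h5
  have h6 : ν * t + Ψ (φ t) - (ν * s + Ψ (φ s)) = ν * (t - s) + (Ψ (φ t) - Ψ (φ s)) := by ring
  rw [← h6]
  exact h5

theorem two_pot (h : Run L φ m Y) (hend : 0 ≤ φ L) {κ ν θ B : ℝ} {ψ Ψ : ℝ → ℝ}
    (hψ : Continuous ψ) (hΨ : ∀ x, HasDerivAt Ψ (ψ x) x) (hodd : ∀ x, Ψ (-x) = -Ψ x)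
    (hB : 0 ≤ B) (hpos : ∀ x ∈ Icc 0 θ, 0 ≤ Ψ x) {t0 : ℝ} (ht0 : t0 ∈ Icc 0 L)
    (hmax : ∀ t ∈ Icc 0 L, |φ t| ≤ θ) (hat : |φ t0| = θ)
    (hup : ∀ r ∈ Icc 0 L, ν + ψ (φ r) * (1 - m r / Y r ^ 2 * cos (φ r) ^ 2) ≤
      Y r + κ * (1 - m r))
    (hdn : ∀ r ∈ Icc 0 L, ν + B * cos (φ r) * (1 - m r / Y r ^ 2 * cos (φ r) ^ 2) ≤
      Y r + κ * (1 - m r)) :
    ν * L + Ψ θ - B * sin θ ≤ ∫ r in (0 : ℝ)..L, (Y r + κ * (1 - m r)) := by
  have hθ0 : 0 ≤ θ := by
    rw [← hat]
    exact abs_nonneg _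
  have hL : L ∈ Icc 0 L := ⟨h.L0, le_refl L⟩
  have hΨ0 : Ψ 0 = 0 := by
    have h1 := hodd 0
    rw [neg_zero] at h1
    linarith
  have hBc : Continuous (fun x => B * cos x) := continuous_const.mul continuous_cos
  have hBs : ∀ x, HasDerivAt (fun x => B * sin x) (B * cos x) x := fun x =>
    (hasDerivAt_sin x).const_mul B
  have hint : Continuous (fun r => Y r + κ * (1 - m r)) := by
    have := h.mc
    have := h.Yc
    fun_prop
  have hsum := intervalIntegral.integral_add_adjacent_intervals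
    (hint.intervalIntegrable (μ := volume) 0 t0) (hint.intervalIntegrable (μ := volume) t0 L)
  rw [← hsum]
  have hs1 : Icc 0 t0 ⊆ Icc 0 L := Icc_subset_Icc le_rfl ht0.2
  have hs2 : Icc t0 L ⊆ Icc 0 L := Icc_subset_Icc ht0.1 le_rfl
  have hφL : φ L ≤ θ := (le_abs_self _).trans (hmax L hL)
  rcases abs_choice (φ t0) with h1 | h1
  · have hφ : φ t0 = θ := by rw [← h1]; exact hat
    have h2 := run_int h hψ hΨ le_rfl ht0.1 ht0.2 fun r hr => hup r (hs1 hr)
    have h3 := run_int h hBc hBs ht0.1 ht0.2 le_rfl fun r hr => hdn r (hs2 hr)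
    rw [h.z, hφ, hΨ0] at h2
    simp only [hφ] at h3
    have h4 : 0 ≤ sin (φ L) :=
      sin_nonneg_of_nonneg_of_le_pi hend (by
        have h5 := h.bd L hL
        have h6 := le_abs_self (φ L)
        have h7 := pi_pos
        linarith)
    have h5 := mul_nonneg hB h4
    linarith
  · have hφ : φ t0 = -θ := by
      rw [h1] at hat
      linarith
    have h2 := run_int h hBc hBs le_rfl ht0.1 ht0.2 fun r hr => hdn r (hs1 hr)
    have h3 := run_int h hψ hΨ ht0.1 ht0.2 le_rfl fun r hr => hup r (hs2 hr)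
    simp only [h.z, hφ, sin_zero, sin_neg] at h2
    rw [hφ, hodd] at h3
    have h4 := hpos (φ L) ⟨hend, hφL⟩
    linarith

end Pool.Agent.W_1ab439_h81b

end Gi

section LemA

/-!
LemA (M).  Lemma A (row 523, section 2), `κ = 3/5`.

`lemA_B`: run_int on `[0,T]` with `ν = 0`, `ψ = a cos`, `Ψ = a sin`, `a = 1299/500`; pointwise: pt_up with `nu = 0` (`n = 0`, `b = 0`) and pt_full
(`a cos ≤ 2.6`); `cos (φ r) ≥ 0` as `|φ| ≤ π/2`.

`lemA_N`: let `θ = |φ t0|` be the maximum of `|φ|` on `[0,L]` (compactness), `c = cos θ ≥ 0`.  If `c ≥ 804/1000`: run_int on `[0,L]` with `ν = c`,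
`ψ = cos/2`, `Ψ = sin/2`: pt_one and `c ≤ cos (φ r)` (cos is decreasing on `[0,π/2]`, even), so `∫ ≥ c L + sin (φ L)/2 ≥ .804 π ≥ 2.525`.
If `c < 804/1000`: two_pot with `ν = 7/10 c`, `ψ x = a cos x - b ν`, `Ψ x = a sin x - b ν x`, `b = 67/40`, `B = 17/250`; pointwise pt_up, pt_dn with `n = 7/10`
(`a - b n = 1.4255`, `27 * 1.4255 ≥ 4 * 2.1255^3`, `27 * .068 ≥ 4 * .768^3`; `ν = n c ≤ n cos (φ r)`) and pt_full (`ν + ψ ≤ a`, `ν + B cos ≤ 2`).
`Ψ x ≥ 0` on `[0,θ]`: `sin x ≥ x cos x ≥ x c` (`Real.mul_cos_le_sin`-type; or `Ψ` is monotone since `ψ x ≥ c (a - .7 b) ≥ 0` there).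
Then num_A and `L ≥ π`.
-/

set_option autoImplicit false

open MeasureTheory Set Real

namespace Pool.Agent.W_1ab439_h81b

variable {L : ℝ} {φ m Y : ℝ → ℝ}

/-- on a run the maximum of `|φ|` is attained, and `cos` of it is the minimum of `cos φ` -/
theorem run_max (h : Run L φ m Y) : ∃ t0 ∈ Icc 0 L, ∃ θ : ℝ, |φ t0| = θ ∧ 0 ≤ θ ∧ θ ≤ π / 2 ∧
    (∀ t ∈ Icc 0 L, |φ t| ≤ θ) ∧ (∀ t ∈ Icc 0 L, cos θ ≤ cos (φ t)) := by
  have hcont : ContinuousOn (fun t => |φ t|) (Icc 0 L) := fun t ht =>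
    ((h.d t ht).continuousAt.continuousWithinAt).abs
  obtain ⟨t0, ht0, hmax⟩ := isCompact_Icc.exists_isMaxOn ⟨0, left_mem_Icc.2 h.L0⟩ hcont
  have hm : ∀ t ∈ Icc 0 L, |φ t| ≤ |φ t0| := fun t ht => hmax ht
  refine ⟨t0, ht0, |φ t0|, rfl, abs_nonneg _, h.bd t0 ht0, hm, fun t ht => ?_⟩
  rw [← cos_abs (φ t)]
  exact cos_le_cos_of_nonneg_of_le_pi (abs_nonneg _) (by linarith [h.bd t0 ht0, pi_pos]) (hm t ht)

theorem LemA_cos (h : Run L φ m Y) {t : ℝ} (ht : t ∈ Icc 0 L) : 0 ≤ cos (φ t) :=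
  cos_nonneg_of_mem_Icc (abs_le.1 (h.bd t ht))

theorem lemA_B {T : ℝ} (h : Run T φ m Y) (hT : φ T = π / 2) :
    1299 / 500 ≤ ∫ r in (0 : ℝ)..T, (Y r + 3 / 5 * (1 - m r)) := by
  have h1 := run_int h (κ := 3 / 5) (ν := 0) (ψ := fun x => 1299 / 500 * cos x)
    (Ψ := fun x => 1299 / 500 * sin x) (by fun_prop)
    (fun x => (hasDerivAt_sin x).const_mul _) (le_refl 0) h.L0 (le_refl T) ?_
  · have h2 : sin (φ T) = 1 := by rw [hT, sin_pi_div_two]
    have h3 : sin (φ 0) = 0 := by rw [h.z, sin_zero]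
    simp only [h2, h3] at h1
    linarith
  · intro r hr
    have hc := LemA_cos h hr
    refine pt_full (h.m0 r) (h.m1 r) (h.full r) ?_ ?_
    · have h4 := pt_up (a := 1299 / 500) (b := 0) (n := 0) (c := cos (φ r)) (Y := Y r) (nu := 0)
        (by norm_num) (by norm_num) (le_refl 0) (by norm_num) (by norm_num) (h.Y0 r) hc (le_refl 0)
        (by simp)
      simpa using h4
    · have := cos_le_one (φ r)
      show (0 : ℝ) + 1299 / 500 * cos (φ r) ≤ 2 + 3 / 5
      linarith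

/-- the case of a small maximum, for every `κ ≥ 0` -/
theorem run_small (h : Run L φ m Y) (hL : π ≤ L) (hend : 0 ≤ φ L) {κ c : ℝ} (hκ : 0 ≤ κ)
    (hc : ∀ t ∈ Icc 0 L, c ≤ cos (φ t)) (hc0 : 0 ≤ c) :
    c * π ≤ ∫ r in (0 : ℝ)..L, (Y r + κ * (1 - m r)) := by
  have h1 := run_int h (κ := κ) (ν := c) (ψ := fun x => 1 / 2 * cos x)
    (Ψ := fun x => 1 / 2 * sin x) (by fun_prop)
    (fun x => (hasDerivAt_sin x).const_mul _) (le_refl 0) h.L0 (le_refl L) ?_
  · have hL' : L ∈ Icc 0 L := right_mem_Icc.2 h.L0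
    have h2 : 0 ≤ sin (φ L) := sin_nonneg_of_nonneg_of_le_pi hend
      (by linarith [(abs_le.1 (h.bd L hL')).2, pi_pos])
    have h3 : sin (φ 0) = 0 := by rw [h.z, sin_zero]
    simp only [h3] at h1
    have h4 : c * π ≤ c * L := mul_le_mul_of_nonneg_left hL hc0
    linarith
  · intro r hr
    have hc' := LemA_cos h hr
    have h5 := hc r hr
    have h6 := cos_le_one (φ r)
    refine pt_full (h.m0 r) (h.m1 r) (h.full r) ?_ ?_
    · have h4 := pt_one (c := cos (φ r)) (h.Y0 r) hc'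
      have h7 : 1 / 2 * cos (φ r) = cos (φ r) / 2 := by ring
      show c + 1 / 2 * cos (φ r) * (1 - cos (φ r) ^ 2 / Y r ^ 2) ≤ Y r
      rw [h7]
      linarith
    · show c + 1 / 2 * cos (φ r) ≤ 2 + κ
      linarith

theorem lemA_N (h : Run L φ m Y) (hL : π ≤ L) (hend : 0 ≤ φ L) :
    101 / 40 ≤ ∫ r in (0 : ℝ)..L, (Y r + 3 / 5 * (1 - m r)) := by
  obtain ⟨t0, ht0, θ, hat, hθ0, hθ1, hmax, hmin⟩ := run_max h
  have hc0 : 0 ≤ cos θ := cos_nonneg_of_mem_Icc ⟨by linarith [pi_pos], hθ1⟩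
  have hpi := pi_gt_d4
  rcases le_or_gt (804 / 1000) (cos θ) with hc | hc
  · have h1 := run_small h hL hend (κ := 3 / 5) (by norm_num) hmin hc0
    have h2 : 804 / 1000 * π ≤ cos θ * π := mul_le_mul_of_nonneg_right hc pi_pos.le
    linarith
  · set ν := 7 / 10 * cos θ with hν
    have hν0 : 0 ≤ ν := by positivity
    have h1 := two_pot h hend (κ := 3 / 5) (ν := ν) (θ := θ) (B := 17 / 250)
      (ψ := fun x => 1299 / 500 * cos x - 67 / 40 * ν)
      (Ψ := fun x => 1299 / 500 * sin x - 67 / 40 * ν * x) (by fun_prop)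
      (fun x => by
        have h2 := ((hasDerivAt_sin x).const_mul (1299 / 500)).sub
          ((hasDerivAt_id x).const_mul (67 / 40 * ν))
        rw [mul_one] at h2
        exact h2)
      (fun x => by rw [sin_neg]; ring) (by norm_num) ?_ ht0 hmax hat ?_ ?_
    · have h2 := num_A hθ0 hθ1 hc.le
      have h3 : ν * π ≤ ν * L := mul_le_mul_of_nonneg_left hL hν0
      have h4 : 67 / 40 * ν * θ = 67 / 40 * (7 / 10 * cos θ) * θ := by rw [hν]
      have h5 : ν * π = 7 / 10 * cos θ * π := by rw [hν]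
      linarith
    · intro x hx
      have hx2 : x ≤ π / 2 := hx.2.trans hθ1
      have hcx : cos θ ≤ cos x := cos_le_cos_of_nonneg_of_le_pi hx.1 (by linarith [pi_pos]) hx.2
      have hsx : 0 ≤ sin x := sin_nonneg_of_nonneg_of_le_pi hx.1 (by linarith [pi_pos])
      have hxc : x * cos x ≤ sin x := by
        rcases eq_or_lt_of_le hx2 with h2 | h2
        · rw [h2, cos_pi_div_two, sin_pi_div_two]
          norm_num
        · have hcp : 0 < cos x := cos_pos_of_mem_Ioo ⟨by linarith [hx.1, pi_pos], h2⟩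
          have h3 := le_tan hx.1 h2
          rw [tan_eq_sin_div_cos, le_div_iff₀ hcp] at h3
          exact h3
      have h4 : cos θ * x ≤ cos x * x := mul_le_mul_of_nonneg_right hcx hx.1
      show 0 ≤ 1299 / 500 * sin x - 67 / 40 * ν * x
      have h5 : 67 / 40 * ν * x = 67 / 40 * (7 / 10) * (cos θ * x) := by rw [hν]; ring
      rw [h5]
      linarith [mul_comm x (cos x)]
    · intro r hr
      have hcr := LemA_cos h hr
      have h6 := cos_le_one (φ r)
      have h7 := hmin r hr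
      refine pt_full (h.m0 r) (h.m1 r) (h.full r) ?_ ?_
      · exact pt_up (a := 1299 / 500) (b := 67 / 40) (n := 7 / 10) (by norm_num) (by norm_num)
          (by norm_num) (by norm_num) (by norm_num) (h.Y0 r) hcr hν0 (by rw [hν]; linarith)
      · show ν + (1299 / 500 * cos (φ r) - 67 / 40 * ν) ≤ 2 + 3 / 5
        linarith
    · intro r hr
      have hcr := LemA_cos h hr
      have h6 := cos_le_one (φ r)
      have h7 := hmin r hr
      have hcl : cos θ ≤ 1 := cos_le_one θ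
      refine pt_full (h.m0 r) (h.m1 r) (h.full r) ?_ ?_
      · exact pt_dn (B := 17 / 250) (n := 7 / 10) (by norm_num) (by norm_num)
          (by norm_num) (h.Y0 r) hcr hν0 (by rw [hν]; linarith)
      · show ν + 17 / 250 * cos (φ r) ≤ 2 + 3 / 5
        rw [hν]
        linarith

end Pool.Agent.W_1ab439_h81b

end LemA

section Cap

/-!
Cap (M).  The cap functions (row 523, Lemma B).

`capP q` is continuous, even, nonnegative; `capI q` is its primitive (`intervalIntegral.integral_hasDerivAt_right`), odd, nonnegative on `[0,∞)`.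
`capI_le`: let `0 ≤ w ≤ 1` and `p = 2 arctan w`; `cos p = (1 - w^2)/(1 + w^2)`, `sin p = 2 w/(1 + w^2)` (double angle), `0 ≤ p ≤ π/2`.  Let
`q = a cos p`.  For `x ∈ [0, π/2]`: `capP q s = a cos s - q` for `0 ≤ s ≤ p` and `0` for `p ≤ s ≤ π` (cos is decreasing on `[0,π]`), so
`capI q x ≤ ∫ 0..p capP q = a sin p - q p` (if `x ≤ p` the rest of the integral is nonnegative, otherwise it is `0`).
`arctan w ≥ w - w^3/3` for `w ≥ 0` (derivatives: `1/(1+t^2) ≥ 1 - t^2`; `monotoneOn_of_deriv_nonneg`).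
`capI0`: `w = 1/3`: `q = a 4/5`, `sin p = 3/5`, `p ≥ 2 (1/3 - 1/81) = 52/81`: `a (3/5 - 4/5 * 52/81) = .22452 ≤ .2246`.
`capI1`: `w = 1/5`: `q = a 12/13`, `sin p = 5/13`, `p ≥ 2 (1/5 - 1/375) = 148/375`: `a (5/13 - 12/13 * 148/375) = .05276 ≤ .0528`.
-/

set_option autoImplicit false

open MeasureTheory Set Real

namespace Pool.Agent.W_1ab439_h81b

theorem capP_cont (q : ℝ) : Continuous (capP q) := by
  unfold capP
  fun_prop

theorem capI_deriv (q x : ℝ) : HasDerivAt (capI q) (capP q x) x := by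
  have h := (capP_cont q)
  exact intervalIntegral.integral_hasDerivAt_right (h.intervalIntegrable _ _)
    (h.stronglyMeasurableAtFilter _ _) h.continuousAt

private theorem capP_even (q x : ℝ) : capP q (-x) = capP q x := by
  unfold capP
  rw [cos_neg]

private theorem capP_nonneg (q x : ℝ) : 0 ≤ capP q x := le_max_right _ _

theorem capI_odd (q x : ℝ) : capI q (-x) = -capI q x := by
  unfold capI
  have h := intervalIntegral.integral_comp_neg (a := 0) (b := x) (f := capP q)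
  simp only [capP_even, neg_zero] at h
  rw [h, intervalIntegral.integral_symm]

theorem arctan_ge {w : ℝ} (hw : 0 ≤ w) : w - w ^ 3 / 3 ≤ arctan w := by
  have hd : ∀ x : ℝ, HasDerivAt (fun t => arctan t - (t - t ^ 3 / 3))
      (1 / (1 + x ^ 2) - (1 - x ^ 2)) x := by
    intro x
    have h1 := Real.hasDerivAt_arctan x
    have h2 : HasDerivAt (fun t : ℝ => t - t ^ 3 / 3) (1 - x ^ 2) x := by
      have h3 := (hasDerivAt_pow 3 x).div_const 3
      have h4 := (hasDerivAt_id' x).sub h3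
      have e : (1 : ℝ) - ((3 : ℕ) : ℝ) * x ^ (3 - 1) / 3 = 1 - x ^ 2 := by
        push_cast
        norm_num
      rw [e] at h4
      exact h4
    exact h1.sub h2
  have hm : MonotoneOn (fun t => arctan t - (t - t ^ 3 / 3)) (Ici 0) := by
    apply monotoneOn_of_deriv_nonneg (convex_Ici 0)
    · exact fun x _ => (hd x).continuousAt.continuousWithinAt
    · exact fun x _ => (hd x).differentiableAt.differentiableWithinAt
    · intro x _
      rw [(hd x).deriv]
      have h1 : 0 < 1 + x ^ 2 := by positivity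
      rw [sub_nonneg, le_div_iff₀ h1]
      nlinarith [sq_nonneg (x ^ 2)]
  have h := hm (by simp : (0 : ℝ) ∈ Ici 0) (mem_Ici.2 hw) hw
  simp at h
  linarith

theorem capI_le {w : ℝ} (hw : 0 ≤ w) (hw1 : w ≤ 1) {x : ℝ} (hx : 0 ≤ x) (hx1 : x ≤ π / 2) :
    capI (1299 / 500 * ((1 - w ^ 2) / (1 + w ^ 2))) x ≤
      1299 / 500 * (2 * w / (1 + w ^ 2)) -
        1299 / 500 * ((1 - w ^ 2) / (1 + w ^ 2)) * (2 * (w - w ^ 3 / 3)) := by
  have h1 : 0 < 1 + w ^ 2 := by positivity
  set p := 2 * arctan w with hp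
  have hc2 := Real.cos_sq_arctan w
  have hcos : cos p = (1 - w ^ 2) / (1 + w ^ 2) := by
    rw [hp, cos_two_mul, hc2]
    field_simp
    ring
  have hsin : sin p = 2 * w / (1 + w ^ 2) := by
    have ht : sin (arctan w) = w * cos (arctan w) := by
      have h2 := Real.tan_arctan w
      rw [tan_eq_sin_div_cos] at h2
      have h3 : cos (arctan w) ≠ 0 := (Real.cos_arctan_pos w).ne'
      rw [div_eq_iff h3] at h2
      exact h2
    rw [hp, sin_two_mul, ht]
    have : 2 * (w * cos (arctan w)) * cos (arctan w) = 2 * w * cos (arctan w) ^ 2 := by ring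
    rw [this, hc2]
    ring
  have hp0 : 0 ≤ p := by
    have : 0 ≤ arctan w := by
      rw [← Real.arctan_zero]
      exact Real.arctan_strictMono.monotone hw
    linarith
  have hp1 : p ≤ π / 2 := by
    have : arctan w ≤ π / 4 := by
      rw [← Real.arctan_one]
      exact Real.arctan_strictMono.monotone hw1
    linarith
  set q := 1299 / 500 * ((1 - w ^ 2) / (1 + w ^ 2)) with hq
  have hq0 : 0 ≤ q := by
    have : 0 ≤ (1 - w ^ 2) / (1 + w ^ 2) := div_nonneg (by nlinarith) h1.le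
    positivity
  have hqp : q = 1299 / 500 * cos p := by rw [hq, hcos]
  have hii : ∀ a b : ℝ, IntervalIntegrable (capP q) volume a b :=
    fun a b => (capP_cont q).intervalIntegrable a b
  have hpi := Real.pi_pos
  have hA : capI q x ≤ capI q p := by
    unfold capI
    rcases le_total x p with h | h
    · rw [← intervalIntegral.integral_add_adjacent_intervals (hii 0 x) (hii x p)]
      have : 0 ≤ ∫ s in x..p, capP q s :=
        intervalIntegral.integral_nonneg h (fun s _ => capP_nonneg q s)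
      linarith
    · rw [← intervalIntegral.integral_add_adjacent_intervals (hii 0 p) (hii p x)]
      have : ∫ s in p..x, capP q s = 0 := by
        rw [intervalIntegral.integral_congr (g := fun _ => (0 : ℝ))]
        · simp
        · intro s hs
          rw [uIcc_of_le h] at hs
          have hcs : cos s ≤ cos p :=
            cos_le_cos_of_nonneg_of_le_pi hp0 (by linarith [hs.2]) hs.1
          show max _ _ = (0 : ℝ)
          apply max_eq_right
          rw [hqp]
          linarith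
      linarith
  have hB : capI q p = 1299 / 500 * sin p - q * p := by
    unfold capI
    rw [intervalIntegral.integral_congr (g := fun s => 1299 / 500 * cos s - q)]
    · rw [intervalIntegral.integral_sub]
      · rw [intervalIntegral.integral_const_mul, integral_cos]
        simp
        ring
      · exact (continuous_const.mul continuous_cos).intervalIntegrable _ _
      · exact continuous_const.intervalIntegrable _ _
    · intro s hs
      rw [uIcc_of_le hp0] at hs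
      have hcs : cos p ≤ cos s :=
        cos_le_cos_of_nonneg_of_le_pi hs.1 (by linarith) hs.2
      show max _ _ = _
      apply max_eq_left
      rw [hqp]
      linarith
  have hC : q * (2 * (w - w ^ 3 / 3)) ≤ q * p := by
    apply mul_le_mul_of_nonneg_left _ hq0
    have := arctan_ge hw
    linarith
  rw [← hsin]
  linarith

theorem capI0 {x : ℝ} (hx : 0 ≤ x) (hx1 : x ≤ π / 2) :
    capI (1299 / 500 * (4 / 5)) x ≤ 2246 / 10000 := by
  have h := capI_le (w := 1 / 3) (by norm_num) (by norm_num) hx hx1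
  have e : (1 - (1 / 3 : ℝ) ^ 2) / (1 + (1 / 3) ^ 2) = 4 / 5 := by norm_num
  rw [e] at h
  refine h.trans ?_
  norm_num

theorem capI1 {x : ℝ} (hx : 0 ≤ x) (hx1 : x ≤ π / 2) :
    capI (1299 / 500 * (12 / 13)) x ≤ 528 / 10000 := by
  have h := capI_le (w := 1 / 5) (by norm_num) (by norm_num) hx hx1
  have e : (1 - (1 / 5 : ℝ) ^ 2) / (1 + (1 / 5) ^ 2) = 12 / 13 := by norm_num
  rw [e] at h
  refine h.trans ?_
  norm_num

end Pool.Agent.W_1ab439_h81b

end Cap

section LemB1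

/-!
LemB1 (M).  Lemma B, the case `cos φ ≥ .254` (row 523).

Take `θ` from run_max, `c = cos θ ≥ .254` (it is a value of `cos φ`: `cos θ = cos |φ t0| = cos (φ t0)`).
If `c ≥ .765`: run_small with `κ = 0`: `∫ ≥ .765 π ≥ 2.402`.
Otherwise two_pot with `κ = 0`, `ν = 7/10 c`, `t` as in num_t, `ψ x = a cos x - b ν - (1-t) capP q0 x - t capP q1 x` (`a = 1299/500`, `b = 67/40`,
`q0 = a 4/5`, `q1 = a 12/13`), `Ψ x = a sin x - b ν x - (1-t) capI q0 x - t capI q1 x`, `B = 17/250`.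
Pointwise at `u = φ r`, `C = cos u ≥ c`: `B C ≤ ψ u ≤ a C - b ν`: the upper bound since capP ≥ 0; the lower bound since
`ψ u = (1-t) min (a C - bν, q0 - bν) + t min (a C - bν, q1 - bν)`, `a C - bν ≥ (a - .7 b) C ≥ B C` (`ν = .7 c ≤ .7 C`), `q_i - bν ≥ 2.0784 - 1.675*.7*.765 ≥ 1 ≥ B C`.
So `ν + ψ u (1 - C^2/Y^2) ≤ Y` by pt_mid, pt_up, pt_dn (`n = 7/10`).  And `ν + ψ u ≤ 2`: `(1-t) capP q0 u + t capP q1 u ≥ a C - ((1-t) q0 + t q1) = a C - (2 + .675 ν)`,
so `ψ u ≤ 2 + .675 ν - b ν = 2 - ν`.  pt_full.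
`Ψ ≥ 0` on `[0,θ]`: `ψ ≥ 0` there (same lower bound), `Ψ 0 = 0`, monotone.
`Ψ θ ≥ a sin θ - b ν θ - ((1-t) .2246 + t .0528)` (capI0, capI1), num_B1, `ν L ≥ ν π`.
-/

set_option autoImplicit false

open MeasureTheory Set Real

namespace Pool.Agent.W_1ab439_h81b

variable {L : ℝ} {φ m Y : ℝ → ℝ}

private theorem LemB1_cap_lo {C q : ℝ} {x : ℝ} (hx : C = cos x) {w : ℝ}
    (h1 : w ≤ 1299 / 500 * C) (h2 : w ≤ q) : w + capP q x ≤ 1299 / 500 * C := by
  unfold capP
  rw [← hx]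
  rcases max_cases (1299 / 500 * C - q) 0 with ⟨h3, _⟩ | ⟨h3, _⟩
  · rw [h3]
    linarith
  · rw [h3]
    linarith

private theorem LemB1_cap_nonneg (q x : ℝ) : 0 ≤ capP q x := le_max_right _ _

private theorem LemB1_cap_ge (q x : ℝ) : 1299 / 500 * cos x - q ≤ capP q x := le_max_left _ _

/-- two sided bounds of the potential -/
private theorem LemB1_psi {c t x : ℝ} (hc : 254 / 1000 ≤ c) (hc1 : c ≤ 765 / 1000)
    (hcx : c ≤ cos x)
    (ht : t = (2 + 27 / 40 * (7 / 10 * c) - 1299 / 500 * (4 / 5)) / (1299 / 500 * (8 / 65))) :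
    17 / 250 * cos x ≤ 1299 / 500 * cos x - 67 / 40 * (7 / 10 * c) -
        (1 - t) * capP (1299 / 500 * (4 / 5)) x - t * capP (1299 / 500 * (12 / 13)) x ∧
    1299 / 500 * cos x - 67 / 40 * (7 / 10 * c) -
        (1 - t) * capP (1299 / 500 * (4 / 5)) x - t * capP (1299 / 500 * (12 / 13)) x ≤
        1299 / 500 * cos x - 67 / 40 * (7 / 10 * c) ∧
    1299 / 500 * cos x - 67 / 40 * (7 / 10 * c) -
        (1 - t) * capP (1299 / 500 * (4 / 5)) x - t * capP (1299 / 500 * (12 / 13)) x ≤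
        2 - 7 / 10 * c := by
  obtain ⟨ht0, ht1⟩ := num_t hc hc1 ht
  have hC1 := cos_le_one x
  have hA := LemB1_cap_lo (C := cos x) (q := 1299 / 500 * (4 / 5)) rfl
    (w := 17 / 250 * cos x + 67 / 40 * (7 / 10 * c)) (by linarith) (by linarith)
  have hB := LemB1_cap_lo (C := cos x) (q := 1299 / 500 * (12 / 13)) rfl
    (w := 17 / 250 * cos x + 67 / 40 * (7 / 10 * c)) (by linarith) (by linarith)
  have hA0 := LemB1_cap_nonneg (1299 / 500 * (4 / 5)) x
  have hB0 := LemB1_cap_nonneg (1299 / 500 * (12 / 13)) x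
  have hA2 := LemB1_cap_ge (1299 / 500 * (4 / 5)) x
  have hB2 := LemB1_cap_ge (1299 / 500 * (12 / 13)) x
  have h1t : 0 ≤ 1 - t := by linarith
  refine ⟨?_, ?_, ?_⟩
  · have h1 := mul_le_mul_of_nonneg_left hA h1t
    have h2 := mul_le_mul_of_nonneg_left hB ht0
    linarith
  · have h1 := mul_nonneg h1t hA0
    have h2 := mul_nonneg ht0 hB0
    linarith
  · have h1 := mul_le_mul_of_nonneg_left hA2 h1t
    have h2 := mul_le_mul_of_nonneg_left hB2 ht0
    have h3 : t * (1299 / 500 * (8 / 65)) =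
        2 + 27 / 40 * (7 / 10 * c) - 1299 / 500 * (4 / 5) := by
      rw [ht]
      exact div_mul_cancel₀ _ (by norm_num)
    linarith

theorem lemB_small (h : Run L φ m Y) (hL : π ≤ L) (hend : 0 ≤ φ L)
    (hth : ∀ t ∈ Icc 0 L, 254 / 1000 ≤ cos (φ t)) :
    1201 / 500 ≤ ∫ r in (0 : ℝ)..L, Y r := by
  obtain ⟨t0, ht0, θ, hat, hθ0, hθ1, hmax, hmin⟩ := run_max h
  have hpi := pi_gt_d4
  have hint : (∫ r in (0 : ℝ)..L, (Y r + 0 * (1 - m r))) = ∫ r in (0 : ℝ)..L, Y r := by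
    simp
  have hcθ : 254 / 1000 ≤ cos θ := by
    have h1 := hth t0 ht0
    rwa [← cos_abs, hat] at h1
  rcases le_or_gt (765 / 1000) (cos θ) with hc | hc
  · have h1 := run_small h hL hend (κ := 0) le_rfl hmin (by linarith)
    rw [hint] at h1
    have h2 : 765 / 1000 * π ≤ cos θ * π := mul_le_mul_of_nonneg_right hc pi_pos.le
    linarith
  · set t : ℝ := (2 + 27 / 40 * (7 / 10 * cos θ) - 1299 / 500 * (4 / 5)) /
      (1299 / 500 * (8 / 65)) with htd
    obtain ⟨htt0, htt1⟩ := num_t hcθ hc.le htd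
    have hpsi := fun (x : ℝ) (hx : cos θ ≤ cos x) => LemB1_psi hcθ hc.le hx htd
    set ν := 7 / 10 * cos θ with hν
    have hν0 : 0 ≤ ν := by rw [hν]; linarith
    set Ψ : ℝ → ℝ := fun x => 1299 / 500 * sin x - 67 / 40 * ν * x -
      (1 - t) * capI (1299 / 500 * (4 / 5)) x - t * capI (1299 / 500 * (12 / 13)) x with hΨd
    set ψ : ℝ → ℝ := fun x => 1299 / 500 * cos x - 67 / 40 * ν -
      (1 - t) * capP (1299 / 500 * (4 / 5)) x - t * capP (1299 / 500 * (12 / 13)) x with hψd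
    have hψc : Continuous ψ := by
      have h1 := capP_cont (1299 / 500 * (4 / 5))
      have h2 := capP_cont (1299 / 500 * (12 / 13))
      rw [hψd]
      fun_prop
    have hΨ : ∀ x, HasDerivAt Ψ (ψ x) x := by
      intro x
      have h1 := (((hasDerivAt_sin x).const_mul (1299 / 500)).sub
        ((hasDerivAt_id x).const_mul (67 / 40 * ν))).sub
        ((capI_deriv (1299 / 500 * (4 / 5)) x).const_mul (1 - t))
      have h2 := h1.sub ((capI_deriv (1299 / 500 * (12 / 13)) x).const_mul t)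
      rw [mul_one] at h2
      exact h2
    have hodd : ∀ x, Ψ (-x) = -Ψ x := by
      intro x
      show 1299 / 500 * sin (-x) - 67 / 40 * ν * (-x) -
        (1 - t) * capI (1299 / 500 * (4 / 5)) (-x) - t * capI (1299 / 500 * (12 / 13)) (-x) =
        -(1299 / 500 * sin x - 67 / 40 * ν * x -
        (1 - t) * capI (1299 / 500 * (4 / 5)) x - t * capI (1299 / 500 * (12 / 13)) x)
      rw [capI_odd, capI_odd, sin_neg]
      ring
    have hΨ0 : Ψ 0 = 0 := by
      have h1 := hodd 0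
      rw [neg_zero] at h1
      linarith
    have hpos : ∀ x ∈ Icc 0 θ, 0 ≤ Ψ x := by
      have hmono : MonotoneOn Ψ (Icc 0 θ) := by
        refine monotoneOn_of_deriv_nonneg (convex_Icc 0 θ)
          (fun x _ => (hΨ x).continuousAt.continuousWithinAt)
          (fun x _ => (hΨ x).differentiableAt.differentiableWithinAt) ?_
        intro x hx
        rw [interior_Icc] at hx
        rw [(hΨ x).deriv]
        have hcx : cos θ ≤ cos x :=
          cos_le_cos_of_nonneg_of_le_pi hx.1.le (by linarith [pi_pos]) hx.2.le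
        have h1 := (hpsi x hcx).1
        have h2 : 0 ≤ 17 / 250 * cos x := by linarith
        exact h2.trans h1
      intro x hx
      have h1 := hmono (left_mem_Icc.2 hθ0) hx hx.1
      rw [hΨ0] at h1
      exact h1
    have hBd : ∀ r ∈ Icc 0 L,
        ν + 17 / 250 * cos (φ r) * (1 - cos (φ r) ^ 2 / Y r ^ 2) ≤ Y r := by
      intro r hr
      have hcr := LemA_cos h hr
      have h7 := hmin r hr
      exact pt_dn (B := 17 / 250) (n := 7 / 10) (by norm_num) (by norm_num)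
        (by norm_num) (h.Y0 r) hcr hν0 (by rw [hν]; linarith)
    have h1 := two_pot h hend (κ := 0) (ν := ν) (θ := θ) (B := 17 / 250) (ψ := ψ) (Ψ := Ψ)
      hψc hΨ hodd (by norm_num) hpos ht0 hmax hat ?_ ?_
    · rw [hint] at h1
      have h2 := num_B1 hθ0 hθ1 hcθ hc.le htd
      rw [← hν] at h2
      have h3 : ν * π ≤ ν * L := mul_le_mul_of_nonneg_left hL hν0
      have h4 := mul_le_mul_of_nonneg_left (capI0 hθ0 hθ1) (show 0 ≤ 1 - t by linarith)
      have h5 := mul_le_mul_of_nonneg_left (capI1 hθ0 hθ1) htt0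
      have h6 : Ψ θ = 1299 / 500 * sin θ - 67 / 40 * ν * θ -
        (1 - t) * capI (1299 / 500 * (4 / 5)) θ - t * capI (1299 / 500 * (12 / 13)) θ := rfl
      linarith
    · intro r hr
      have hcr := LemA_cos h hr
      have h7 := hmin r hr
      obtain ⟨p1, p2, p3⟩ := hpsi (φ r) h7
      refine pt_full (h.m0 r) (h.m1 r) (h.full r) ?_ ?_
      · have hup := pt_up (a := 1299 / 500) (b := 67 / 40) (n := 7 / 10) (nu := ν)
          (c := cos (φ r)) (Y := Y r) (by norm_num) (by norm_num)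
          (by norm_num) (by norm_num) (by norm_num) (h.Y0 r) hcr hν0 (by rw [hν]; linarith)
        exact pt_mid (hBd r hr) hup p1 p2
      · have h8 : ψ (φ r) ≤ 2 - ν := p3
        linarith
    · intro r hr
      have h6 := cos_le_one (φ r)
      refine pt_full (h.m0 r) (h.m1 r) (h.full r) (hBd r hr) ?_
      have h8 : ν ≤ 7 / 10 * (765 / 1000) := by rw [hν]; linarith
      linarith

end Pool.Agent.W_1ab439_h81b

end LemB1

section LemB2

/-!
LemB2 (M).  Lemma B, the case that `cos φ` gets below `.254`, and Lemma B.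

`crossing`: `t` = the least point of `{r ∈ [a,b] : f r ≥ v}` (closed, nonempty; `f t = v` by continuity as `f a < v`), then `s` = the largest point of
`{r ∈ [a,t] : f r ≤ u}`; `f s = u`; on `(s,t)`: `u < f r < v`.
`lemB_large`: let `θ* = arccos (254/1000)` (`0 ≤ θ* ≤ π/2`, `cos θ* = .254`).  `|φ t0| ≥ θ*` since cos is decreasing.  If `φ t0 ≥ θ*`: crossing on `[0,t0]` with
`u = 0`, `v = θ*`; if `φ t0 ≤ -θ*`: crossing on `[t0,T]` with `u = -θ*`, `v = 0` (`φ T ≥ 0`).  So `0 ≤ s < t ≤ T` with `|φ| ≤ θ*` on `[s,t]`, and with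
`ψ x = a cos x - .2054 - capP q0 x`, `Ψ x = a sin x - .2054 x - capI q0 x` (odd), `Ψ (φ t) - Ψ (φ s) = Ψ θ*` in both cases.
run_int with `κ = 0`, `ν = 127/1000` on `[s,t]`.  Pointwise at `u = φ r`, `C = cos u ≥ .254` (so `.127 ≤ 1/2 C`): `ψ u = min (a C - .2054) (q0 - .2054)` with
`q0 - .2054 = 1.873`; `.021 C ≤ ψ u ≤ a C - .2054 = a C - b ν`, `b = 1027/635`; pt_up, pt_dn, pt_mid with `n = 1/2` (`a - b/2 = 1.78933..`,
`27 * 1.78933 ≥ 4 * 2.28934^3`; `27 * .021 ≥ 4 * .521^3`), and `ν + ψ u ≤ .127 + 1.873 = 2`; pt_full.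
Outside `[s,t]` use `Y ≥ .127`: `∫ 0..L Y ≥ .127 L + Ψ θ* ≥ .127 π + a sin θ* - .2054 θ* - .2246 ≥ 2.402` (capI0, num_B2).
`lemB`: if some `t0 ∈ [0,T]` has `cos (φ t0) ≤ .254` use lemB_large (if `φ T = π/2` take `t0 = T`), otherwise `T = L` and lemB_small.
-/

set_option autoImplicit false

open MeasureTheory Set Real

namespace Pool.Agent.W_1ab439_h81b

variable {L T : ℝ} {φ m Y : ℝ → ℝ}

theorem crossing {f : ℝ → ℝ} {a b u v : ℝ} (hab : a ≤ b) (hf : ContinuousOn f (Icc a b))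
    (hu : f a ≤ u) (hv : v ≤ f b) (huv : u < v) :
    ∃ s t, a ≤ s ∧ s < t ∧ t ≤ b ∧ f s = u ∧ f t = v ∧ ∀ r ∈ Icc s t, u ≤ f r ∧ f r ≤ v := by
  have hA : IsClosed (Icc a b ∩ f ⁻¹' Ici v) := hf.preimage_isClosed_of_isClosed isClosed_Icc isClosed_Ici
  have hAc : IsCompact (Icc a b ∩ f ⁻¹' Ici v) :=
    isCompact_Icc.of_isClosed_subset hA inter_subset_left
  obtain ⟨t, ⟨⟨hta, htb⟩, htv⟩, htl⟩ := hAc.exists_isLeast ⟨b, ⟨hab, le_refl b⟩, hv⟩
  have htv' : v ≤ f t := htv
  have hft : f t = v := by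
    by_contra hne
    have hlt : v < f t := lt_of_le_of_ne htv' (Ne.symm hne)
    have hcont : ContinuousOn f (Icc a t) := hf.mono (Icc_subset_Icc_right htb)
    obtain ⟨r, ⟨hra, hrt⟩, hfr⟩ := intermediate_value_Icc hta hcont
      (show v ∈ Icc (f a) (f t) from ⟨hu.trans huv.le, hlt.le⟩)
    have h1 := htl ⟨⟨hra, hrt.trans htb⟩, (show v ≤ f r from hfr.ge)⟩
    have h2 : r = t := le_antisymm hrt h1
    rw [h2] at hfr
    exact hne hfr
  have hcont : ContinuousOn f (Icc a t) := hf.mono (Icc_subset_Icc_right htb)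
  have hB : IsClosed (Icc a t ∩ f ⁻¹' Iic u) := hcont.preimage_isClosed_of_isClosed isClosed_Icc isClosed_Iic
  have hBc : IsCompact (Icc a t ∩ f ⁻¹' Iic u) :=
    isCompact_Icc.of_isClosed_subset hB inter_subset_left
  obtain ⟨s, ⟨⟨hsa, hst⟩, hsu⟩, hsl⟩ := hBc.exists_isGreatest ⟨a, ⟨le_refl a, hta⟩, hu⟩
  have hsu' : f s ≤ u := hsu
  have hfs : f s = u := by
    by_contra hne
    have hlt : f s < u := lt_of_le_of_ne hsu' hne
    have hcont2 : ContinuousOn f (Icc s t) := hcont.mono (Icc_subset_Icc_left hsa)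
    obtain ⟨r, ⟨hrs, hrt⟩, hfr⟩ := intermediate_value_Icc hst hcont2
      (show u ∈ Icc (f s) (f t) from ⟨hlt.le, huv.le.trans htv'⟩)
    have h1 := hsl ⟨⟨hsa.trans hrs, hrt⟩, (show f r ≤ u from hfr.le)⟩
    have h2 : r = s := le_antisymm h1 hrs
    rw [h2] at hfr
    exact hne hfr
  have hst' : s < t := by
    refine lt_of_le_of_ne hst ?_
    rintro rfl
    rw [hfs] at hft
    exact absurd hft huv.ne
  refine ⟨s, t, hsa, hst', htb, hfs, hft, ?_⟩
  rintro r ⟨hrs, hrt⟩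
  constructor
  · by_contra hlt
    rw [not_le] at hlt
    have h1 := hsl ⟨⟨hsa.trans hrs, hrt⟩, (show f r ≤ u from hlt.le)⟩
    have h2 : r = s := le_antisymm h1 hrs
    rw [h2, hfs] at hlt
    exact lt_irrefl _ hlt
  · by_contra hlt
    rw [not_le] at hlt
    have h1 := htl ⟨⟨hsa.trans hrs, hrt.trans htb⟩, (show v ≤ f r from hlt.le)⟩
    have h2 : r = t := le_antisymm hrt h1
    rw [h2, hft] at hlt
    exact lt_irrefl _ hlt

/-- the density of the potential in the large case -/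
private noncomputable def LemB2_psi (x : ℝ) : ℝ :=
  1299 / 500 * cos x - 2054 / 10000 - capP (1299 / 500 * (4 / 5)) x

/-- the potential in the large case -/
private noncomputable def LemB2_Psi (x : ℝ) : ℝ :=
  1299 / 500 * sin x - 2054 / 10000 * x - capI (1299 / 500 * (4 / 5)) x

private theorem LemB2_cont : Continuous LemB2_psi := by
  unfold LemB2_psi
  exact ((continuous_const.mul continuous_cos).sub continuous_const).sub (capP_cont _)

private theorem LemB2_deriv (x : ℝ) : HasDerivAt LemB2_Psi (LemB2_psi x) x := by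
  unfold LemB2_Psi LemB2_psi
  have h1 : HasDerivAt (fun x : ℝ => 1299 / 500 * sin x) (1299 / 500 * cos x) x :=
    (hasDerivAt_sin x).const_mul _
  have h2 : HasDerivAt (fun x : ℝ => 2054 / 10000 * x) (2054 / 10000 * 1) x :=
    (hasDerivAt_id x).const_mul _
  rw [mul_one] at h2
  exact (h1.sub h2).sub (capI_deriv _ x)

private theorem LemB2_odd (x : ℝ) : LemB2_Psi (-x) = -LemB2_Psi x := by
  unfold LemB2_Psi
  rw [sin_neg, capI_odd]
  ring

private theorem LemB2_point {C u : ℝ} (hC : C = cos u) (hCl : 254 / 1000 ≤ C) {y mm : ℝ}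
    (hy : 0 < y) (h0 : 0 ≤ mm) (h1 : mm ≤ 1) (hf : mm < 1 → 2 ≤ y) :
    127 / 1000 + LemB2_psi u * (1 - mm / y ^ 2 * cos u ^ 2) ≤ y + 0 * (1 - mm) := by
  have hC1 : C ≤ 1 := by rw [hC]; exact cos_le_one u
  have hpsi : LemB2_psi u = 1299 / 500 * C - 2054 / 10000 - max (1299 / 500 * C - 1299 / 500 * (4 / 5)) 0 := by
    unfold LemB2_psi capP
    rw [hC]
  have hlo : 21 / 1000 * C ≤ LemB2_psi u := by
    rw [hpsi]
    rcases max_cases (1299 / 500 * C - 1299 / 500 * (4 / 5)) 0 with h | h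
    · rw [h.1]; linarith
    · rw [h.1]; linarith
  have hhi : LemB2_psi u ≤ 1299 / 500 * C - 1027 / 635 * (127 / 1000) := by
    rw [hpsi]
    have := le_max_right (1299 / 500 * C - 1299 / 500 * (4 / 5)) 0
    linarith
  have hsum : 127 / 1000 + LemB2_psi u ≤ 2 + 0 := by
    rw [hpsi]
    have := le_max_left (1299 / 500 * C - 1299 / 500 * (4 / 5)) 0
    linarith
  have hup : (127 / 1000 : ℝ) + (1299 / 500 * C - 1027 / 635 * (127 / 1000)) * (1 - C ^ 2 / y ^ 2) ≤ y :=
    pt_up (n := 1 / 2) (by norm_num) (by norm_num) (by norm_num) (by norm_num) (by norm_num) hy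
      (by linarith) (by norm_num) (by linarith)
  have hdn : (127 / 1000 : ℝ) + 21 / 1000 * C * (1 - C ^ 2 / y ^ 2) ≤ y :=
    pt_dn (n := 1 / 2) (by norm_num) (by norm_num) (by norm_num) hy
      (by linarith) (by norm_num) (by linarith)
  have hmid := pt_mid hdn hup hlo hhi
  rw [← hC]
  exact pt_full h0 h1 hf hmid hsum

theorem lemB_large (h : Run T φ m Y) (hTL : T ≤ L) (hL : π ≤ L) (hend : 0 ≤ φ T)
    (hY : ∀ t ∈ Icc 0 L, 127 / 1000 ≤ Y t) {t0 : ℝ} (ht0 : t0 ∈ Icc 0 T)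
    (hc : cos (φ t0) ≤ 254 / 1000) :
    1201 / 500 ≤ ∫ r in (0 : ℝ)..L, Y r := by
  set θ : ℝ := arccos (254 / 1000) with hθ
  have hcos : cos θ = 254 / 1000 := cos_arccos (by norm_num) (by norm_num)
  have hθ0 : 0 < θ := arccos_pos.mpr (by norm_num)
  have hθ1 : θ ≤ π / 2 := arccos_le_pi_div_two.mpr (by norm_num)
  have hπ := pi_pos
  have habs : θ ≤ |φ t0| := by
    by_contra hlt
    rw [not_le] at hlt
    have h1 : cos θ < cos |φ t0| :=
      strictAntiOn_cos ⟨abs_nonneg _, by linarith⟩ ⟨hθ0.le, by linarith⟩ hlt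
    rw [cos_abs, hcos] at h1
    linarith
  have hcont : ContinuousOn φ (Icc 0 T) := fun t ht => (h.d t ht).continuousAt.continuousWithinAt
  have hkey : ∃ s t, 0 ≤ s ∧ s < t ∧ t ≤ T ∧ (∀ r ∈ Icc s t, |φ r| ≤ θ) ∧
      LemB2_Psi (φ t) - LemB2_Psi (φ s) = LemB2_Psi θ := by
    have hPsi0 : LemB2_Psi 0 = 0 := by
      have := LemB2_odd 0
      rw [neg_zero] at this
      linarith
    rcases le_or_gt 0 (φ t0) with hpos | hneg
    · rw [abs_of_nonneg hpos] at habs
      obtain ⟨s, t, h1, h2, h3, h4, h5, h6⟩ := crossing (f := φ) (u := 0) (v := θ) ht0.1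
        (hcont.mono (Icc_subset_Icc_right ht0.2)) h.z.le habs hθ0
      refine ⟨s, t, h1, h2, h3.trans ht0.2, ?_, ?_⟩
      · intro r hr
        rw [abs_of_nonneg (h6 r hr).1]
        exact (h6 r hr).2
      · rw [h4, h5, hPsi0, sub_zero]
    · rw [abs_of_neg hneg] at habs
      obtain ⟨s, t, h1, h2, h3, h4, h5, h6⟩ := crossing (f := φ) (u := -θ) (v := 0) ht0.2
        (hcont.mono (Icc_subset_Icc_left ht0.1)) (by linarith) hend (by linarith)
      refine ⟨s, t, ht0.1.trans h1, h2, h3, ?_, ?_⟩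
      · intro r hr
        rw [abs_of_nonpos (h6 r hr).2]
        linarith [(h6 r hr).1]
      · rw [h4, h5, hPsi0, LemB2_odd]
        ring
  obtain ⟨s, t, hs, hst, htT, hmax, hPsi⟩ := hkey
  have hrun := run_int h (κ := 0) (ν := 127 / 1000) LemB2_cont LemB2_deriv hs hst.le htT (by
    intro r hr
    have hCl : 254 / 1000 ≤ cos (φ r) := by
      rw [← hcos, ← cos_abs (φ r)]
      exact strictAntiOn_cos.antitoneOn ⟨abs_nonneg _, by linarith [hmax r hr]⟩
        ⟨hθ0.le, by linarith⟩ (hmax r hr)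
    exact LemB2_point rfl hCl (h.Y0 r) (h.m0 r) (h.m1 r) (h.full r))
  have hrun' : 127 / 1000 * (t - s) + LemB2_Psi θ ≤ ∫ r in s..t, Y r := by
    rw [hPsi] at hrun
    simpa using hrun
  have hint : ∀ a b : ℝ, IntervalIntegrable Y volume a b := fun a b => h.Yc.intervalIntegrable a b
  have hlow : ∀ a b : ℝ, 0 ≤ a → a ≤ b → b ≤ L → 127 / 1000 * (b - a) ≤ ∫ r in a..b, Y r := by
    intro a b ha hab hb
    have h1 : ∫ _ in a..b, (127 / 1000 : ℝ) ≤ ∫ r in a..b, Y r := by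
      refine intervalIntegral.integral_mono_on hab intervalIntegrable_const (hint a b) ?_
      intro x hx
      exact hY x ⟨ha.trans hx.1, hx.2.trans hb⟩
    rw [intervalIntegral.integral_const, smul_eq_mul] at h1
    linarith
  have e1 : ∫ r in (0 : ℝ)..L, Y r = (∫ r in (0 : ℝ)..s, Y r) + (∫ r in s..t, Y r) +
      ∫ r in t..L, Y r := by
    rw [intervalIntegral.integral_add_adjacent_intervals (hint 0 s) (hint s t),
      intervalIntegral.integral_add_adjacent_intervals (hint 0 t) (hint t L)]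
  have h0s := hlow 0 s le_rfl hs (by linarith)
  have htl := hlow t L (by linarith) (by linarith) le_rfl
  have hcap := capI0 hθ0.le hθ1
  have hnum := num_B2 hθ0.le hθ1 hcos
  have hPsiθ : LemB2_Psi θ = 1299 / 500 * sin θ - 2054 / 10000 * θ - capI (1299 / 500 * (4 / 5)) θ := rfl
  rw [e1]
  rw [hPsiθ] at hrun'
  have hLπ : 127 / 1000 * π ≤ 127 / 1000 * L := by linarith
  linarith

theorem lemB (h : Run T φ m Y) (hTL : T ≤ L) (hL : π ≤ L)
    (hcase : (T = L ∧ 0 ≤ φ T) ∨ φ T = π / 2) (hY : ∀ t ∈ Icc 0 L, 127 / 1000 ≤ Y t) :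
    1201 / 500 ≤ ∫ r in (0 : ℝ)..L, Y r := by
  have hπ := pi_pos
  by_cases hex : ∃ t0 ∈ Icc 0 T, cos (φ t0) ≤ 254 / 1000
  · obtain ⟨t0, ht0, hc⟩ := hex
    have hend : 0 ≤ φ T := by
      rcases hcase with h1 | h1
      · exact h1.2
      · rw [h1]; linarith
    exact lemB_large h hTL hL hend hY ht0 hc
  · push Not at hex
    rcases hcase with h1 | h1
    · obtain ⟨h1, h2⟩ := h1
      subst h1
      exact lemB_small h hL h2 fun t ht => (hex t ht).le
    · exfalso
      have := hex T ⟨h.L0, le_rfl⟩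
      rw [h1, cos_pi_div_two] at this
      norm_num at this

end Pool.Agent.W_1ab439_h81b

end LemB2
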