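import Pool.Agent.W_1ab439_h81.Strip
import Pool.Agent.W_1ab439_h81b.Defs
import Pool.Agent.W_1ab439_h81b.Run
import Pool.Agent.W_1ab439_h81b.Cols

section Sym

/-!
Sym (M).  Symmetries of the box: exchange of the coordinates, reflection `x ↦ L - x`, translation.

Compare g2_swap_fd, g2_cc, g2_den, g2_mp in `W_1ab439_h81/Strip.lean` and d2_dn_*, d2_up_* in `W_1ab439_h81/Piece.lean` (private there: copy them).
For a measure preserving homeomorphism `T` of the plane with `T ⁻¹' S' = S`: `∫ z in S, g (T z) = ∫ z in S', g z` (`setIntegral_preimage_emb`).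
`bx_add`: the line `x = t` is a null set; `setIntegral_union`; `bx a b c d` minus the line is the disjoint union of the two boxes.
-/

set_option autoImplicit false

open MeasureTheory Set Real

namespace Pool.Agent.W_1ab439_h81b

open Pool.Agent.W_1ab439_h81

variable {f χ : ℝ × ℝ → ℝ}

theorem measurableSet_bx (a b c d : ℝ) : MeasurableSet (bx a b c d) :=
  measurableSet_Ioo.prod measurableSet_Ioo

private theorem sym_int (φ : ℝ × ℝ ≃ₜ ℝ × ℝ) (hφ : MeasurePreserving φ) (g : ℝ × ℝ → ℝ)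
    (S S' : Set (ℝ × ℝ)) (hS : S = φ ⁻¹' S') : ∫ z in S, g (φ z) = ∫ z in S', g z := by
  rw [hS]
  exact hφ.setIntegral_preimage_emb φ.measurableEmbedding g S'

private theorem sym_cut (hχ : Cut f χ) (φ : ℝ × ℝ ≃ₜ ℝ × ℝ) :
    Cut (fun z => f (φ z)) (fun z => χ (φ z)) :=
  ⟨hχ.cont.comp φ.continuous, hχ.cpt.comp_homeomorph φ, fun _ => hχ.nonneg _, fun _ => hχ.le_one _,
    fun _ h => hχ.one _ h⟩

theorem swap_cut (hχ : Cut f χ) : Cut (fun z => f z.swap) (fun z => χ z.swap) :=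
  sym_cut hχ (Homeomorph.prodComm ℝ ℝ)

theorem swap_int (g : ℝ × ℝ → ℝ) (a b c d : ℝ) :
    ∫ z in bx c d a b, g z.swap = ∫ z in bx a b c d, g z := by
  refine sym_int (Homeomorph.prodComm ℝ ℝ) g2_mp g _ _ ?_
  ext z
  simp only [bx, mem_prod, mem_preimage, Homeomorph.coe_prodComm, Prod.fst_swap, Prod.snd_swap]
  exact and_comm

theorem swap_En (hf : CC f) (a b c d : ℝ) :
    En (fun z => f z.swap) (bx c d a b) = En f (bx a b c d) := by
  unfold En
  simp only [g2_den hf]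
  exact swap_int (den f) a b c d

/-- the reflection `z ↦ (L - z.1, z.2)` -/
private noncomputable def sym_r (L : ℝ) : ℝ × ℝ ≃ₜ ℝ × ℝ :=
  (Homeomorph.subLeft L).prodCongr (Homeomorph.refl ℝ)

private theorem sym_r_apply (L : ℝ) (z : ℝ × ℝ) : sym_r L z = (L - z.1, z.2) := rfl

private theorem sym_r_mp (L : ℝ) : MeasurePreserving (sym_r L) := by
  have h := (Measure.measurePreserving_sub_left (volume : Measure ℝ) L).prod
    (MeasurePreserving.id (volume : Measure ℝ))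
  exact h

private theorem sym_r_fd (L : ℝ) (z : ℝ × ℝ) :
    HasFDerivAt (fun z : ℝ × ℝ => (L - z.1, z.2))
      ((-ContinuousLinearMap.fst ℝ ℝ ℝ).prod (ContinuousLinearMap.snd ℝ ℝ ℝ)) z :=
  (hasFDerivAt_fst.const_sub L).prodMk hasFDerivAt_snd

/-- reflection in the first coordinate -/
theorem refl_CC (hf : CC f) (L : ℝ) : CC (fun z => f (L - z.1, z.2)) := by
  refine ⟨hf.1.comp ?_, ?_⟩
  · have h : ContDiff ℝ 1 (fun z : ℝ × ℝ => (L - z.1, z.2)) :=
      (contDiff_const.sub contDiff_fst).prodMk contDiff_snd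
    exact h
  · exact hf.2.comp_homeomorph (sym_r L)

private theorem sym_r_den (hf : CC f) (L : ℝ) (z : ℝ × ℝ) :
    den (fun z => f (L - z.1, z.2)) z = den f (L - z.1, z.2) := by
  have h : HasFDerivAt (fun z : ℝ × ℝ => f (L - z.1, z.2)) _ z :=
    ((hf.diff (L - z.1, z.2)).hasFDerivAt).comp z (sym_r_fd L z)
  have h1 : ((-1 : ℝ), (0 : ℝ)) = -((1 : ℝ), (0 : ℝ)) := by simp
  unfold den dx dy
  rw [h.fderiv]
  simp only [ContinuousLinearMap.comp_apply, ContinuousLinearMap.prod_apply,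
    ContinuousLinearMap.coe_fst', ContinuousLinearMap.coe_snd', ContinuousLinearMap.neg_apply,
    neg_zero, h1, map_neg, neg_sq]

theorem refl_cut (hχ : Cut f χ) (L : ℝ) :
    Cut (fun z => f (L - z.1, z.2)) (fun z => χ (L - z.1, z.2)) :=
  sym_cut hχ (sym_r L)

theorem refl_int (g : ℝ × ℝ → ℝ) (L a b c d : ℝ) :
    ∫ z in bx (L - b) (L - a) c d, g (L - z.1, z.2) = ∫ z in bx a b c d, g z := by
  refine sym_int (sym_r L) (sym_r_mp L) g _ _ ?_
  ext z
  simp only [bx, mem_prod, mem_preimage, sym_r_apply, mem_Ioo]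
  constructor
  · rintro ⟨⟨h1, h2⟩, h3⟩
    exact ⟨⟨by linarith, by linarith⟩, h3⟩
  · rintro ⟨⟨h1, h2⟩, h3⟩
    exact ⟨⟨by linarith, by linarith⟩, h3⟩

theorem refl_En (hf : CC f) (L a b c d : ℝ) :
    En (fun z => f (L - z.1, z.2)) (bx (L - b) (L - a) c d) = En f (bx a b c d) := by
  unfold En
  simp only [sym_r_den hf L]
  exact refl_int (den f) L a b c d

/-- the translation `z ↦ (z.1 + p, z.2 + q)` -/
private noncomputable def sym_t (p q : ℝ) : ℝ × ℝ ≃ₜ ℝ × ℝ :=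
  (Homeomorph.addRight p).prodCongr (Homeomorph.addRight q)

private theorem sym_t_apply (p q : ℝ) (z : ℝ × ℝ) : sym_t p q z = (z.1 + p, z.2 + q) := rfl

private theorem sym_t_mp (p q : ℝ) : MeasurePreserving (sym_t p q) := by
  have h := (measurePreserving_add_right (volume : Measure ℝ) p).prod
    (measurePreserving_add_right (volume : Measure ℝ) q)
  exact h

private theorem sym_t_fd (p q : ℝ) (z : ℝ × ℝ) :
    HasFDerivAt (fun z : ℝ × ℝ => (z.1 + p, z.2 + q))
      ((ContinuousLinearMap.fst ℝ ℝ ℝ).prod (ContinuousLinearMap.snd ℝ ℝ ℝ)) z :=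
  (hasFDerivAt_fst.add_const p).prodMk (hasFDerivAt_snd.add_const q)

/-- translation -/
theorem tra_CC (hf : CC f) (p q : ℝ) : CC (fun z => f (z.1 + p, z.2 + q)) := by
  refine ⟨hf.1.comp ?_, ?_⟩
  · have h : ContDiff ℝ 1 (fun z : ℝ × ℝ => (z.1 + p, z.2 + q)) :=
      (contDiff_fst.add contDiff_const).prodMk (contDiff_snd.add contDiff_const)
    exact h
  · exact hf.2.comp_homeomorph (sym_t p q)

private theorem sym_t_den (hf : CC f) (p q : ℝ) (z : ℝ × ℝ) :
    den (fun z => f (z.1 + p, z.2 + q)) z = den f (z.1 + p, z.2 + q) := by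
  have h : HasFDerivAt (fun z : ℝ × ℝ => f (z.1 + p, z.2 + q)) _ z :=
    ((hf.diff (z.1 + p, z.2 + q)).hasFDerivAt).comp z (sym_t_fd p q z)
  unfold den dx dy
  rw [h.fderiv]
  simp

theorem tra_cut (hχ : Cut f χ) (p q : ℝ) :
    Cut (fun z => f (z.1 + p, z.2 + q)) (fun z => χ (z.1 + p, z.2 + q)) :=
  sym_cut hχ (sym_t p q)

theorem tra_int (g : ℝ × ℝ → ℝ) (p q a b c d : ℝ) :
    ∫ z in bx (a - p) (b - p) (c - q) (d - q), g (z.1 + p, z.2 + q) = ∫ z in bx a b c d, g z := by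
  refine sym_int (sym_t p q) (sym_t_mp p q) g _ _ ?_
  ext z
  simp only [bx, mem_prod, mem_preimage, sym_t_apply, mem_Ioo]
  constructor
  · rintro ⟨⟨h1, h2⟩, h3, h4⟩
    exact ⟨⟨by linarith, by linarith⟩, by linarith, by linarith⟩
  · rintro ⟨⟨h1, h2⟩, h3, h4⟩
    exact ⟨⟨by linarith, by linarith⟩, by linarith, by linarith⟩

theorem tra_En (hf : CC f) (p q a b c d : ℝ) :
    En (fun z => f (z.1 + p, z.2 + q)) (bx (a - p) (b - p) (c - q) (d - q)) =
      En f (bx a b c d) := by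
  unfold En
  simp only [sym_t_den hf p q]
  exact tra_int (den f) p q a b c d

end Pool.Agent.W_1ab439_h81b

end Sym

section Add

/-!
Add (M).  Additivity and continuity of integrals over boxes.

`bx_add_x`: for `a ≤ t ≤ b` and integrable `g`: `bx a b c d` is, up to the null set `{z.1 = t}`, the disjoint union of `bx a t c d` and `bx t b c d`
(`setIntegral_union`, `setIntegral_congr_set` with an a.e. equality of sets; the line is null: `Measure.prod_prod`-type or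
`volume {z | z.1 = t} = 0`).  `bx_add_y` the same for the second coordinate.
`bx_cont_right`, `bx_cont_left`: for `g` continuous with compact support (bounded by `C`), `|∫ bx a t c d - ∫ bx a t' c d| ≤ C |t - t'| |d - c|`
(difference sets are boxes), or dominated convergence, or Fubini and continuity of interval integrals:
`∫ z in bx a t c d, g z = ∫ x in Ioo a t, G x` with `G x = ∫ y in Ioo c d, g (x,y)` integrable, and
`∫ x in Ioo a t, G x = ∫ x in a..(max a t), G x`.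
-/

set_option autoImplicit false

open MeasureTheory Set Real

namespace Pool.Agent.W_1ab439_h81b

open Pool.Agent.W_1ab439_h81

variable {g : ℝ × ℝ → ℝ}

private theorem Add_ae {a t b : ℝ} (h1 : a ≤ t) (h2 : t ≤ b) :
    (Ioo a b : Set ℝ) =ᵐ[volume] (Ioo a t ∪ Ioo t b : Set ℝ) := by
  have e1 : (Ioo a b : Set ℝ) =ᵐ[volume] Ioc a b := Ioo_ae_eq_Ioc
  have e2 : (Ioo a t : Set ℝ) =ᵐ[volume] Ioc a t := Ioo_ae_eq_Ioc
  have e3 : (Ioo t b : Set ℝ) =ᵐ[volume] Ioc t b := Ioo_ae_eq_Ioc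
  have e4 : (Ioc a b : Set ℝ) = Ioc a t ∪ Ioc t b := (Ioc_union_Ioc_eq_Ioc h1 h2).symm
  exact e1.trans (e4 ▸ (e2.union e3).symm)

private theorem Add_meas (a b c d : ℝ) : MeasurableSet (bx a b c d) :=
  measurableSet_Ioo.prod measurableSet_Ioo

theorem bx_add_x (hg : Integrable g) {a t b : ℝ} (h1 : a ≤ t) (h2 : t ≤ b) (c d : ℝ) :
    ∫ z in bx a b c d, g z = (∫ z in bx a t c d, g z) + ∫ z in bx t b c d, g z := by
  have hd : Disjoint (bx a t c d) (bx t b c d) := by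
    rw [Set.disjoint_left]
    rintro z ⟨h, -⟩ ⟨h', -⟩
    exact absurd (h.2.trans h'.1) (lt_irrefl _)
  have he : bx a b c d =ᵐ[volume] (bx a t c d ∪ bx t b c d : Set (ℝ × ℝ)) := by
    have e : (bx a t c d ∪ bx t b c d : Set (ℝ × ℝ)) = (Ioo a t ∪ Ioo t b) ×ˢ Ioo c d := by
      rw [Set.union_prod]; rfl
    rw [e, Measure.volume_eq_prod]
    exact Measure.set_prod_ae_eq (Add_ae h1 h2) Filter.EventuallyEq.rfl
  rw [setIntegral_congr_set he, setIntegral_union hd (Add_meas _ _ _ _) hg.integrableOn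
    hg.integrableOn]

theorem bx_add_y (hg : Integrable g) {c t d : ℝ} (h1 : c ≤ t) (h2 : t ≤ d) (a b : ℝ) :
    ∫ z in bx a b c d, g z = (∫ z in bx a b c t, g z) + ∫ z in bx a b t d, g z := by
  have hd : Disjoint (bx a b c t) (bx a b t d) := by
    rw [Set.disjoint_left]
    rintro z ⟨-, h⟩ ⟨-, h'⟩
    exact absurd (h.2.trans h'.1) (lt_irrefl _)
  have he : bx a b c d =ᵐ[volume] (bx a b c t ∪ bx a b t d : Set (ℝ × ℝ)) := by
    have e : (bx a b c t ∪ bx a b t d : Set (ℝ × ℝ)) = Ioo a b ×ˢ (Ioo c t ∪ Ioo t d) := by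
      rw [Set.prod_union]; rfl
    rw [e, Measure.volume_eq_prod]
    exact Measure.set_prod_ae_eq Filter.EventuallyEq.rfl (Add_ae h1 h2)
  rw [setIntegral_congr_set he, setIntegral_union hd (Add_meas _ _ _ _) hg.integrableOn
    hg.integrableOn]

private theorem Add_int (hg : Integrable g) (c d : ℝ) :
    Integrable (fun x : ℝ => ∫ y in Ioo c d, g (x, y)) := by
  have h : Integrable g ((volume : Measure ℝ).prod ((volume : Measure ℝ).restrict (Ioo c d))) := by
    have h' : IntegrableOn g (univ ×ˢ Ioo c d) ((volume : Measure ℝ).prod volume) := by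
      rw [← Measure.volume_eq_prod]; exact hg.integrableOn
    unfold IntegrableOn at h'
    rwa [← Measure.prod_restrict, Measure.restrict_univ] at h'
  exact h.integral_prod_left

private theorem Add_fub (hg : Integrable g) (a b c d : ℝ) :
    ∫ z in bx a b c d, g z = ∫ x in Ioo a b, ∫ y in Ioo c d, g (x, y) := by
  unfold bx
  rw [Measure.volume_eq_prod]
  refine setIntegral_prod _ ?_
  rw [← Measure.volume_eq_prod]; exact hg.integrableOn

theorem bx_cont_right (hg : Integrable g) (a c d : ℝ) :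
    Continuous fun t => ∫ z in bx a t c d, g z := by
  have hi := Add_int hg c d
  have e : (fun t => ∫ z in bx a t c d, g z)
      = (fun t => ∫ x in a..t, ∫ y in Ioo c d, g (x, y)) ∘ fun t => max a t := by
    funext t
    rw [Add_fub hg, Function.comp_apply, intervalIntegral.integral_of_le (le_max_left _ _),
      ← integral_Ioc_eq_integral_Ioo]
    rcases le_total a t with h | h
    · rw [max_eq_right h]
    · rw [max_eq_left h, Ioc_eq_empty (not_lt.mpr h), Ioc_eq_empty (lt_irrefl _)]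
  rw [e]
  exact (intervalIntegral.continuous_primitive (fun a b => hi.intervalIntegrable) a).comp
    (continuous_const.max continuous_id)

theorem bx_cont_left (hg : Integrable g) (b c d : ℝ) :
    Continuous fun t => ∫ z in bx t b c d, g z := by
  have hi := Add_int hg c d
  have e : (fun t => ∫ z in bx t b c d, g z)
      = (fun t => -∫ x in b..t, ∫ y in Ioo c d, g (x, y)) ∘ fun t => min t b := by
    funext t
    rw [Add_fub hg, Function.comp_apply, ← intervalIntegral.integral_symm,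
      intervalIntegral.integral_of_le (min_le_right _ _), ← integral_Ioc_eq_integral_Ioo]
    rcases le_total t b with h | h
    · rw [min_eq_left h]
    · rw [min_eq_right h, Ioc_eq_empty (not_lt.mpr h), Ioc_eq_empty (lt_irrefl _)]
  rw [e]
  exact (intervalIntegral.continuous_primitive (fun a b => hi.intervalIntegrable) b).neg.comp
    (continuous_id.min continuous_const)

end Pool.Agent.W_1ab439_h81b

end Add

section BoxI

/-!
BoxI (M).  The three one-piece estimates in the box (row 523, 3 (i)-(iii)).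

For `δ = 1/(n+1)` take the run from exists_run.  With `Y = yy χ H δ`, `m = mm χ H δ` continuous, `Y > 0`, `1 - m ≥ 0`: the integral over `[0,T]` is at most the
integral over `[0,L]`, and `∫ 0..L (Y + 3/5 (1 - m)) = 2/π (∫ χ + δ L) + 3/5 ∫ 0..L (1 - m)` (int_yy).
`box_i`: `R = L`, lemA_B (`1299/500 ≥ 101/40`) or lemA_N; let `n → ∞` (near_full, `le_of_tendsto'` / `ge_of_tendsto'`); multiply by `π/2`.
`box_ii_left`: `f (x0,·) = 0` on `[0,H]` and `En f (bx 0 x0 0 H) < 0`: exists_run with `R = x0 > 0` excludes the second alternative, lemA_B.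
`box_iii`: lemB with `Y = 2 (col + δ)/π ≥ (2/5)/π ≥ 127/1000` on `[0,L]` (π < 3.1416).
-/

set_option autoImplicit false

open MeasureTheory Set Real

namespace Pool.Agent.W_1ab439_h81b

open Pool.Agent.W_1ab439_h81

variable {f χ : ℝ × ℝ → ℝ} {H L : ℝ}

private theorem BoxI_lim {c I F L : ℝ} {J : ℕ → ℝ} (hJ : Filter.Tendsto J Filter.atTop (nhds F))
    (h : ∀ n : ℕ, c ≤ 2 / π * (I + 1 / ((n : ℝ) + 1) * L) + 3 / 5 * J n) :
    π / 2 * (c - 3 / 5 * F) ≤ I := by
  have h0 : Filter.Tendsto (fun n : ℕ => 1 / ((n : ℝ) + 1)) Filter.atTop (nhds 0) :=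
    tendsto_one_div_add_atTop_nhds_zero_nat
  have h1 : Filter.Tendsto (fun n : ℕ => 2 / π * (I + 1 / ((n : ℝ) + 1) * L) + 3 / 5 * J n)
      Filter.atTop (nhds (2 / π * (I + 0 * L) + 3 / 5 * F)) :=
    (((h0.mul_const L).const_add I).const_mul (2 / π)).add (hJ.const_mul (3 / 5))
  have h2 : c ≤ 2 / π * (I + 0 * L) + 3 / 5 * F := ge_of_tendsto' h1 h
  have hp := Real.pi_pos
  have h3 : π / 2 * (2 / π * (I + 0 * L)) = I := by
    field_simp
    ring
  have h4 : π / 2 * c ≤ π / 2 * (2 / π * (I + 0 * L) + 3 / 5 * F) :=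
    mul_le_mul_of_nonneg_left h2 (by linarith)
  linarith

private theorem BoxI_mono (hχ : Cut f χ) (hH : π ≤ H) {δ T κ : ℝ} (hδ : 0 < δ) (hκ : 0 ≤ κ)
    (hT : 0 ≤ T) (hTL : T ≤ L) :
    ∫ r in (0 : ℝ)..T, (yy χ H δ r + κ * (1 - mm χ H δ r)) ≤
      ∫ r in (0 : ℝ)..L, (yy χ H δ r + κ * (1 - mm χ H δ r)) := by
  have hH0 : 0 ≤ H := Real.pi_pos.le.trans hH
  have hc : Continuous fun r => yy χ H δ r + κ * (1 - mm χ H δ r) :=
    (yy_cont hχ H δ).add (continuous_const.mul (continuous_const.sub (mm_cont hχ H δ)))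
  have h1 : ∀ r, 0 ≤ yy χ H δ r + κ * (1 - mm χ H δ r) := fun r =>
    add_nonneg (yy_pos hχ hH0 hδ r).le (mul_nonneg hκ (sub_nonneg.2 (mm_le_one χ H δ r)))
  rw [← intervalIntegral.integral_add_adjacent_intervals (hc.intervalIntegrable 0 T)
    (hc.intervalIntegrable T L)]
  have h2 : 0 ≤ ∫ r in T..L, (yy χ H δ r + κ * (1 - mm χ H δ r)) :=
    intervalIntegral.integral_nonneg hTL fun r _ => h1 r
  linarith

private theorem BoxI_split (hχ : Cut f χ) (hL : 0 ≤ L) (hH : 0 ≤ H) {δ κ : ℝ} :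
    ∫ r in (0 : ℝ)..L, (yy χ H δ r + κ * (1 - mm χ H δ r)) =
      2 / π * ((∫ z in bx 0 L 0 H, χ z) + δ * L) + κ * ∫ r in (0 : ℝ)..L, (1 - mm χ H δ r) := by
  have hc : Continuous fun r => κ * (1 - mm χ H δ r) :=
    continuous_const.mul (continuous_const.sub (mm_cont hχ H δ))
  rw [intervalIntegral.integral_add ((yy_cont hχ H δ).intervalIntegrable 0 L)
    (hc.intervalIntegrable 0 L), int_yy hχ hL hH, intervalIntegral.integral_const_mul]

private theorem BoxI_pos (n : ℕ) : (0 : ℝ) < 1 / ((n : ℝ) + 1) := by positivity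

theorem box_i (hf : CC f) (hχ : Cut f χ) (hL : π ≤ L) (hH : π ≤ H)
    (hE : En f (bx 0 L 0 H) < 0) :
    π / 2 * (101 / 40 - 3 / 5 * fl χ L H) ≤ ∫ z in bx 0 L 0 H, χ z := by
  have hL0 : 0 < L := Real.pi_pos.trans_le hL
  have hH0 : 0 ≤ H := Real.pi_pos.le.trans hH
  refine BoxI_lim (L := L) (near_full hχ hL0.le hH0) fun n => ?_
  have hδ := BoxI_pos n
  rw [← BoxI_split (δ := 1 / ((n : ℝ) + 1)) (κ := 3 / 5) hχ hL0.le hH0]
  rcases exists_run hf hχ hH hδ hL0 hE with ⟨T, φ, hT0, hTL, hr, hT⟩ | ⟨_, φ, hr, hend⟩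
  · have h1 := lemA_B hr hT
    have h2 := BoxI_mono hχ hH hδ (κ := 3 / 5) (by norm_num) hT0.le hTL
    linarith
  · exact lemA_N hr hL hend

theorem box_ii_left (hf : CC f) (hχ : Cut f χ) (hH : π ≤ H) {x0 : ℝ} (hx0 : 0 < x0)
    (hx1 : x0 ≤ L) (hz : ∀ y ∈ Icc 0 H, f (x0, y) = 0) (hE : En f (bx 0 x0 0 H) < 0) :
    π / 2 * (1299 / 500 - 3 / 5 * fl χ L H) ≤ ∫ z in bx 0 L 0 H, χ z := by
  have hL0 : 0 ≤ L := hx0.le.trans hx1
  have hH0 : 0 ≤ H := Real.pi_pos.le.trans hH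
  refine BoxI_lim (L := L) (near_full hχ hL0 hH0) fun n => ?_
  have hδ := BoxI_pos n
  rw [← BoxI_split (δ := 1 / ((n : ℝ) + 1)) (κ := 3 / 5) hχ hL0 hH0]
  rcases exists_run hf hχ hH hδ hx0 hE with ⟨T, φ, hT0, hTL, hr, hT⟩ | ⟨hne, _⟩
  · have h1 := lemA_B hr hT
    have h2 := BoxI_mono hχ hH hδ (κ := 3 / 5) (by norm_num) hT0.le (hTL.trans hx1)
    linarith
  · exact absurd hz hne

theorem box_iii (hf : CC f) (hχ : Cut f χ) (hL : π ≤ L) (hH : π ≤ H)
    (hE : En f (bx 0 L 0 H) < 0) (hX : ∀ x ∈ Icc 0 L, 1 / 5 ≤ col χ H x) :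
    π / 2 * (1201 / 500) ≤ ∫ z in bx 0 L 0 H, χ z := by
  have hL0 : 0 < L := Real.pi_pos.trans_le hL
  have hH0 : 0 ≤ H := Real.pi_pos.le.trans hH
  have key := BoxI_lim (c := 1201 / 500) (I := ∫ z in bx 0 L 0 H, χ z) (F := 0) (L := L)
    (J := fun _ => 0) tendsto_const_nhds fun n => ?_
  · have h1 : π / 2 * (1201 / 500 - 3 / 5 * 0) = π / 2 * (1201 / 500) := by ring
    linarith
  have hδ := BoxI_pos n
  have h3 := int_yy (δ := 1 / ((n : ℝ) + 1)) hχ hL0.le hH0
  have hY : ∀ t ∈ Icc 0 L, 127 / 1000 ≤ yy χ H (1 / ((n : ℝ) + 1)) t := fun t ht => by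
    have h4 := hX t ht
    have h5 := Real.pi_lt_d4
    rw [yy, le_div_iff₀ Real.pi_pos]
    linarith
  have h6 : 1201 / 500 ≤ ∫ r in (0 : ℝ)..L, yy χ H (1 / ((n : ℝ) + 1)) r := by
    rcases exists_run hf hχ hH hδ hL0 hE with ⟨T, φ, hT0, hTL, hr, hT⟩ | ⟨_, φ, hr, hend⟩
    · exact lemB hr hTL hL (Or.inr hT) hY
    · exact lemB hr le_rfl hL (Or.inl ⟨rfl, hend⟩) hY
  linarith

end Pool.Agent.W_1ab439_h81b

end BoxI

section BoxL

/-!
BoxL (M).  The Box Lemma (row 523, section 4).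

`box_ii`: `χ (x0,·) = 0` on `[0,H]` (col_eq_zero), so `f (x0,·) = 0` there.  `En f (bx 0 L 0 H) = En f (bx 0 x0 0 H) + En f (bx x0 L 0 H)` (bx_add_x for `den f`), so one
is negative; an empty box has energy `0`, so `x0 > 0` resp. `x0 < L`.  Left: box_ii_left.  Right: box_ii_left for the reflected functions `z ↦ f (L - z.1, z.2)`, with
`L - x0`; `fl` and the integral of `χ` do not change (refl_int; `col (reflected χ) H x = col χ H (L - x)`, `fl`: the reflection `x ↦ L - x` preserves the measure of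
`{x ∈ Icc 0 L | ...}`).
`row_i`, `row_iii`: box_i, box_iii for the swapped functions (swap_cut, swap_En, swap_int, g2_cc): `col (χ ∘ swap) L y = ∫ x in 0..L, χ (x,y)`.
`full_row_col`: if `G = fl (χ ∘ swap) H L` then `col χ H x ≥ G` for `x ∈ [0,L]`: on a full row `χ (x,y) = 1`, so
`col χ H x = ∫ y in 0..H, χ (x,y) ≥` measure of the set of full rows (indicator function below `χ (x,·)` on `[0,H]`).
`box_lemma`: cases as in row 523.  Let `A i` = `∃ x ∈ Icc 0 L, col (χ i) H x = H`, `B i` the same for rows.  If `A i` fails, `fl (χ i) L H = 0`.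
If (¬A 1 ∨ ¬B 1) and (¬A 2 ∨ ¬B 2): each integral is `≥ π/2 * 101/40`.  Otherwise (say) A 1 and B 1: with `x0` full for `χ 1`: `χ 2 = 0` on the column `x0`, so
`col χ 2 x0 = 0`, and no column of `χ 2` is full (B 1: a full row of `χ 1` meets every column), so `fl (χ 2) = 0` and box_ii gives `π/2 * 1299/500`.  For `χ 1`: if `fl ≤ 1/5`
box_i; if the row version is `≤ 1/5`, row_i; otherwise full_row_col and box_iii.  `1299/500 + 1201/500 = 5`, `101/40 - 3/25 ≥ 1201/500`.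
-/

set_option autoImplicit false

open MeasureTheory Set Real

namespace Pool.Agent.W_1ab439_h81b

open Pool.Agent.W_1ab439_h81

variable {f χ : ℝ × ℝ → ℝ} {H L : ℝ}

private theorem BoxL_meas (hχ : Cut f χ) (L H : ℝ) :
    MeasurableSet {x : ℝ | x ∈ Icc 0 L ∧ col χ H x = H} := by
  have h1 : MeasurableSet {x : ℝ | col χ H x = H} :=
    (isClosed_eq (col_cont hχ H) continuous_const).measurableSet
  exact measurableSet_Icc.inter h1

private theorem BoxL_fl_refl (hχ : Cut f χ) (L H : ℝ) :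
    fl (fun z => χ (L - z.1, z.2)) L H = fl χ L H := by
  unfold fl
  congr 1
  have h1 : {x : ℝ | x ∈ Icc 0 L ∧ col (fun z => χ (L - z.1, z.2)) H x = H} =
      (fun x => L - x) ⁻¹' {x : ℝ | x ∈ Icc 0 L ∧ col χ H x = H} := by
    ext x
    simp only [mem_setOf_eq, mem_preimage, mem_Icc]
    have h2 : col (fun z => χ (L - z.1, z.2)) H x = col χ H (L - x) := rfl
    rw [h2]
    constructor
    · rintro ⟨⟨h3, h4⟩, h5⟩
      exact ⟨⟨by linarith, by linarith⟩, h5⟩
    · rintro ⟨⟨h3, h4⟩, h5⟩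
      exact ⟨⟨by linarith, by linarith⟩, h5⟩
  rw [h1]
  exact ((volume : Measure ℝ).measurePreserving_sub_left L).measure_preimage
    (BoxL_meas hχ L H).nullMeasurableSet

private theorem BoxL_fl_zero {χ : ℝ × ℝ → ℝ} {L H : ℝ}
    (h : ¬ ∃ x ∈ Icc 0 L, col χ H x = H) : fl χ L H = 0 := by
  have h1 : {x : ℝ | x ∈ Icc 0 L ∧ col χ H x = H} = ∅ := by
    ext x
    simp only [mem_setOf_eq, mem_empty_iff_false, iff_false]
    rintro ⟨h2, h3⟩
    exact h ⟨x, h2, h3⟩
  unfold fl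
  rw [h1, measure_empty]
  rfl

theorem box_ii (hf : CC f) (hχ : Cut f χ) (hL : 0 < L) (hH : π ≤ H) {x0 : ℝ}
    (hx0 : x0 ∈ Icc 0 L) (hX : col χ H x0 = 0) (hE : En f (bx 0 L 0 H) < 0) :
    π / 2 * (1299 / 500 - 3 / 5 * fl χ L H) ≤ ∫ z in bx 0 L 0 H, χ z := by
  have hH0 : 0 < H := Real.pi_pos.trans_le hH
  have hz : ∀ y ∈ Icc 0 H, f (x0, y) = 0 := by
    intro y hy
    by_contra hne
    have h1 := hχ.one _ hne
    rw [col_eq_zero hχ hH0 hX hy] at h1
    exact zero_ne_one h1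
  have hemp : ∀ a c d : ℝ, En f (bx a a c d) = 0 := by
    intro a c d
    unfold En bx
    rw [Ioo_self, empty_prod, setIntegral_empty]
  have hsplit : En f (bx 0 L 0 H) = En f (bx 0 x0 0 H) + En f (bx x0 L 0 H) :=
    bx_add_x hf.den_int hx0.1 hx0.2 0 H
  by_cases h1 : En f (bx 0 x0 0 H) < 0
  · have hx : 0 < x0 := by
      rcases hx0.1.eq_or_lt with h | h
      · rw [← h, hemp] at h1
        exact absurd h1 (lt_irrefl _)
      · exact h
    exact box_ii_left hf hχ hH hx hx0.2 hz h1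
  · have h2 : En f (bx x0 L 0 H) < 0 := by linarith
    have hx : x0 < L := by
      rcases hx0.2.eq_or_lt with h | h
      · rw [h, hemp] at h2
        exact absurd h2 (lt_irrefl _)
      · exact h
    have h3 : En (fun z => f (L - z.1, z.2)) (bx 0 (L - x0) 0 H) < 0 := by
      have h4 := refl_En hf L x0 L 0 H
      rw [sub_self] at h4
      rw [h4]
      exact h2
    have hz' : ∀ y ∈ Icc 0 H, (fun z : ℝ × ℝ => f (L - z.1, z.2)) (L - x0, y) = 0 := by
      intro y hy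
      have h5 : L - (L - x0) = x0 := by ring
      change f (L - (L - x0), y) = 0
      rw [h5]
      exact hz y hy
    have h6 := box_ii_left (refl_CC hf L) (refl_cut hχ L) hH (by linarith : 0 < L - x0)
      (by linarith [hx0.1] : L - x0 ≤ L) hz' h3
    rw [BoxL_fl_refl hχ L H] at h6
    have h7 := refl_int χ L 0 L 0 H
    rw [sub_self, sub_zero] at h7
    rw [h7] at h6
    exact h6

theorem row_i (hf : CC f) (hχ : Cut f χ) (hL : π ≤ L) (hH : π ≤ H)
    (hE : En f (bx 0 L 0 H) < 0) :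
    π / 2 * (101 / 40 - 3 / 5 * fl (fun z => χ z.swap) H L) ≤ ∫ z in bx 0 L 0 H, χ z := by
  have h1 := box_i (g2_cc hf) (swap_cut hχ) hH hL (by rw [swap_En hf 0 L 0 H]; exact hE)
  rw [swap_int χ 0 L 0 H] at h1
  exact h1

theorem full_row_col (hχ : Cut f χ) (hL : 0 < L) (hH : 0 < H) {x : ℝ} (hx : x ∈ Icc 0 L) :
    fl (fun z => χ z.swap) H L ≤ col χ H x := by
  set S : Set ℝ := {y : ℝ | y ∈ Icc 0 H ∧ col (fun z => χ z.swap) L y = L} with hS
  have hSm : MeasurableSet S := BoxL_meas (swap_cut hχ) H L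
  have hSsub : S ⊆ Icc 0 H := fun y hy => hy.1
  have h1 : ∀ y ∈ S, χ (x, y) = 1 := by
    intro y hy
    exact col_eq (swap_cut hχ) hL hy.2 hx
  have hcont : Continuous fun y => χ (x, y) := hχ.cont.comp (by fun_prop)
  have h2 : fl (fun z => χ z.swap) H L = ∫ y in S, χ (x, y) := by
    rw [setIntegral_congr_fun hSm h1, setIntegral_const, smul_eq_mul, mul_one]
    rfl
  have h3 : col χ H x = ∫ y in Icc 0 H, χ (x, y) := by
    unfold col
    rw [intervalIntegral.integral_of_le hH.le, integral_Icc_eq_integral_Ioc]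
  rw [h2, h3]
  refine setIntegral_mono_set (hcont.continuousOn.integrableOn_compact isCompact_Icc) ?_
    (HasSubset.Subset.eventuallyLE hSsub)
  exact Filter.Eventually.of_forall fun y => hχ.nonneg _

private theorem BoxL_est (hf : CC f) (hχ : Cut f χ) (hL : π ≤ L) (hH : π ≤ H)
    (hE : En f (bx 0 L 0 H) < 0)
    (h : ¬ (∃ x ∈ Icc 0 L, col χ H x = H) ∨
      ¬ (∃ y ∈ Icc 0 H, col (fun z => χ z.swap) L y = L)) :
    π / 2 * (101 / 40) ≤ ∫ z in bx 0 L 0 H, χ z := by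
  rcases h with h | h
  · have h1 := box_i hf hχ hL hH hE
    rw [BoxL_fl_zero h, mul_zero, sub_zero] at h1
    exact h1
  · have h1 := row_i hf hχ hL hH hE
    rw [BoxL_fl_zero h, mul_zero, sub_zero] at h1
    exact h1

private theorem BoxL_aux {f₁ f₂ χ₁ χ₂ : ℝ × ℝ → ℝ} (hf₁ : CC f₁) (hf₂ : CC f₂)
    (hχ₁ : Cut f₁ χ₁) (hχ₂ : Cut f₂ χ₂) (hsum : ∀ z, χ₁ z + χ₂ z ≤ 1) (hL : π ≤ L) (hH : π ≤ H)
    (hE₁ : En f₁ (bx 0 L 0 H) < 0) (hE₂ : En f₂ (bx 0 L 0 H) < 0)
    (hA : ∃ x ∈ Icc 0 L, col χ₁ H x = H)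
    (hB : ∃ y ∈ Icc 0 H, col (fun z => χ₁ z.swap) L y = L) :
    5 * π / 2 ≤ (∫ z in bx 0 L 0 H, χ₁ z) + ∫ z in bx 0 L 0 H, χ₂ z := by
  have hpi := Real.pi_pos
  have hL0 : 0 < L := hpi.trans_le hL
  have hH0 : 0 < H := hpi.trans_le hH
  obtain ⟨x0, hx0, hx0'⟩ := hA
  obtain ⟨y0, hy0, hy0'⟩ := hB
  have hcol : col χ₂ H x0 = 0 := by
    have h1 : ∀ y ∈ Set.uIcc 0 H, χ₂ (x0, y) = 0 := by
      intro y hy
      rw [uIcc_of_le hH0.le] at hy
      have h2 := col_eq hχ₁ hH0 hx0' hy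
      have h3 := hsum (x0, y)
      have h4 := hχ₂.nonneg (x0, y)
      linarith
    unfold col
    rw [intervalIntegral.integral_congr h1, intervalIntegral.integral_zero]
  have hno : ¬ ∃ x ∈ Icc 0 L, col χ₂ H x = H := by
    rintro ⟨x, hx, hxc⟩
    have h1 := col_eq hχ₂ hH0 hxc hy0
    have h2 : χ₁ (x, y0) = 1 := col_eq (swap_cut hχ₁) hL0 hy0' hx
    have h3 := hsum (x, y0)
    linarith
  have h2 := box_ii hf₂ hχ₂ hL0 hH hx0 hcol hE₂
  rw [BoxL_fl_zero hno, mul_zero, sub_zero] at h2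
  have h1 : π / 2 * (1201 / 500) ≤ ∫ z in bx 0 L 0 H, χ₁ z := by
    by_cases hF : fl χ₁ L H ≤ 1 / 5
    · refine le_trans ?_ (box_i hf₁ hχ₁ hL hH hE₁)
      refine mul_le_mul_of_nonneg_left ?_ (by positivity)
      linarith
    · by_cases hG : fl (fun z => χ₁ z.swap) H L ≤ 1 / 5
      · refine le_trans ?_ (row_i hf₁ hχ₁ hL hH hE₁)
        refine mul_le_mul_of_nonneg_left ?_ (by positivity)
        linarith
      · refine box_iii hf₁ hχ₁ hL hH hE₁ ?_
        intro x hx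
        have h3 := full_row_col hχ₁ hL0 hH0 hx
        linarith [not_le.1 hG]
  linarith

theorem box_lemma {f₁ f₂ χ₁ χ₂ : ℝ × ℝ → ℝ} (hf₁ : CC f₁) (hf₂ : CC f₂) (hχ₁ : Cut f₁ χ₁)
    (hχ₂ : Cut f₂ χ₂) (hsum : ∀ z, χ₁ z + χ₂ z ≤ 1) (hL : π ≤ L) (hH : π ≤ H)
    (hE₁ : En f₁ (bx 0 L 0 H) < 0) (hE₂ : En f₂ (bx 0 L 0 H) < 0) :
    5 * π / 2 ≤ (∫ z in bx 0 L 0 H, χ₁ z) + ∫ z in bx 0 L 0 H, χ₂ z := by
  have hpi := Real.pi_pos
  by_cases h1 : (∃ x ∈ Icc 0 L, col χ₁ H x = H) ∧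
      (∃ y ∈ Icc 0 H, col (fun z => χ₁ z.swap) L y = L)
  · exact BoxL_aux hf₁ hf₂ hχ₁ hχ₂ hsum hL hH hE₁ hE₂ h1.1 h1.2
  · by_cases h2 : (∃ x ∈ Icc 0 L, col χ₂ H x = H) ∧
        (∃ y ∈ Icc 0 H, col (fun z => χ₂ z.swap) L y = L)
    · have h3 := BoxL_aux hf₂ hf₁ hχ₂ hχ₁ (fun z => by linarith [hsum z]) hL hH hE₂ hE₁
        h2.1 h2.2
      linarith
    · have h3 := BoxL_est hf₁ hχ₁ hL hH hE₁ (not_and_or.1 h1)
      have h4 := BoxL_est hf₂ hχ₂ hL hH hE₂ (not_and_or.1 h2)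
      linarith

end Pool.Agent.W_1ab439_h81b

end BoxL
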