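import Mathlib
import Pool.Agent.W_1ab439_h81b.Box

section SplitF

/-!
SplitF (M, Mathlib only).  Splitting a negative definite sum of two symmetric forms (row 523, section 6).

Choose `W1` with `B1` negative definite on it and of maximal dimension (`⊥` is one; the dimensions are bounded by `finrank E`).  Let
`W2 = {x | ∀ w ∈ W1, B1 w x = 0}`; `finrank E ≤ finrank W1 + finrank W2` (it is the kernel of the linear map `E → Dual W1`, `x ↦ (w ↦ B1 w x)`; rank-nullity).
`B1 x x ≥ 0` for `x ∈ W2`: if `B1 x x < 0`, then `x ∉ W1` (else `B1 x x = 0`), and `B1` is negative definite on `W1 ⊔ span {x}`: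
`B1 (w + a x) (w + a x) = B1 w w + a^2 B1 x x` (symmetry, orthogonality), of dimension `finrank W1 + 1`: contradiction.  So for `0 ≠ x ∈ W2`: `B2 x x < -B1 x x ≤ 0`.
-/

set_option autoImplicit false

namespace Pool.Agent.W_1ab439_h81b

theorem split_forms {E : Type} [AddCommGroup E] [Module ℝ E] [FiniteDimensional ℝ E]
    (B1 B2 : E →ₗ[ℝ] E →ₗ[ℝ] ℝ) (s1 : ∀ x y, B1 x y = B1 y x)
    (hneg : ∀ x, x ≠ 0 → B1 x x + B2 x x < 0) :
    ∃ W1 W2 : Submodule ℝ E, (∀ x ∈ W1, x ≠ 0 → B1 x x < 0) ∧ (∀ x ∈ W2, x ≠ 0 → B2 x x < 0) ∧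
      Module.finrank ℝ E ≤ Module.finrank ℝ W1 + Module.finrank ℝ W2 := by
  obtain ⟨W1, hW1, hmax⟩ : ∃ W1 : Submodule ℝ E, (∀ x ∈ W1, x ≠ 0 → B1 x x < 0) ∧
      ∀ W : Submodule ℝ E, (∀ x ∈ W, x ≠ 0 → B1 x x < 0) →
        Module.finrank ℝ W ≤ Module.finrank ℝ W1 := by
    obtain ⟨W1, h1, h2⟩ := WellFounded.has_min
      (measure (fun W : Submodule ℝ E => Module.finrank ℝ E - Module.finrank ℝ W)).wf
      {W : Submodule ℝ E | ∀ x ∈ W, x ≠ 0 → B1 x x < 0}
      ⟨⊥, fun x hx hx0 => absurd ((Submodule.mem_bot ℝ).1 hx) hx0⟩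
    refine ⟨W1, h1, fun W hW => ?_⟩
    have h3 : ¬ (Module.finrank ℝ E - Module.finrank ℝ W <
        Module.finrank ℝ E - Module.finrank ℝ W1) := h2 W hW
    have h4 := Submodule.finrank_le W
    have h5 := Submodule.finrank_le W1
    omega
  let L : E →ₗ[ℝ] (W1 →ₗ[ℝ] ℝ) := (LinearMap.lcomp ℝ ℝ W1.subtype).comp B1
  have hL : ∀ x : E, x ∈ LinearMap.ker L → ∀ w ∈ W1, B1 x w = 0 := by
    intro x hx w hw
    have h1 : L x ⟨w, hw⟩ = 0 := by
      rw [LinearMap.mem_ker.1 hx]
      rfl
    exact h1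
  refine ⟨W1, LinearMap.ker L, hW1, ?_, ?_⟩
  · intro x hx hx0
    have h1 : 0 ≤ B1 x x := by
      by_contra hneg1
      push Not at hneg1
      have hxW : x ∉ W1 := fun h => absurd (hL x hx x h) hneg1.ne
      have hlt : W1 < W1 ⊔ Submodule.span ℝ {x} := by
        refine lt_of_le_of_ne le_sup_left (fun h => hxW ?_)
        rw [h]
        exact Submodule.mem_sup_right (Submodule.mem_span_singleton_self x)
      have h2 := Submodule.finrank_lt_finrank_of_lt hlt
      have h3 := hmax (W1 ⊔ Submodule.span ℝ {x}) (by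
        intro y hy hy0
        obtain ⟨w, hw, z, hz, rfl⟩ := Submodule.mem_sup.1 hy
        obtain ⟨a, rfl⟩ := Submodule.mem_span_singleton.1 hz
        have e1 : B1 x w = 0 := hL x hx w hw
        have e2 : B1 w x = 0 := by rw [s1, e1]
        have e3 : B1 (w + a • x) (w + a • x) = B1 w w + a ^ 2 * B1 x x := by
          simp only [map_add, map_smul, LinearMap.add_apply, LinearMap.smul_apply, smul_eq_mul,
            e1, e2]
          ring
        rw [e3]
        by_cases hw0 : w = 0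
        · subst hw0
          have ha : a ≠ 0 := by
            rintro rfl
            apply hy0
            simp
          have ha2 : 0 < a ^ 2 := by positivity
          have e4 : B1 (0 : E) (0 : E) = 0 := by simp
          rw [e4]
          nlinarith
        · have e4 := hW1 w hw hw0
          nlinarith [sq_nonneg a])
      omega
    have h2 := hneg x hx0
    linarith
  · have h1 := LinearMap.finrank_range_add_finrank_ker L
    have h2 : Module.finrank ℝ (LinearMap.range L) ≤ Module.finrank ℝ (W1 →ₗ[ℝ] ℝ) :=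
      Submodule.finrank_le _
    have h3 : Module.finrank ℝ (W1 →ₗ[ℝ] ℝ) = Module.finrank ℝ W1 :=
      Subspace.dual_finrank_eq
    omega

end Pool.Agent.W_1ab439_h81b

end SplitF

section Forms

/-!
Forms (M).  The energy forms of a finite family.

`lc_CC`, `dx_lc`, `dy_lc`: sums of CC functions (compare CC.lin, dx_lin in `W_1ab439_h81/Basic.lean`; induction over the finset, or `fderiv_fun_sum`).
`QB v S` is the bilinear form with matrix `BEn (v i) (v j) S`.  `En_lc`: `den (lc v c) = ∑ i, ∑ j, c i * c j * bden (v i) (v j)`, integrate.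
`neg_split`: restrict the forms of `S1`, `S2` to `W` (`E = ↥W`), split_forms, map the subspaces back by `W.subtype` (`Submodule.map`, finrank preserved:
`LinearMap.finrank_map_subtype`-type or `Submodule.finrank_map_subtype_eq`).  Symmetric since `bden` is.
`exists_sub`: a subspace of smaller dimension inside a subspace (`Submodule.exists_le_finrank`-type: take a basis, span of the first `n` vectors).
-/

set_option autoImplicit false

open MeasureTheory Set Real

namespace Pool.Agent.W_1ab439_h81b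

open Pool.Agent.W_1ab439_h81

variable {ι : Type} [Fintype ι] {v : ι → ℝ × ℝ → ℝ}

private theorem Forms_zero : CC (fun _ : ℝ × ℝ => (0 : ℝ)) :=
  ⟨contDiff_const, HasCompactSupport.zero⟩

theorem lc_CC (hv : ∀ i, CC (v i)) (c : ι → ℝ) : CC (lc v c) := by
  classical
  have h : ∀ s : Finset ι, CC (fun z : ℝ × ℝ => ∑ i ∈ s, c i * v i z) := by
    intro s
    induction s using Finset.induction_on with
    | empty => simpa using Forms_zero
    | insert a s ha ih =>
      have h1 : (fun z : ℝ × ℝ => ∑ i ∈ insert a s, c i * v i z) =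
          fun z => c a * v a z + ∑ i ∈ s, c i * v i z := by
        funext z
        rw [Finset.sum_insert ha]
      rw [h1]
      exact ((hv a).smul (c a)).add ih
  exact h Finset.univ

private theorem Forms_fderiv (hv : ∀ i, CC (v i)) (c : ι → ℝ) (z : ℝ × ℝ) :
    fderiv ℝ (lc v c) z = ∑ i, c i • fderiv ℝ (v i) z := by
  have h1 : lc v c = fun y => ∑ i, c i * v i y := rfl
  rw [h1, fderiv_fun_sum fun i _ => ((hv i).smul (c i)).diff z]
  refine Finset.sum_congr rfl fun i _ => ?_
  exact fderiv_const_mul ((hv i).diff z) (c i)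

private theorem Forms_dx (hv : ∀ i, CC (v i)) (c : ι → ℝ) (z : ℝ × ℝ) :
    dx (lc v c) z = ∑ i, c i * dx (v i) z := by
  unfold dx
  rw [Forms_fderiv hv, _root_.sum_apply]
  rfl

private theorem Forms_dy (hv : ∀ i, CC (v i)) (c : ι → ℝ) (z : ℝ × ℝ) :
    dy (lc v c) z = ∑ i, c i * dy (v i) z := by
  unfold dy
  rw [Forms_fderiv hv, _root_.sum_apply]
  rfl

private theorem Forms_bden (hv : ∀ i, CC (v i)) (c d : ι → ℝ) (z : ℝ × ℝ) :
    bden (lc v c) (lc v d) z = ∑ i, ∑ j, c i * d j * bden (v i) (v j) z := by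
  unfold bden
  rw [Forms_dx hv, Forms_dx hv, Forms_dy hv, Forms_dy hv, lc, lc, Finset.sum_mul_sum,
    Finset.sum_mul_sum, Finset.sum_mul_sum]
  rw [← Finset.sum_add_distrib, ← Finset.sum_sub_distrib]
  refine Finset.sum_congr rfl fun i _ => ?_
  rw [← Finset.sum_add_distrib, ← Finset.sum_sub_distrib]
  refine Finset.sum_congr rfl fun j _ => ?_
  ring

theorem bden_int_bx {f g : ℝ × ℝ → ℝ} (hf : CC f) (hg : CC g) : Integrable (bden f g) :=
  hf.bden_int hg

theorem En_lc (hv : ∀ i, CC (v i)) (c : ι → ℝ) (S : Set (ℝ × ℝ)) :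
    En (lc v c) S = ∑ i, ∑ j, c i * c j * BEn (v i) (v j) S := by
  have h1 : ∀ z, den (lc v c) z = ∑ i, ∑ j, c i * c j * bden (v i) (v j) z := by
    intro z
    rw [den_eq_bden, Forms_bden hv]
  have h2 : ∀ i j, Integrable (fun z => c i * c j * bden (v i) (v j) z) (volume.restrict S) :=
    fun i j => (((hv i).bden_int (hv j)).const_mul (c i * c j)).integrableOn
  unfold En BEn
  simp only [h1]
  rw [integral_finsetSum _ fun i _ => integrable_finsetSum _ fun j _ => h2 i j]
  refine Finset.sum_congr rfl fun i _ => ?_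
  rw [integral_finsetSum _ fun j _ => h2 i j]
  refine Finset.sum_congr rfl fun j _ => ?_
  rw [integral_const_mul]

private theorem Forms_symm (f g : ℝ × ℝ → ℝ) (S : Set (ℝ × ℝ)) : BEn f g S = BEn g f S := by
  unfold BEn
  have h : bden f g = bden g f := by
    funext z
    unfold bden
    ring
  rw [h]

/-- the bilinear form with matrix `BEn (v i) (v j) S` -/
private noncomputable def Forms_QB (v : ι → ℝ × ℝ → ℝ) (S : Set (ℝ × ℝ)) :
    (ι → ℝ) →ₗ[ℝ] (ι → ℝ) →ₗ[ℝ] ℝ :=
  LinearMap.mk₂ ℝ (fun c d => ∑ i, ∑ j, c i * d j * BEn (v i) (v j) S)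
    (by
      intro c c' d
      rw [← Finset.sum_add_distrib]
      refine Finset.sum_congr rfl fun i _ => ?_
      rw [← Finset.sum_add_distrib]
      refine Finset.sum_congr rfl fun j _ => ?_
      rw [Pi.add_apply]
      ring)
    (by
      intro a c d
      rw [Finset.smul_sum]
      refine Finset.sum_congr rfl fun i _ => ?_
      rw [Finset.smul_sum]
      refine Finset.sum_congr rfl fun j _ => ?_
      rw [Pi.smul_apply, smul_eq_mul, smul_eq_mul]
      ring)
    (by
      intro c d d'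
      rw [← Finset.sum_add_distrib]
      refine Finset.sum_congr rfl fun i _ => ?_
      rw [← Finset.sum_add_distrib]
      refine Finset.sum_congr rfl fun j _ => ?_
      rw [Pi.add_apply]
      ring)
    (by
      intro a c d
      rw [Finset.smul_sum]
      refine Finset.sum_congr rfl fun i _ => ?_
      rw [Finset.smul_sum]
      refine Finset.sum_congr rfl fun j _ => ?_
      rw [Pi.smul_apply, smul_eq_mul, smul_eq_mul]
      ring)

private theorem Forms_QB_apply (v : ι → ℝ × ℝ → ℝ) (S : Set (ℝ × ℝ)) (c d : ι → ℝ) :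
    Forms_QB v S c d = ∑ i, ∑ j, c i * d j * BEn (v i) (v j) S := rfl

private theorem Forms_QB_symm (v : ι → ℝ × ℝ → ℝ) (S : Set (ℝ × ℝ)) (c d : ι → ℝ) :
    Forms_QB v S c d = Forms_QB v S d c := by
  rw [Forms_QB_apply, Forms_QB_apply, Finset.sum_comm]
  refine Finset.sum_congr rfl fun i _ => Finset.sum_congr rfl fun j _ => ?_
  rw [Forms_symm (v j) (v i)]
  ring

theorem neg_split (hv : ∀ i, CC (v i)) {W : Submodule ℝ (ι → ℝ)} {S S1 S2 : Set (ℝ × ℝ)}
    (hadd : ∀ i j, BEn (v i) (v j) S = BEn (v i) (v j) S1 + BEn (v i) (v j) S2)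
    (hW : Neg v W S) :
    ∃ W1 W2 : Submodule ℝ (ι → ℝ), W1 ≤ W ∧ W2 ≤ W ∧ Neg v W1 S1 ∧ Neg v W2 S2 ∧
      Module.finrank ℝ W ≤ Module.finrank ℝ W1 + Module.finrank ℝ W2 := by
  obtain ⟨U1, U2, h1, h2, h3⟩ := split_forms (E := ↥W)
    ((Forms_QB v S1).domRestrict₁₂ W W) ((Forms_QB v S2).domRestrict₁₂ W W)
    (fun x y => Forms_QB_symm v S1 x y) (by
      intro x hx
      have e1 : Forms_QB v S1 x x + Forms_QB v S2 x x = En (lc v x) S := by
        rw [Forms_QB_apply, Forms_QB_apply, En_lc hv, ← Finset.sum_add_distrib]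
        refine Finset.sum_congr rfl fun i _ => ?_
        rw [← Finset.sum_add_distrib]
        refine Finset.sum_congr rfl fun j _ => ?_
        rw [hadd i j]
        ring
      have e2 := hW x.1 x.2 fun h => hx (Subtype.ext h)
      rw [← e1] at e2
      exact e2)
  refine ⟨U1.map W.subtype, U2.map W.subtype, Submodule.map_subtype_le W U1,
    Submodule.map_subtype_le W U2, ?_, ?_, ?_⟩
  · intro c hc hc0
    obtain ⟨x, hx, rfl⟩ := Submodule.mem_map.1 hc
    have e := h1 x hx fun h => hc0 (by rw [h, map_zero])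
    rw [En_lc hv]
    exact e
  · intro c hc hc0
    obtain ⟨x, hx, rfl⟩ := Submodule.mem_map.1 hc
    have e := h2 x hx fun h => hc0 (by rw [h, map_zero])
    rw [En_lc hv]
    exact e
  · rw [Submodule.finrank_map_subtype_eq, Submodule.finrank_map_subtype_eq]
    exact h3

theorem exists_sub {W : Submodule ℝ (ι → ℝ)} {n : ℕ} (hn : n ≤ Module.finrank ℝ W) :
    ∃ W' : Submodule ℝ (ι → ℝ), W' ≤ W ∧ Module.finrank ℝ W' = n := by
  obtain ⟨f, hf⟩ := exists_linearIndependent_of_le_finrank hn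
  refine ⟨(Submodule.span ℝ (Set.range f)).map W.subtype, Submodule.map_subtype_le W _, ?_⟩
  rw [Submodule.finrank_map_subtype_eq, finrank_span_eq_card hf, Fintype.card_fin]

theorem Neg.mono {W W' : Submodule ℝ (ι → ℝ)} {S : Set (ℝ × ℝ)} (h : Neg v W S) (hW : W' ≤ W) :
    Neg v W' S :=
  fun c hc h0 => h c (hW hc) h0

end Pool.Agent.W_1ab439_h81b

end Forms

section OpenN

/-!
OpenN (M).  Openness of negativity.

General: if `M i j : ℝ → ℝ` are continuous then `{t | ∀ c ∈ W, c ≠ 0 → ∑ i, ∑ j, c i * c j * M i j t < 0}` is open: by homogeneity it is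
`{t | ∀ c ∈ K, F (t,c) < 0}` with `K = W ∩ sphere 0 1` compact (`W` closed, finite-dimensional) and `F` continuous (compare `open_neg`-type lemmas in
`W_1ab439_h81/CutL.lean`; tube lemma: `IsCompact.isOpen_forall`-type, or by closedness: the complement is the projection along `K` of a closed set,
`isClosedMap_fst_of_compactSpace`, or sequences).
Then `open_right`, `open_left` by En_lc and bx_cont_right / bx_cont_left for `bden (v i) (v j)`; finally the union over all `W' ≤ W` with `finrank W' = m`.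
-/

set_option autoImplicit false

open MeasureTheory Set Real

namespace Pool.Agent.W_1ab439_h81b

open Pool.Agent.W_1ab439_h81

variable {ι : Type} [Fintype ι] {v : ι → ℝ × ℝ → ℝ}

private theorem OpenN_homog (M : ι → ι → ℝ) (r : ℝ) (c : ι → ℝ) :
    ∑ i, ∑ j, (r • c) i * (r • c) j * M i j = r ^ 2 * ∑ i, ∑ j, c i * c j * M i j := by
  rw [Finset.mul_sum]
  refine Finset.sum_congr rfl fun i _ => ?_
  rw [Finset.mul_sum]
  refine Finset.sum_congr rfl fun j _ => ?_
  simp only [Pi.smul_apply, smul_eq_mul]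
  ring

theorem open_forms {M : ι → ι → ℝ → ℝ} (hM : ∀ i j, Continuous (M i j))
    (W : Submodule ℝ (ι → ℝ)) :
    IsOpen {t : ℝ | ∀ c ∈ W, c ≠ 0 → ∑ i, ∑ j, c i * c j * M i j t < 0} := by
  have hK : IsCompact ((W : Set (ι → ℝ)) ∩ Metric.sphere (0 : ι → ℝ) 1) :=
    (isCompact_sphere (0 : ι → ℝ) 1).inter_left W.closed_of_finiteDimensional
  have hF : Continuous fun z : ℝ × (ι → ℝ) => ∑ i, ∑ j, z.2 i * z.2 j * M i j z.1 := by
    refine continuous_finsetSum _ fun i _ => continuous_finsetSum _ fun j _ => ?_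
    exact (((continuous_apply i).comp continuous_snd).mul
      ((continuous_apply j).comp continuous_snd)).mul ((hM i j).comp continuous_fst)
  have e : {t : ℝ | ∀ c ∈ W, c ≠ 0 → ∑ i, ∑ j, c i * c j * M i j t < 0}
      = {t : ℝ | ∀ c ∈ (W : Set (ι → ℝ)) ∩ Metric.sphere (0 : ι → ℝ) 1,
        ∑ i, ∑ j, c i * c j * M i j t < 0} := by
    ext t
    simp only [mem_ofPred_eq]
    constructor
    · rintro h c ⟨hc, hs⟩
      refine h c hc ?_
      rintro rfl
      simp at hs
    · intro h c hc h0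
      have hn : 0 < ‖c‖ := norm_pos_iff.2 h0
      have h1 := h (‖c‖⁻¹ • c) ⟨W.smul_mem _ hc, by
        rw [mem_sphere_zero_iff_norm, norm_smul, norm_inv, norm_norm, inv_mul_cancel₀ hn.ne']⟩
      rw [OpenN_homog (fun i j => M i j t)] at h1
      have h2 : 0 < ‖c‖⁻¹ ^ 2 := by positivity
      by_contra h3
      push Not at h3
      exact absurd h1 (not_lt.2 (mul_nonneg h2.le h3))
  rw [e, isOpen_iff_mem_nhds]
  intro t ht
  refine hK.eventually_forall_of_forall_eventually
    (P := fun t c => ∑ i, ∑ j, c i * c j * M i j t < 0) fun c hc => ?_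
  exact (hF.tendsto (t, c)).eventually (gt_mem_nhds (ht c hc))

theorem open_right (hv : ∀ i, CC (v i)) (W : Submodule ℝ (ι → ℝ)) (m : ℕ) (a c d : ℝ) :
    IsOpen {t : ℝ | ∃ W' : Submodule ℝ (ι → ℝ), W' ≤ W ∧ Module.finrank ℝ W' = m ∧
      Neg v W' (bx a t c d)} := by
  have e : {t : ℝ | ∃ W' : Submodule ℝ (ι → ℝ), W' ≤ W ∧ Module.finrank ℝ W' = m ∧
      Neg v W' (bx a t c d)} = ⋃ W' : {W' : Submodule ℝ (ι → ℝ) // W' ≤ W ∧
        Module.finrank ℝ W' = m}, {t : ℝ | Neg v W'.1 (bx a t c d)} := by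
    ext t
    simp only [mem_ofPred_eq, mem_iUnion, Subtype.exists, exists_prop, and_assoc]
  rw [e]
  refine isOpen_iUnion fun W' => ?_
  have h := open_forms (M := fun i j t => BEn (v i) (v j) (bx a t c d))
    (fun i j => bx_cont_right ((hv i).bden_int (hv j)) a c d) W'.1
  have e2 : {t : ℝ | Neg v W'.1 (bx a t c d)} = {t : ℝ | ∀ c' ∈ W'.1, c' ≠ 0 →
      ∑ i, ∑ j, c' i * c' j * BEn (v i) (v j) (bx a t c d) < 0} := by
    ext t
    simp only [mem_ofPred_eq, Neg, En_lc hv]
  rw [e2]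
  exact h

theorem open_left (hv : ∀ i, CC (v i)) (W : Submodule ℝ (ι → ℝ)) (m : ℕ) (b c d : ℝ) :
    IsOpen {t : ℝ | ∃ W' : Submodule ℝ (ι → ℝ), W' ≤ W ∧ Module.finrank ℝ W' = m ∧
      Neg v W' (bx t b c d)} := by
  have e : {t : ℝ | ∃ W' : Submodule ℝ (ι → ℝ), W' ≤ W ∧ Module.finrank ℝ W' = m ∧
      Neg v W' (bx t b c d)} = ⋃ W' : {W' : Submodule ℝ (ι → ℝ) // W' ≤ W ∧
        Module.finrank ℝ W' = m}, {t : ℝ | Neg v W'.1 (bx t b c d)} := by
    ext t
    simp only [mem_ofPred_eq, mem_iUnion, Subtype.exists, exists_prop, and_assoc]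
  rw [e]
  refine isOpen_iUnion fun W' => ?_
  have h := open_forms (M := fun i j t => BEn (v i) (v j) (bx t b c d))
    (fun i j => bx_cont_left ((hv i).bden_int (hv j)) b c d) W'.1
  have e2 : {t : ℝ | Neg v W'.1 (bx t b c d)} = {t : ℝ | ∀ c' ∈ W'.1, c' ≠ 0 →
      ∑ i, ∑ j, c' i * c' j * BEn (v i) (v j) (bx t b c d) < 0} := by
    ext t
    simp only [mem_ofPred_eq, Neg, En_lc hv]
  rw [e2]
  exact h

end Pool.Agent.W_1ab439_h81b

end OpenN
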