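import Pool.Agent.W_1ab439_h81b.Defs

section Wirt

/-!
Wirt (M).  Wirtinger inequalities on an interval of length `l ≤ π` (row 523, section 5).

`dirichlet`: for `0 < k < 1` let `η = (π - k l)/2 > 0`; `sin (k x + η) > 0` on `[0,l]` (`0 < η ≤ k x + η ≤ k l + η = π - η < π`).  With
`w x = k cos (k x + η) / sin (k x + η)`: `w' = -k^2 - w^2`, and `0 ≤ ∫ 0..l (G' - w G)^2 = ∫ G'^2 - [w G^2] + ∫ (w' + w^2) G^2 = ∫ G'^2 - k^2 ∫ G^2` (the boundary
terms vanish).  So `k^2 ∫ G^2 ≤ ∫ G'^2` for all `k < 1`; let `k → 1`.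
`wirtinger`: (mean value subtracted).  Let `μ = (∫ g)/l`, `h = g - μ`, `G x = ∫ 0..x h`: `G 0 = G l = 0`, `G' = h`.  Integration by parts:
`∫ h^2 = ∫ G' h = -∫ G g'`, so by Cauchy-Schwarz `(∫ h^2)^2 ≤ ∫ G^2 ∫ g'^2 ≤ ∫ h^2 ∫ g'^2` (dirichlet), so `∫ h^2 ≤ ∫ g'^2` (also if `∫ h^2 = 0`), and
`∫ h^2 = ∫ g^2 - (∫ g)^2 / l`.  Instead of Cauchy-Schwarz one can use `-2 G g' ≤ G^2 + g'^2`: `2 ∫ h^2 ≤ ∫ G^2 + ∫ g'^2 ≤ ∫ h^2 + ∫ g'^2`.
-/

set_option autoImplicit false

open MeasureTheory Set Real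

namespace Pool.Agent.W_1ab439_h81b

private theorem Wirt_k {G G' : ℝ → ℝ} {l k : ℝ} (hl : 0 < l) (hl1 : l ≤ π) (hk : 0 < k)
    (hk1 : k < 1) (hG : ∀ x, HasDerivAt G (G' x) x) (hG' : Continuous G') (h0 : G 0 = 0)
    (h1 : G l = 0) :
    k ^ 2 * ∫ x in (0 : ℝ)..l, G x ^ 2 ≤ ∫ x in (0 : ℝ)..l, G' x ^ 2 := by
  have hGc : Continuous G := continuous_iff_continuousAt.2 fun x => (hG x).continuousAt
  have hkl : k * l < π := lt_of_lt_of_le (by nlinarith) hl1
  set η : ℝ := (π - k * l) / 2 with hη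
  have hη0 : 0 < η := by
    rw [hη]
    linarith
  have hu : uIcc (0 : ℝ) l = Icc 0 l := uIcc_of_le hl.le
  have hs : ∀ x ∈ Icc (0 : ℝ) l, 0 < sin (k * x + η) := by
    intro x hx
    have h2 : 0 ≤ k * x := mul_nonneg hk.le hx.1
    have h3 : k * x ≤ k * l := mul_le_mul_of_nonneg_left hx.2 hk.le
    refine sin_pos_of_pos_of_lt_pi (by linarith) ?_
    rw [hη]
    linarith
  have hcs : Continuous fun x : ℝ => sin (k * x + η) := by fun_prop
  have hcc : Continuous fun x : ℝ => cos (k * x + η) := by fun_prop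
  have hdw : ∀ x ∈ Icc (0 : ℝ) l, HasDerivAt
      (fun y => k * cos (k * y + η) / sin (k * y + η) * G y ^ 2)
      ((-k ^ 2 - (k * cos (k * x + η) / sin (k * x + η)) ^ 2) * G x ^ 2 +
        k * cos (k * x + η) / sin (k * x + η) * (2 * G x * G' x)) x := by
    intro x hx
    have h2 : HasDerivAt (fun y : ℝ => k * y + η) k x := by
      simpa using ((hasDerivAt_id x).const_mul k).add_const η
    have h3 := (h2.cos.const_mul k).div h2.sin (hs x hx).ne'
    have h4 : HasDerivAt (fun y => k * cos (k * y + η) / sin (k * y + η) * G y ^ 2)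
        ((k * (-sin (k * x + η) * k) * sin (k * x + η) -
          k * cos (k * x + η) * (cos (k * x + η) * k)) / sin (k * x + η) ^ 2 * G x ^ 2 +
        k * cos (k * x + η) / sin (k * x + η) * ((2 : ℕ) * G x ^ (2 - 1) * G' x)) x :=
      h3.mul ((hG x).pow 2)
    refine h4.congr_deriv ?_
    have h5 := sin_sq_add_cos_sq (k * x + η)
    have h6 := (hs x hx).ne'
    have h7 : (k * (-sin (k * x + η) * k) * sin (k * x + η) -
        k * cos (k * x + η) * (cos (k * x + η) * k)) / sin (k * x + η) ^ 2 =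
        -k ^ 2 - (k * cos (k * x + η) / sin (k * x + η)) ^ 2 := by
      field_simp
    rw [h7]
    norm_num
  have hcon : ContinuousOn (fun x => k * cos (k * x + η) / sin (k * x + η)) (Icc 0 l) :=
    (continuous_const.mul hcc).continuousOn.div hcs.continuousOn fun x hx => (hs x hx).ne'
  have hI1 : IntervalIntegrable (fun x => (-k ^ 2 - (k * cos (k * x + η) /
      sin (k * x + η)) ^ 2) * G x ^ 2 + k * cos (k * x + η) / sin (k * x + η) *
      (2 * G x * G' x)) volume 0 l := by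
    refine ContinuousOn.intervalIntegrable ?_
    rw [hu]
    exact ((continuousOn_const.sub (hcon.pow 2)).mul (hGc.pow 2).continuousOn).add
      (hcon.mul ((continuous_const.mul hGc).mul hG').continuousOn)
  have hE := intervalIntegral.integral_eq_sub_of_hasDerivAt (by rw [hu]; exact hdw) hI1
  rw [h0, h1] at hE
  have hI2 : IntervalIntegrable (fun x => G' x ^ 2) volume 0 l :=
    (hG'.pow 2).intervalIntegrable _ _
  have hI3 : IntervalIntegrable (fun x => k ^ 2 * G x ^ 2) volume 0 l :=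
    (continuous_const.mul (hGc.pow 2)).intervalIntegrable _ _
  have hp : 0 ≤ ∫ x in (0 : ℝ)..l, (G' x - k * cos (k * x + η) / sin (k * x + η) * G x) ^ 2 :=
    intervalIntegral.integral_nonneg hl.le fun x _ => sq_nonneg _
  have he : (∫ x in (0 : ℝ)..l, (G' x - k * cos (k * x + η) / sin (k * x + η) * G x) ^ 2) =
      (∫ x in (0 : ℝ)..l, G' x ^ 2) - (∫ x in (0 : ℝ)..l,
        ((-k ^ 2 - (k * cos (k * x + η) / sin (k * x + η)) ^ 2) * G x ^ 2 +
        k * cos (k * x + η) / sin (k * x + η) * (2 * G x * G' x))) -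
      ∫ x in (0 : ℝ)..l, k ^ 2 * G x ^ 2 := by
    rw [← intervalIntegral.integral_sub hI2 hI1, ← intervalIntegral.integral_sub (hI2.sub hI1) hI3]
    refine intervalIntegral.integral_congr fun x _ => ?_
    ring
  rw [he, hE, intervalIntegral.integral_const_mul] at hp
  norm_num at hp
  linarith

theorem dirichlet {G G' : ℝ → ℝ} {l : ℝ} (hl : 0 < l) (hl1 : l ≤ π)
    (hG : ∀ x, HasDerivAt G (G' x) x) (hG' : Continuous G') (h0 : G 0 = 0) (h1 : G l = 0) :
    ∫ x in (0 : ℝ)..l, G x ^ 2 ≤ ∫ x in (0 : ℝ)..l, G' x ^ 2 := by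
  have h : Filter.Tendsto (fun k : ℝ => k ^ 2 * ∫ x in (0 : ℝ)..l, G x ^ 2)
      (nhdsWithin 1 (Iio 1)) (nhds (1 ^ 2 * ∫ x in (0 : ℝ)..l, G x ^ 2)) :=
    (((continuous_pow 2).mul continuous_const).tendsto 1).mono_left nhdsWithin_le_nhds
  rw [one_pow, one_mul] at h
  exact le_of_tendsto h (Filter.eventually_of_mem (Ioo_mem_nhdsLT zero_lt_one) fun k hk =>
    Wirt_k hl hl1 hk.1 hk.2 hG hG' h0 h1)

theorem wirtinger {g g' : ℝ → ℝ} {l : ℝ} (hl : 0 < l) (hl1 : l ≤ π)
    (hg : ∀ x, HasDerivAt g (g' x) x) (hg' : Continuous g') :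
    (∫ x in (0 : ℝ)..l, g x ^ 2) - (∫ x in (0 : ℝ)..l, g x) ^ 2 / l ≤
      ∫ x in (0 : ℝ)..l, g' x ^ 2 := by
  have hgc : Continuous g := continuous_iff_continuousAt.2 fun x => (hg x).continuousAt
  set μ : ℝ := (∫ x in (0 : ℝ)..l, g x) / l with hμ
  have hμl : (∫ x in (0 : ℝ)..l, g x) = μ * l := by
    rw [hμ, div_mul_cancel₀ _ hl.ne']
  set h : ℝ → ℝ := fun x => g x - μ with hh
  have hhc : Continuous h := hgc.sub continuous_const
  set G : ℝ → ℝ := fun x => ∫ y in (0 : ℝ)..x, h y with hGdef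
  have hG : ∀ x, HasDerivAt G (h x) x := fun x =>
    intervalIntegral.integral_hasDerivAt_right (hhc.intervalIntegrable _ _)
      (hhc.stronglyMeasurableAtFilter _ _) hhc.continuousAt
  have hGc : Continuous G := continuous_iff_continuousAt.2 fun x => (hG x).continuousAt
  have hG0 : G 0 = 0 := intervalIntegral.integral_same
  have hGl : G l = 0 := by
    show (∫ y in (0 : ℝ)..l, (g y - μ)) = 0
    rw [intervalIntegral.integral_sub (hgc.intervalIntegrable _ _)
      (continuous_const.intervalIntegrable _ _), intervalIntegral.integral_const, hμl]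
    simp
    ring
  have hhd : ∀ x, HasDerivAt h (g' x) x := fun x => (hg x).sub_const μ
  have hd := dirichlet hl hl1 hG hhc hG0 hGl
  have i1 : IntervalIntegrable (fun x => h x ^ 2) volume 0 l :=
    (hhc.pow 2).intervalIntegrable _ _
  have i2 : IntervalIntegrable (fun x => G x * g' x) volume 0 l :=
    (hGc.mul hg').intervalIntegrable _ _
  have i3 : IntervalIntegrable (fun x => G x ^ 2) volume 0 l :=
    (hGc.pow 2).intervalIntegrable _ _
  have i4 : IntervalIntegrable (fun x => g' x ^ 2) volume 0 l :=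
    (hg'.pow 2).intervalIntegrable _ _
  have hP : (∫ x in (0 : ℝ)..l, h x ^ 2) + ∫ x in (0 : ℝ)..l, G x * g' x = 0 := by
    have h2 := intervalIntegral.integral_eq_sub_of_hasDerivAt
      (f := fun x => G x * h x) (f' := fun x => h x ^ 2 + G x * g' x) (a := 0) (b := l)
      (fun x _ => ((hG x).mul (hhd x)).congr_deriv (by ring)) (i1.add i2)
    rw [← intervalIntegral.integral_add i1 i2, h2]
    simp only [hG0, hGl]
    ring
  have hQ : 0 ≤ (∫ x in (0 : ℝ)..l, G x ^ 2) + 2 * (∫ x in (0 : ℝ)..l, G x * g' x) +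
      ∫ x in (0 : ℝ)..l, g' x ^ 2 := by
    have h2 : 0 ≤ ∫ x in (0 : ℝ)..l, (G x + g' x) ^ 2 :=
      intervalIntegral.integral_nonneg hl.le fun x _ => sq_nonneg _
    have h3 : (∫ x in (0 : ℝ)..l, (G x + g' x) ^ 2) = (∫ x in (0 : ℝ)..l, G x ^ 2) +
        2 * (∫ x in (0 : ℝ)..l, G x * g' x) + ∫ x in (0 : ℝ)..l, g' x ^ 2 := by
      rw [← intervalIntegral.integral_const_mul, ← intervalIntegral.integral_add i3
        (i2.const_mul 2), ← intervalIntegral.integral_add (i3.add (i2.const_mul 2)) i4]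
      refine intervalIntegral.integral_congr fun x _ => ?_
      ring
    rw [← h3]
    exact h2
  have hR : (∫ x in (0 : ℝ)..l, h x ^ 2) = (∫ x in (0 : ℝ)..l, g x ^ 2) -
      (∫ x in (0 : ℝ)..l, g x) ^ 2 / l := by
    have j1 : IntervalIntegrable (fun x => g x ^ 2) volume 0 l :=
      (hgc.pow 2).intervalIntegrable _ _
    have j2 : IntervalIntegrable (fun x => 2 * μ * g x) volume 0 l :=
      (continuous_const.mul hgc).intervalIntegrable _ _
    have j3 : IntervalIntegrable (fun _ : ℝ => μ ^ 2) volume 0 l :=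
      continuous_const.intervalIntegrable _ _
    have h2 : (∫ x in (0 : ℝ)..l, h x ^ 2) = (∫ x in (0 : ℝ)..l, g x ^ 2) -
        (∫ x in (0 : ℝ)..l, 2 * μ * g x) + ∫ _ in (0 : ℝ)..l, μ ^ 2 := by
      rw [← intervalIntegral.integral_sub j1 j2, ← intervalIntegral.integral_add (j1.sub j2) j3]
      refine intervalIntegral.integral_congr fun x _ => ?_
      simp only [hh]
      ring
    rw [h2, intervalIntegral.integral_const_mul, intervalIntegral.integral_const, hμl]
    simp only [smul_eq_mul, sub_zero]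
    field_simp
    ring
  rw [← hR]
  linarith

end Pool.Agent.W_1ab439_h81b

end Wirt

section Poin

/-!
Poin (M).  Neumann-Poincare inequality on the box `(0,w) × (0,π)`, `w ≤ π` (row 523, section 5).

`μ x = ∫ y in 0..π, u (x,y)` (continuous).  Fubini.
(1) For each `x`: wirtinger for `y ↦ u (x,y)`, `l = π`: `∫ u^2 dy - μ x ^2 / π ≤ ∫ (dy u)^2 dy`; integrate over `x`: `∫∫ u^2 - (1/π) ∫ μ^2 ≤ ∫∫ (dy u)^2`.
(2) `G x = ∫ 0..x μ`, `G' = μ`, `G 0 = 0`, `G w = ∫∫ u = 0`.  For each `y` integration by parts: `∫ x in 0..w, μ x * u (x,y) = -∫ x in 0..w, G x * dx u (x,y)`.  Integrate over `y ∈ (0,π)`: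
`∫ μ^2 = -∫∫ G dx u ≤ 1/2 (π/π ...)`: use `-G (dx u) ≤ (G^2/π + π (dx u)^2)/2` pointwise: `∫ μ^2 ≤ (1/2) (∫ G^2 + π ∫∫ (dx u)^2) ≤ (1/2) (∫ μ^2 + π ∫∫ (dx u)^2)`
(dirichlet for `G`, `l = w ≤ π`).  So `(1/π) ∫ μ^2 ≤ ∫∫ (dx u)^2`.
Add (1) and (2): `0 ≤ En u (bx 0 w 0 π)`.
-/

set_option autoImplicit false

open MeasureTheory Set Real

namespace Pool.Agent.W_1ab439_h81b

open Pool.Agent.W_1ab439_h81

private theorem poin_fub {F : ℝ × ℝ → ℝ} (hF : Continuous F) {w : ℝ} (hw : 0 ≤ w) :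
    ∫ z in bx 0 w 0 π, F z = ∫ x in (0 : ℝ)..w, ∫ y in (0 : ℝ)..π, F (x, y) := by
  have hint : IntegrableOn F (Ioo 0 w ×ˢ Ioo 0 π) (volume.prod volume) := by
    rw [← Measure.volume_eq_prod]
    exact (hF.continuousOn.integrableOn_compact (isCompact_Icc.prod isCompact_Icc)).mono_set
      (prod_mono Ioo_subset_Icc_self Ioo_subset_Icc_self)
  rw [bx, Measure.volume_eq_prod, setIntegral_prod _ hint, intervalIntegral.integral_of_le hw,
    integral_Ioc_eq_integral_Ioo]
  simp only [intervalIntegral.integral_of_le pi_pos.le, integral_Ioc_eq_integral_Ioo]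

private theorem poin_swap {F : ℝ × ℝ → ℝ} (hF : Continuous F) (w : ℝ) :
    ∫ x in (0 : ℝ)..w, ∫ y in (0 : ℝ)..π, F (x, y) =
      ∫ y in (0 : ℝ)..π, ∫ x in (0 : ℝ)..w, F (x, y) := by
  have hc : Continuous (Function.uncurry fun x y : ℝ => F (x, y)) := hF
  have h : IntegrableOn (Function.uncurry fun x y : ℝ => F (x, y)) (uIoc 0 w ×ˢ uIoc 0 π) :=
    (hc.continuousOn.integrableOn_compact (isCompact_uIcc.prod isCompact_uIcc)).mono_set
      (prod_mono uIoc_subset_uIcc uIoc_subset_uIcc)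
  exact MeasureTheory.intervalIntegral_intervalIntegral_swap h

private theorem poin_cont {F : ℝ × ℝ → ℝ} (hF : Continuous F) :
    Continuous fun x : ℝ => ∫ y in (0 : ℝ)..π, F (x, y) := by
  have hc : Continuous (Function.uncurry fun x y : ℝ => F (x, y)) := hF
  exact intervalIntegral.continuous_parametric_intervalIntegral_of_continuous' hc _ _

private theorem poin_cont' {F : ℝ × ℝ → ℝ} (hF : Continuous F) (w : ℝ) :
    Continuous fun y : ℝ => ∫ x in (0 : ℝ)..w, F (x, y) := by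
  have hc : Continuous (Function.uncurry fun y x : ℝ => F (x, y)) := by
    have : Continuous fun p : ℝ × ℝ => F (p.2, p.1) := by fun_prop
    exact this
  exact intervalIntegral.continuous_parametric_intervalIntegral_of_continuous' hc _ _

theorem neumann {u : ℝ × ℝ → ℝ} (hu : CC u) {w : ℝ} (hw : 0 < w) (hw1 : w ≤ π)
    (hmean : ∫ z in bx 0 w 0 π, u z = 0) : 0 ≤ En u (bx 0 w 0 π) := by
  have huc := hu.cont
  have hdx := hu.dx_cont
  have hdy := hu.dy_cont
  have hux : ∀ x : ℝ, Continuous fun y : ℝ => u (x, y) := fun x => by fun_prop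
  have huy : ∀ y : ℝ, Continuous fun x : ℝ => u (x, y) := fun y => by fun_prop
  have hdxx : ∀ x : ℝ, Continuous fun y : ℝ => dx u (x, y) := fun x => by fun_prop
  have hdyx : ∀ x : ℝ, Continuous fun y : ℝ => dy u (x, y) := fun x => by fun_prop
  have hdxy : ∀ y : ℝ, Continuous fun x : ℝ => dx u (x, y) := fun x => by fun_prop
  set m : ℝ → ℝ := fun x => ∫ y in (0 : ℝ)..π, u (x, y) with hm
  have hmc : Continuous m := poin_cont huc
  have cA : Continuous fun x : ℝ => ∫ y in (0 : ℝ)..π, dx u (x, y) ^ 2 :=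
    poin_cont (F := fun z => dx u z ^ 2) (by fun_prop)
  have cB : Continuous fun x : ℝ => ∫ y in (0 : ℝ)..π, dy u (x, y) ^ 2 :=
    poin_cont (F := fun z => dy u z ^ 2) (by fun_prop)
  have cC : Continuous fun x : ℝ => ∫ y in (0 : ℝ)..π, u (x, y) ^ 2 :=
    poin_cont (F := fun z => u z ^ 2) (by fun_prop)
  -- the energy
  have hE : En u (bx 0 w 0 π) = (∫ x in (0 : ℝ)..w, ∫ y in (0 : ℝ)..π, dx u (x, y) ^ 2) +
      (∫ x in (0 : ℝ)..w, ∫ y in (0 : ℝ)..π, dy u (x, y) ^ 2) -
      ∫ x in (0 : ℝ)..w, ∫ y in (0 : ℝ)..π, u (x, y) ^ 2 := by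
    rw [En, poin_fub hu.den_cont hw.le]
    have hin : ∀ x : ℝ, ∫ y in (0 : ℝ)..π, den u (x, y) =
        (∫ y in (0 : ℝ)..π, dx u (x, y) ^ 2) + (∫ y in (0 : ℝ)..π, dy u (x, y) ^ 2) -
          ∫ y in (0 : ℝ)..π, u (x, y) ^ 2 := by
      intro x
      have i1 : IntervalIntegrable (fun y => dx u (x, y) ^ 2) volume 0 π :=
        ((hdxx x).pow 2).intervalIntegrable _ _
      have i2 : IntervalIntegrable (fun y => dy u (x, y) ^ 2) volume 0 π :=
        ((hdyx x).pow 2).intervalIntegrable _ _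
      have i3 : IntervalIntegrable (fun y => u (x, y) ^ 2) volume 0 π :=
        ((hux x).pow 2).intervalIntegrable _ _
      rw [← intervalIntegral.integral_add i1 i2, ← intervalIntegral.integral_sub (i1.add i2) i3]
      rfl
    simp only [hin]
    have iA : IntervalIntegrable
        (fun x : ℝ => ∫ y in (0 : ℝ)..π, dx u (x, y) ^ 2) volume 0 w := cA.intervalIntegrable _ _
    have iB : IntervalIntegrable
        (fun x : ℝ => ∫ y in (0 : ℝ)..π, dy u (x, y) ^ 2) volume 0 w := cB.intervalIntegrable _ _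
    have iC : IntervalIntegrable
        (fun x : ℝ => ∫ y in (0 : ℝ)..π, u (x, y) ^ 2) volume 0 w := cC.intervalIntegrable _ _
    rw [← intervalIntegral.integral_add iA iB, ← intervalIntegral.integral_sub (iA.add iB) iC]
  -- step 1
  have h1 : (∫ x in (0 : ℝ)..w, ∫ y in (0 : ℝ)..π, u (x, y) ^ 2) -
      (∫ x in (0 : ℝ)..w, m x ^ 2) / π ≤
      ∫ x in (0 : ℝ)..w, ∫ y in (0 : ℝ)..π, dy u (x, y) ^ 2 := by
    have hpt : ∀ x : ℝ, (∫ y in (0 : ℝ)..π, u (x, y) ^ 2) - m x ^ 2 / π ≤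
        ∫ y in (0 : ℝ)..π, dy u (x, y) ^ 2 := by
      intro x
      exact wirtinger pi_pos le_rfl (fun y => hu.hasDerivAt_y x y) (hdyx x)
    have iC : IntervalIntegrable
        (fun x : ℝ => ∫ y in (0 : ℝ)..π, u (x, y) ^ 2) volume 0 w := cC.intervalIntegrable _ _
    have iM : IntervalIntegrable (fun x : ℝ => m x ^ 2 / π) volume 0 w :=
      ((hmc.pow 2).div_const π).intervalIntegrable _ _
    have iB : IntervalIntegrable
        (fun x : ℝ => ∫ y in (0 : ℝ)..π, dy u (x, y) ^ 2) volume 0 w := cB.intervalIntegrable _ _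
    rw [← intervalIntegral.integral_div, ← intervalIntegral.integral_sub iC iM]
    exact intervalIntegral.integral_mono hw.le (iC.sub iM) iB hpt
  -- step 2
  set G : ℝ → ℝ := fun x => ∫ s in (0 : ℝ)..x, m s with hG
  have hGd : ∀ x, HasDerivAt G (m x) x := fun x => (hmc.integral_hasStrictDerivAt 0 x).hasDerivAt
  have hGc : Continuous G := continuous_iff_continuousAt.2 fun x => (hGd x).continuousAt
  have hG0 : G 0 = 0 := by simp [hG]
  have hGw : G w = 0 := by
    have := poin_fub huc hw.le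
    rw [hmean] at this
    exact this.symm
  have hDir := dirichlet hw hw1 hGd hmc hG0 hGw
  have hparts : ∀ y : ℝ, ∫ x in (0 : ℝ)..w, m x * u (x, y) =
      ∫ x in (0 : ℝ)..w, -(G x * dx u (x, y)) := by
    intro y
    have := intervalIntegral.integral_mul_deriv_eq_deriv_mul (a := 0) (b := w)
      (u := G) (v := fun x => u (x, y)) (u' := m) (v' := fun x => dx u (x, y))
      (fun x _ => hGd x) (fun x _ => hu.hasDerivAt_x x y)
      (hmc.intervalIntegrable _ _) ((hdxy y).intervalIntegrable _ _)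
    rw [hG0, hGw] at this
    rw [intervalIntegral.integral_neg, this]
    ring
  have hM : ∫ x in (0 : ℝ)..w, m x ^ 2 =
      ∫ y in (0 : ℝ)..π, ∫ x in (0 : ℝ)..w, -(G x * dx u (x, y)) := by
    have e1 : ∫ x in (0 : ℝ)..w, m x ^ 2 =
        ∫ x in (0 : ℝ)..w, ∫ y in (0 : ℝ)..π, m x * u (x, y) := by
      refine intervalIntegral.integral_congr fun x _ => ?_
      simp only [intervalIntegral.integral_const_mul]
      rw [sq]
    have hF : Continuous fun z : ℝ × ℝ => m z.1 * u z := by fun_prop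
    rw [e1, poin_swap hF w]
    refine intervalIntegral.integral_congr fun y _ => ?_
    exact hparts y
  have hF1 : Continuous fun z : ℝ × ℝ => -(G z.1 * dx u z) := by fun_prop
  have hF2 : Continuous fun z : ℝ × ℝ => (G z.1 ^ 2 / π + π * dx u z ^ 2) / 2 := by fun_prop
  have hM2 : ∫ x in (0 : ℝ)..w, m x ^ 2 ≤
      ((∫ x in (0 : ℝ)..w, G x ^ 2) + π * ∫ x in (0 : ℝ)..w, ∫ y in (0 : ℝ)..π, dx u (x, y) ^ 2) / 2 := by
    rw [hM, ← poin_swap hF1 w]
    have hle : ∫ x in (0 : ℝ)..w, ∫ y in (0 : ℝ)..π, -(G x * dx u (x, y)) ≤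
        ∫ x in (0 : ℝ)..w, ∫ y in (0 : ℝ)..π, (G x ^ 2 / π + π * dx u (x, y) ^ 2) / 2 := by
      refine intervalIntegral.integral_mono hw.le ((poin_cont hF1).intervalIntegrable _ _)
        ((poin_cont hF2).intervalIntegrable _ _) fun x => ?_
      have k1 : Continuous fun y : ℝ => -(G x * dx u (x, y)) := by fun_prop
      have k2 : Continuous fun y : ℝ => (G x ^ 2 / π + π * dx u (x, y) ^ 2) / 2 := by fun_prop
      refine intervalIntegral.integral_mono pi_pos.le (k1.intervalIntegrable _ _)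
        (k2.intervalIntegrable _ _) fun y => ?_
      have hp : (0 : ℝ) < π := pi_pos
      have hs : 0 ≤ (G x + π * dx u (x, y)) ^ 2 / π := by positivity
      have he : (G x + π * dx u (x, y)) ^ 2 / π =
          G x ^ 2 / π + π * dx u (x, y) ^ 2 + 2 * (G x * dx u (x, y)) := by
        field_simp
        ring
      show -(G x * dx u (x, y)) ≤ (G x ^ 2 / π + π * dx u (x, y) ^ 2) / 2
      rw [he] at hs
      linarith
    refine hle.trans (le_of_eq ?_)
    have hin : ∀ x : ℝ, ∫ y in (0 : ℝ)..π, (G x ^ 2 / π + π * dx u (x, y) ^ 2) / 2 =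
        (G x ^ 2 + π * ∫ y in (0 : ℝ)..π, dx u (x, y) ^ 2) / 2 := by
      intro x
      have k1 : IntervalIntegrable (fun _ : ℝ => G x ^ 2 / π) volume 0 π :=
        continuous_const.intervalIntegrable _ _
      have k2 : IntervalIntegrable (fun y : ℝ => π * dx u (x, y) ^ 2) volume 0 π :=
        (((hdxx x).pow 2).const_mul π).intervalIntegrable _ _
      rw [intervalIntegral.integral_div, intervalIntegral.integral_add k1 k2,
        intervalIntegral.integral_const, intervalIntegral.integral_const_mul]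
      have hp : (0 : ℝ) < π := pi_pos
      congr 2
      simp only [smul_eq_mul]
      field_simp
      ring
    simp only [hin]
    have k3 : IntervalIntegrable (fun x : ℝ => G x ^ 2) volume 0 w :=
      (hGc.pow 2).intervalIntegrable _ _
    have k4 : IntervalIntegrable
        (fun x : ℝ => π * ∫ y in (0 : ℝ)..π, dx u (x, y) ^ 2) volume 0 w :=
      (cA.const_mul π).intervalIntegrable _ _
    rw [intervalIntegral.integral_div, intervalIntegral.integral_add k3 k4,
      intervalIntegral.integral_const_mul]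
  have hp : (0 : ℝ) < π := pi_pos
  have h3 : (∫ x in (0 : ℝ)..w, m x ^ 2) / π ≤
      ∫ x in (0 : ℝ)..w, ∫ y in (0 : ℝ)..π, dx u (x, y) ^ 2 := by
    rw [div_le_iff₀ hp]
    linarith
  rw [hE]
  linarith

end Pool.Agent.W_1ab439_h81b

end Poin
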