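import Pool.Agent.W_1ab439_h81b.Box
import Pool.Agent.W_1ab439_h81b.Poin
import Pool.Agent.W_1ab439_h81b.Forms

section Cell

/-!
Cell (M).  The Cell Lemma (row 523, section 5).

`W` two-dimensional; choose a basis `p, q` of `W`.
`width`: suppose `b - a ≤ π`.  The functional `c ↦ ∫ z in box, lc v c z` on `W` (linear) has a nonzero `c` in its kernel (dimension 2).  Translate by `(a, y)`
(tra_CC, tra_int, tra_En with `p = a`, `q = y`: the box becomes `bx 0 (b - a) 0 π`): `neumann` gives `0 ≤ En (lc v c) (box)`, a contradiction to Neg.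
`cell`: `f = lc v p`, `g = lc v q`; `rot f g s = lc v (cos s • p + sin s • q)`, nonzero coefficient vector in `W`, so the circle lemma
`circle` (`W_1ab439_h81/Trunc.lean`) on `S = bx a b y (y + π)` gives `e > 0`, `s`, `w = rot f g s` with `En (pc e w) S < 0`, `En (pc e (-w)) S < 0`.  Cuts `ct e w`, `ct e (-w)`
(cut_pc), sum `≤ 1` (ct_add_le).  Translate to `bx 0 (b - a) 0 π`; box_lemma with `L = b - a ≥ π`, `H = π`; translate back; `cuts_le` (`W_1ab439_h81/Strip.lean`) with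
`S = bx a b y (y + π)`.
-/

set_option autoImplicit false

open MeasureTheory Set Real

namespace Pool.Agent.W_1ab439_h81b

open Pool.Agent.W_1ab439_h81

variable {ι : Type} [Fintype ι] {v : ι → ℝ × ℝ → ℝ} {Ω : Set (ℝ × ℝ)}

private theorem Cell_box (a b y : ℝ) :
    bx (a - a) (b - a) (y - y) (y + π - y) = bx 0 (b - a) 0 π := by
  rw [sub_self, sub_self, add_sub_cancel_left]

private theorem Cell_int (g : ℝ × ℝ → ℝ) (a b y : ℝ) :
    ∫ z in bx 0 (b - a) 0 π, g (z.1 + a, z.2 + y) = ∫ z in bx a b y (y + π), g z := by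
  rw [← tra_int g a y a b y (y + π), Cell_box]

private theorem Cell_En {f : ℝ × ℝ → ℝ} (hf : CC f) (a b y : ℝ) :
    En (fun z => f (z.1 + a, z.2 + y)) (bx 0 (b - a) 0 π) = En f (bx a b y (y + π)) := by
  rw [← tra_En hf a y a b y (y + π), Cell_box]

theorem width (hv : ∀ i, CC (v i)) {W : Submodule ℝ (ι → ℝ)} (hW : Module.finrank ℝ W = 2)
    {a b y : ℝ} (hab : a < b) (hN : Neg v W (bx a b y (y + π))) : π ≤ b - a := by
  by_contra hlt
  have hlt : b - a < π := not_le.1 hlt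
  set S : Set (ℝ × ℝ) := bx a b y (y + π) with hS
  let l : (ι → ℝ) →ₗ[ℝ] ℝ := ∑ i, (∫ z in S, v i z) • LinearMap.proj i
  have hl : ∀ c, l c = ∫ z in S, lc v c z := by
    intro c
    have h1 : l c = ∑ i, (∫ z in S, v i z) * c i := by
      simp only [l, LinearMap.sum_apply, LinearMap.smul_apply, LinearMap.proj_apply, smul_eq_mul]
    have h2 : ∫ z in S, lc v c z = ∑ i, ∫ z in S, c i * v i z := by
      unfold lc
      exact integral_finsetSum _ fun i _ => ((hv i).int.integrableOn).const_mul (c i)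
    rw [h1, h2]
    refine Finset.sum_congr rfl fun i _ => ?_
    rw [integral_const_mul, mul_comm]
  have hker : (l.domRestrict W).ker ≠ ⊥ := by
    refine LinearMap.ker_ne_bot_of_finrank_lt ?_
    rw [hW, Module.finrank_self]
    norm_num
  obtain ⟨c, hc, hc0⟩ := Submodule.exists_mem_ne_zero_of_ne_bot hker
  have hlc : l (c : ι → ℝ) = 0 := by
    have := LinearMap.mem_ker.1 hc
    rwa [LinearMap.domRestrict_apply] at this
  have hc0' : (c : ι → ℝ) ≠ 0 := fun h => hc0 (Subtype.ext h)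
  have hE := hN c c.2 hc0'
  have hcc : CC (lc v (c : ι → ℝ)) := lc_CC hv c
  have h3 := neumann (tra_CC hcc a y) (sub_pos.2 hab) hlt.le (by
    rw [Cell_int (lc v (c : ι → ℝ)) a b y, ← hl]
    exact hlc)
  rw [Cell_En hcc a b y] at h3
  exact absurd hE (not_lt.2 h3)

theorem cell (hΩ : IsOpen Ω) (hb : Bornology.IsBounded Ω) (hv : ∀ i, CC (v i))
    (hs : ∀ i, ∀ z, z ∉ Ω → v i z = 0) {W : Submodule ℝ (ι → ℝ)}
    (hW : Module.finrank ℝ W = 2) {a b y : ℝ} (hab : a < b)
    (hN : Neg v W (bx a b y (y + π))) :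
    5 * π / 2 ≤ (volume (Ω ∩ bx a b y (y + π))).toReal := by
  have hwid := width hv hW hab hN
  set S : Set (ℝ × ℝ) := bx a b y (y + π) with hS
  let B : Module.Basis (Fin 2) ℝ W := Module.finBasisOfFinrankEq ℝ W hW
  set p : ι → ℝ := (B 0 : ι → ℝ) with hp
  set q : ι → ℝ := (B 1 : ι → ℝ) with hq
  have hrot : ∀ s, rot (lc v p) (lc v q) s = lc v (Real.cos s • p + Real.sin s • q) := by
    intro s
    funext z
    unfold rot lc
    rw [Finset.mul_sum, Finset.mul_sum, ← Finset.sum_add_distrib]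
    refine Finset.sum_congr rfl fun i _ => ?_
    simp only [Pi.add_apply, Pi.smul_apply, smul_eq_mul]
    ring
  have hne : ∀ s, Real.cos s • p + Real.sin s • q ≠ 0 := by
    intro s h
    have h1 : Real.cos s • B 0 + Real.sin s • B 1 = 0 := Subtype.ext h
    have h2 := B.linearIndependent
    rw [Fintype.linearIndependent_iff] at h2
    have h3 := h2 ![Real.cos s, Real.sin s] (by
      rw [Fin.sum_univ_two]
      exact h1)
    have h4 : Real.cos s = 0 := h3 0
    have h5 : Real.sin s = 0 := h3 1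
    have h6 := Real.sin_sq_add_cos_sq s
    rw [h4, h5] at h6
    norm_num at h6
  have hmem : ∀ s, Real.cos s • p + Real.sin s • q ∈ W := fun s =>
    add_mem (W.smul_mem _ (B 0).2) (W.smul_mem _ (B 1).2)
  have hE : ∀ s, En (rot (lc v p) (lc v q) s) S < 0 := by
    intro s
    rw [hrot]
    exact hN _ (hmem s) (hne s)
  have hfc : CC (lc v p) := lc_CC hv p
  have hgc : CC (lc v q) := lc_CC hv q
  obtain ⟨e, he, s, h1, h2⟩ := circle hfc hgc S hE
  set w : ℝ × ℝ → ℝ := rot (lc v p) (lc v q) s with hw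
  have hwc : CC w := hfc.rot hgc s
  have hws : ∀ z, z ∉ Ω → w z = 0 := by
    intro z hz
    have h3 : ∀ c : ι → ℝ, lc v c z = 0 := fun c =>
      Finset.sum_eq_zero fun i _ => by rw [hs i z hz, mul_zero]
    rw [hw]
    unfold rot
    rw [h3, h3, mul_zero, mul_zero, add_zero]
  have hp1 : CC (pc e w) := hwc.pc he
  have hp2 : CC (pc e (fun z => -w z)) := hwc.neg.pc he
  have hmain := box_lemma (tra_CC hp1 a y) (tra_CC hp2 a y) (tra_cut (cut_pc hwc he) a y)
    (tra_cut (cut_pc hwc.neg he) a y) (fun z => ct_add_le he (z.1 + a, z.2 + y)) hwid le_rfl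
    (by rw [Cell_En hp1 a b y]; exact h1) (by rw [Cell_En hp2 a b y]; exact h2)
  rw [Cell_int (ct e w) a b y, Cell_int (ct e (fun z => -w z)) a b y] at hmain
  exact hmain.trans (cuts_le hΩ hb hwc hws he (measurableSet_bx a b y (y + π)))

end Pool.Agent.W_1ab439_h81b

end Cell

section Slab

/-!
Slab (M).  The Slab Lemma and all slabs (row 523, section 6).

`slab`: induction on `n` (for all `a < b`, `W`).  `n ≤ 1`: the left side is `≤ 0`.  `n = 2`: cell.  `n ≥ 3`: `P`, `N` from open_right (m = 2, for `W`), open_left (m = n - 1).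
`b ∈ P` (exists_sub: a 2-dimensional `W' ≤ W`, Neg.mono), `a ∈ N`; both are open, so both meet `(a,b)`.  `(a,b) ⊆ P ∪ N`: for `t ∈ (a,b)` neg_split with
`S = bx a b ..`, `S1 = bx a t ..`, `S2 = bx t b ..` (bx_add_x for `bden`); `finrank W1 + finrank W2 ≥ n = 2 + (n-1) - 1`, so `finrank W1 ≥ 2` or `finrank W2 ≥ n - 1`
(exists_sub).  `isPreconnected_Ioo` gives `t ∈ (a,b) ∩ P ∩ N`.  Then cell on `bx a t` and the induction hypothesis on `bx t b`; the two boxes are disjoint parts of `bx a b`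
(`vol_add`).
`slabs`: induction on `r`.  `r = 0`: the box `bx a b y y` is empty, so `Neg` forces `finrank W = 0`.  Step: neg_split with `bx a b y (y+π)` and
`bx a b (y+π) (y+π+rπ)` (bx_add_y), `slab` and the induction hypothesis.
-/

set_option autoImplicit false

open MeasureTheory Set Real

namespace Pool.Agent.W_1ab439_h81b

open Pool.Agent.W_1ab439_h81

variable {ι : Type} [Fintype ι] {v : ι → ℝ × ℝ → ℝ} {Ω : Set (ℝ × ℝ)}

private theorem Slab_vol (hb : Bornology.IsBounded Ω) {A B C : Set (ℝ × ℝ)}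
    (hΩ : IsOpen Ω) (hB : MeasurableSet B) (hd : Disjoint A B) (hAC : A ⊆ C) (hBC : B ⊆ C) :
    (volume (Ω ∩ A)).toReal + (volume (Ω ∩ B)).toReal ≤ (volume (Ω ∩ C)).toReal := by
  have hf : ∀ D : Set (ℝ × ℝ), volume (Ω ∩ D) ≠ ⊤ := fun D =>
    ((measure_mono inter_subset_left).trans_lt hb.measure_lt_top).ne
  rw [← ENNReal.toReal_add (hf A) (hf B)]
  refine ENNReal.toReal_mono (hf C) ?_
  rw [← measure_union (hd.mono inter_subset_right inter_subset_right)
    (hΩ.measurableSet.inter hB)]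
  refine measure_mono ?_
  rintro z (⟨h1, h2⟩ | ⟨h1, h2⟩)
  · exact ⟨h1, hAC h2⟩
  · exact ⟨h1, hBC h2⟩

private theorem Slab_meas (a b c d : ℝ) : MeasurableSet (bx a b c d) :=
  measurableSet_Ioo.prod measurableSet_Ioo

theorem vol_add_x (hΩ : IsOpen Ω) (hb : Bornology.IsBounded Ω) {a t b : ℝ} (h1 : a ≤ t)
    (h2 : t ≤ b) (c d : ℝ) :
    (volume (Ω ∩ bx a t c d)).toReal + (volume (Ω ∩ bx t b c d)).toReal ≤
      (volume (Ω ∩ bx a b c d)).toReal := by
  refine Slab_vol hb hΩ (Slab_meas _ _ _ _) ?_ ?_ ?_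
  · rw [Set.disjoint_left]
    rintro z ⟨h, -⟩ ⟨h', -⟩
    exact absurd (h.2.trans h'.1) (lt_irrefl _)
  · exact Set.prod_mono (Ioo_subset_Ioo_right h2) Subset.rfl
  · exact Set.prod_mono (Ioo_subset_Ioo_left h1) Subset.rfl

theorem vol_add_y (hΩ : IsOpen Ω) (hb : Bornology.IsBounded Ω) {c t d : ℝ} (h1 : c ≤ t)
    (h2 : t ≤ d) (a b : ℝ) :
    (volume (Ω ∩ bx a b c t)).toReal + (volume (Ω ∩ bx a b t d)).toReal ≤
      (volume (Ω ∩ bx a b c d)).toReal := by
  refine Slab_vol hb hΩ (Slab_meas _ _ _ _) ?_ ?_ ?_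
  · rw [Set.disjoint_left]
    rintro z ⟨-, h⟩ ⟨-, h'⟩
    exact absurd (h.2.trans h'.1) (lt_irrefl _)
  · exact Set.prod_mono Subset.rfl (Ioo_subset_Ioo_right h2)
  · exact Set.prod_mono Subset.rfl (Ioo_subset_Ioo_left h1)

theorem slab (hΩ : IsOpen Ω) (hb : Bornology.IsBounded Ω) (hv : ∀ i, CC (v i))
    (hs : ∀ i, ∀ z, z ∉ Ω → v i z = 0) (y : ℝ) (n : ℕ) :
    ∀ (a b : ℝ) (W : Submodule ℝ (ι → ℝ)), a < b → Module.finrank ℝ W = n →
      Neg v W (bx a b y (y + π)) →
      ((n : ℝ) - 1) * (5 * π / 2) ≤ (volume (Ω ∩ bx a b y (y + π))).toReal := by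
  have hpi : (0 : ℝ) < 5 * π / 2 := by positivity
  induction n with
  | zero =>
    intro a b W _ _ _
    have h0 : (0 : ℝ) ≤ (volume (Ω ∩ bx a b y (y + π))).toReal := ENNReal.toReal_nonneg
    refine le_trans ?_ h0
    push_cast
    linarith
  | succ n ih =>
    intro a b W hab hW hN
    rcases n with _ | _ | k
    · have h0 : (0 : ℝ) ≤ (volume (Ω ∩ bx a b y (y + π))).toReal := ENNReal.toReal_nonneg
      refine le_trans ?_ h0
      push_cast
      linarith
    · have h := cell hΩ hb hv hs hW hab hN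
      refine le_trans ?_ h
      push_cast
      linarith
    · have hPo := open_right hv W 2 a y (y + π)
      have hNo := open_left hv W (k + 2) b y (y + π)
      set P : Set ℝ := {t : ℝ | ∃ W' : Submodule ℝ (ι → ℝ), W' ≤ W ∧ Module.finrank ℝ W' = 2 ∧
        Neg v W' (bx a t y (y + π))} with hP
      set Q : Set ℝ := {t : ℝ | ∃ W' : Submodule ℝ (ι → ℝ), W' ≤ W ∧
        Module.finrank ℝ W' = k + 2 ∧ Neg v W' (bx t b y (y + π))} with hQ
      have hbP : b ∈ P := by
        obtain ⟨W', h1, h2⟩ := exists_sub (W := W) (n := 2) (by omega)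
        exact ⟨W', h1, h2, hN.mono h1⟩
      have haQ : a ∈ Q := by
        obtain ⟨W', h1, h2⟩ := exists_sub (W := W) (n := k + 2) (by omega)
        exact ⟨W', h1, h2, hN.mono h1⟩
      have hcl : closure (Ioo a b) = Icc a b := closure_Ioo hab.ne
      have hne1 : (Ioo a b ∩ P).Nonempty := by
        have h1 : b ∈ closure (Ioo a b) := by
          rw [hcl]
          exact right_mem_Icc.2 hab.le
        obtain ⟨t, h2, h3⟩ := mem_closure_iff.1 h1 P hPo hbP
        exact ⟨t, h3, h2⟩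
      have hne2 : (Ioo a b ∩ Q).Nonempty := by
        have h1 : a ∈ closure (Ioo a b) := by
          rw [hcl]
          exact left_mem_Icc.2 hab.le
        obtain ⟨t, h2, h3⟩ := mem_closure_iff.1 h1 Q hNo haQ
        exact ⟨t, h3, h2⟩
      have hcov : Ioo a b ⊆ P ∪ Q := by
        intro t ht
        obtain ⟨W1, W2, h1, h2, h3, h4, h5⟩ := neg_split hv (W := W)
          (S := bx a b y (y + π)) (S1 := bx a t y (y + π)) (S2 := bx t b y (y + π))
          (fun i j => bx_add_x ((hv i).bden_int (hv j)) ht.1.le ht.2.le y (y + π)) hN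
        rw [hW] at h5
        by_cases h6 : 2 ≤ Module.finrank ℝ W1
        · left
          obtain ⟨W', h7, h8⟩ := exists_sub h6
          exact ⟨W', h7.trans h1, h8, h3.mono h7⟩
        · right
          obtain ⟨W', h7, h8⟩ := exists_sub (W := W2) (n := k + 2) (by omega)
          exact ⟨W', h7.trans h2, h8, h4.mono h7⟩
      obtain ⟨t, ht, ⟨W1, -, hf1, hn1⟩, ⟨W2, -, hf2, hn2⟩⟩ :=
        isPreconnected_Ioo P Q hPo hNo hcov hne1 hne2
      have e1 := cell hΩ hb hv hs hf1 ht.1 hn1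
      have e2 := ih t b W2 ht.2 hf2 hn2
      have e3 := vol_add_x hΩ hb ht.1.le ht.2.le y (y + π)
      refine le_trans ?_ e3
      push_cast at e2 ⊢
      linarith

theorem slabs (hΩ : IsOpen Ω) (hb : Bornology.IsBounded Ω) (hv : ∀ i, CC (v i))
    (hs : ∀ i, ∀ z, z ∉ Ω → v i z = 0) {a b : ℝ} (hab : a < b) (r : ℕ) :
    ∀ (y : ℝ) (W : Submodule ℝ (ι → ℝ)), Neg v W (bx a b y (y + r * π)) →
      ((Module.finrank ℝ W : ℝ) - r) * (5 * π / 2) ≤
        (volume (Ω ∩ bx a b y (y + r * π))).toReal := by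
  have hpi : (0 : ℝ) < 5 * π / 2 := by positivity
  induction r with
  | zero =>
    intro y W hN
    have h0 : (0 : ℝ) ≤ (volume (Ω ∩ bx a b y (y + ((0 : ℕ) : ℝ) * π))).toReal :=
      ENNReal.toReal_nonneg
    refine le_trans ?_ h0
    have he : bx a b y (y + ((0 : ℕ) : ℝ) * π) = ∅ := by
      unfold bx
      rw [Nat.cast_zero, zero_mul, add_zero, Ioo_self, prod_empty]
    have hW : W = ⊥ := by
      rw [Submodule.eq_bot_iff]
      intro c hc
      by_contra h1
      have h2 := hN c hc h1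
      rw [he] at h2
      simp [En] at h2
    rw [hW, finrank_bot]
    push_cast
    linarith
  | succ r ih =>
    intro y W hN
    have hπ : (0 : ℝ) < π := Real.pi_pos
    have hr : (0 : ℝ) ≤ (r : ℝ) * π := by positivity
    have e0 : y + ((r + 1 : ℕ) : ℝ) * π = y + π + r * π := by
      push_cast
      ring
    rw [e0] at hN ⊢
    have h1 : y ≤ y + π := by linarith
    have h2 : y + π ≤ y + π + r * π := by linarith
    obtain ⟨W1, W2, -, -, h3, h4, h5⟩ := neg_split hv (W := W)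
      (S := bx a b y (y + π + r * π)) (S1 := bx a b y (y + π))
      (S2 := bx a b (y + π) (y + π + r * π))
      (fun i j => bx_add_y ((hv i).bden_int (hv j)) h1 h2 a b) hN
    have e1 := slab hΩ hb hv hs y _ a b W1 hab rfl h3
    have e2 := ih (y + π) W2 h4
    have e3 := vol_add_y hΩ hb h1 h2 a b
    have h6 : (Module.finrank ℝ W : ℝ) ≤ Module.finrank ℝ W1 + Module.finrank ℝ W2 := by
      exact_mod_cast h5
    have e4 : ((Module.finrank ℝ W : ℝ) - ((r + 1 : ℕ) : ℝ)) * (5 * π / 2) ≤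
        ((Module.finrank ℝ W1 : ℝ) - 1) * (5 * π / 2) +
          ((Module.finrank ℝ W2 : ℝ) - r) * (5 * π / 2) := by
      rw [← add_mul]
      refine mul_le_mul_of_nonneg_right ?_ hpi.le
      push_cast
      linarith
    linarith

end Pool.Agent.W_1ab439_h81b

end Slab

section Copies

/-!
Copies (M).  Horizontal copies remove the additive constant (row 523, section 6).

Let `R > 0` with `Ω ⊆ (-R,R) × (-R,R)` and all `v i` zero off the closed square of half side `R` (they vanish off `Ω`), `D = 2 R + 1`... take `D = 3 R`, so the closed supports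
(contained in the closed square) of different copies are disjoint.  For `M ≥ 1`: family on `Fin M × ι`: `vM (j,i) z = v i (z.1 - j * D, z.2)`; `ΩM = {z | ∃ j < M, (z.1 - j D, z.2) ∈ Ω}`: open, bounded,
volume `≤ M * vol Ω` (union bound, translation invariance).  `BEn (vM (j,i)) (vM (j',i')) univ = 0` for `j ≠ j'` (at every point one of the two functions vanishes in a neighbourhood,
so `bden = 0`), and `= BEn (v i) (v i') univ` for `j = j'` (translation).  So by En_lc `En (lc vM c) univ = ∑ j, En (lc v (c (j,·))) univ < 0` for `c ≠ 0`: `Neg vM ⊤ univ`, `finrank = M * card ι`.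
All functions vanish outside the box `bx (-R) (M D) (-r π) (r π)`.. with `r π ≥ R`: `En _ univ = En _ (bx (-R) (M*D) (-(rπ)) (-(rπ) + (2r) π))` (`den` vanishes outside the closed square's
translates; the boundary is null; or use slightly larger bounds).  `slabs` with `2 r` slabs: `(M k - 2 r) 5π/2 ≤ M vol Ω` for all `M ≥ 1`.
Divide by `M` and let `M → ∞` (or: if `k 5π/2 > vol Ω`, choose `M` large).
-/

set_option autoImplicit false

open MeasureTheory Set Real

namespace Pool.Agent.W_1ab439_h81b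

open Pool.Agent.W_1ab439_h81

variable {ι : Type} [Fintype ι] {v : ι → ℝ × ℝ → ℝ} {Ω : Set (ℝ × ℝ)}

/-- the family of the copies -/
noncomputable def cpv (v : ι → ℝ × ℝ → ℝ) (D : ℝ) (M : ℕ) (p : Fin M × ι) (z : ℝ × ℝ) : ℝ :=
  v p.2 (z.1 - (p.1 : ℕ) * D, z.2)

/-- the union of the copies of `Ω` -/
def cpS (Ω : Set (ℝ × ℝ)) (D : ℝ) (M : ℕ) : Set (ℝ × ℝ) :=
  {z | ∃ j : Fin M, (z.1 - (j : ℕ) * D, z.2) ∈ Ω}

/-- the shift vector -/
private noncomputable def cpa (D : ℝ) (j : ℕ) : ℝ × ℝ := (-((j : ℝ) * D), 0)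

private theorem cpa_add (D : ℝ) (j : ℕ) (z : ℝ × ℝ) :
    (z.1 - (j : ℕ) * D, z.2) = z + cpa D j := by
  ext <;> simp [cpa, sub_eq_add_neg]

theorem cpS_open (hΩ : IsOpen Ω) (D : ℝ) (M : ℕ) : IsOpen (cpS Ω D M) := by
  have h : cpS Ω D M = ⋃ j : Fin M, (fun z : ℝ × ℝ => (z.1 - (j : ℕ) * D, z.2)) ⁻¹' Ω := by
    ext z
    simp [cpS]
  rw [h]
  refine isOpen_iUnion fun j => hΩ.preimage ?_
  fun_prop

theorem cpS_bdd (hb : Bornology.IsBounded Ω) (D : ℝ) (M : ℕ) :
    Bornology.IsBounded (cpS Ω D M) := by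
  have h : cpS Ω D M ⊆ ⋃ j : Fin M, (fun z : ℝ × ℝ => z + (-cpa D j)) '' Ω := by
    intro z hz
    obtain ⟨j, hj⟩ := hz
    rw [cpa_add] at hj
    rw [mem_iUnion]
    exact ⟨j, z + cpa D j, hj, by simp⟩
  refine Bornology.IsBounded.subset ?_ h
  refine Bornology.isBounded_iUnion.2 fun j => ?_
  have h1 : LipschitzWith 1 (fun z : ℝ × ℝ => z + (-cpa D j)) :=
    (IsometryEquiv.addRight (-cpa D j)).isometry.lipschitz
  exact h1.isBounded_image hb

theorem cpS_vol (hΩ : IsOpen Ω) (hb : Bornology.IsBounded Ω) (D : ℝ) (M : ℕ) :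
    (volume (cpS Ω D M)).toReal ≤ M * (volume Ω).toReal := by
  have h : cpS Ω D M = ⋃ j : Fin M, (fun z : ℝ × ℝ => z + cpa D j) ⁻¹' Ω := by
    ext z
    simp only [cpS, mem_iUnion, mem_preimage, ← cpa_add]
    rfl
  have hfin : volume Ω ≠ ⊤ := hb.measure_lt_top.ne
  have h1 : volume (cpS Ω D M) ≤ ∑ j : Fin M, volume Ω := by
    rw [h]
    refine (measure_iUnion_fintype_le _ _).trans ?_
    refine Finset.sum_le_sum fun j _ => ?_
    rw [measure_preimage_add_right]
  rw [Finset.sum_const, Finset.card_univ, Fintype.card_fin, nsmul_eq_mul] at h1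
  have h2 := ENNReal.toReal_mono (ENNReal.mul_ne_top (ENNReal.natCast_ne_top M) hfin) h1
  rw [ENNReal.toReal_mul, ENNReal.toReal_natCast] at h2
  exact h2

private theorem cpv_eq (D : ℝ) (M : ℕ) (p : Fin M × ι) :
    cpv v D M p = fun z => v p.2 (z + cpa D p.1) := by
  funext z
  rw [← cpa_add]
  rfl

theorem cpv_CC (hv : ∀ i, CC (v i)) (D : ℝ) (M : ℕ) (p : Fin M × ι) : CC (cpv v D M p) := by
  rw [cpv_eq]
  refine ⟨(hv p.2).1.comp (contDiff_id.add contDiff_const), ?_⟩
  exact (hv p.2).2.comp_homeomorph (Homeomorph.addRight (cpa D p.1))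

private theorem cp_bden_shift (f g : ℝ × ℝ → ℝ) (a z : ℝ × ℝ) :
    bden (fun z => f (z + a)) (fun z => g (z + a)) z = bden f g (z + a) := by
  unfold bden dx dy
  rw [fderiv_comp_add_right, fderiv_comp_add_right]

private theorem cp_bden_zero_left {f g : ℝ × ℝ → ℝ} {z : ℝ × ℝ} (h : f =ᶠ[nhds z] fun _ => 0) :
    bden f g z = 0 := by
  have h2 : fderiv ℝ f z = 0 := by
    rw [h.fderiv_eq]
    simp
  have h3 : f z = 0 := h.self_of_nhds
  simp [bden, dx, dy, h2, h3]

private theorem cp_bden_zero_right {f g : ℝ × ℝ → ℝ} {z : ℝ × ℝ} (h : g =ᶠ[nhds z] fun _ => 0) :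
    bden f g z = 0 := by
  have h2 : fderiv ℝ g z = 0 := by
    rw [h.fderiv_eq]
    simp
  have h3 : g z = 0 := h.self_of_nhds
  simp [bden, dx, dy, h2, h3]

private theorem cp_BEn_same (D : ℝ) (M : ℕ) (j : Fin M) (i i' : ι) :
    BEn (cpv v D M (j, i)) (cpv v D M (j, i')) univ = BEn (v i) (v i') univ := by
  rw [cpv_eq, cpv_eq]
  unfold BEn
  rw [setIntegral_univ, setIntegral_univ]
  have h1 : ∀ z, bden (fun z => v i (z + cpa D j)) (fun z => v i' (z + cpa D j)) z =
      bden (v i) (v i') (z + cpa D j) := fun z => cp_bden_shift _ _ _ z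
  simp only [h1]
  exact integral_add_right_eq_self (bden (v i) (v i')) (cpa D j)

private theorem cp_near {D R : ℝ} (hs : ∀ i, ∀ z : ℝ × ℝ, R < |z.1| → v i z = 0) (M : ℕ)
    (j : Fin M) (i : ι) {z : ℝ × ℝ} (hz : R < |z.1 - (j : ℕ) * D|) :
    cpv v D M (j, i) =ᶠ[nhds z] fun _ => 0 := by
  have ho : IsOpen {w : ℝ × ℝ | R < |w.1 - (j : ℕ) * D|} :=
    isOpen_lt continuous_const (by fun_prop)
  filter_upwards [ho.mem_nhds hz] with w hw
  exact hs i _ hw

private theorem cp_BEn_ne {D R : ℝ} (hR : 0 < R) (hD : 2 * R < D)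
    (hs : ∀ i, ∀ z : ℝ × ℝ, R < |z.1| → v i z = 0) (M : ℕ) {j j' : Fin M} (hj : j ≠ j')
    (i i' : ι) : BEn (cpv v D M (j, i)) (cpv v D M (j', i')) univ = 0 := by
  unfold BEn
  rw [setIntegral_univ]
  have h : ∀ z, bden (cpv v D M (j, i)) (cpv v D M (j', i')) z = 0 := by
    intro z
    by_cases h1 : R < |z.1 - (j : ℕ) * D|
    · exact cp_bden_zero_left (cp_near hs M j i h1)
    by_cases h2 : R < |z.1 - (j' : ℕ) * D|
    · exact cp_bden_zero_right (cp_near hs M j' i' h2)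
    exfalso
    push Not at h1 h2
    have h3 : |((j : ℕ) : ℝ) - ((j' : ℕ) : ℝ)| * D ≤ 2 * R := by
      have h4 : (((j : ℕ) : ℝ) - ((j' : ℕ) : ℝ)) * D =
          (z.1 - (j' : ℕ) * D) - (z.1 - (j : ℕ) * D) := by ring
      have hD0 : 0 < D := by linarith
      have h5 : |((j : ℕ) : ℝ) - ((j' : ℕ) : ℝ)| * D =
          |(((j : ℕ) : ℝ) - ((j' : ℕ) : ℝ)) * D| := by
        rw [abs_mul, abs_of_pos hD0]
      rw [h5, h4]
      refine (abs_sub _ _).trans ?_
      linarith
    have h6 : (1 : ℝ) ≤ |((j : ℕ) : ℝ) - ((j' : ℕ) : ℝ)| := by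
      have h7 : ((j : ℕ) : ℤ) - ((j' : ℕ) : ℤ) ≠ 0 := by
        intro h8
        apply hj
        apply Fin.ext
        omega
      have h8 : (1 : ℤ) ≤ |((j : ℕ) : ℤ) - ((j' : ℕ) : ℤ)| := Int.one_le_abs h7
      have h9 : ((1 : ℤ) : ℝ) ≤ ((|((j : ℕ) : ℤ) - ((j' : ℕ) : ℤ)| : ℤ) : ℝ) := by
        exact_mod_cast h8
      simpa using h9
    nlinarith
  simp [h]

theorem cpv_neg (hv : ∀ i, CC (v i)) {R D : ℝ} (hR : 0 < R) (hD : 2 * R < D)
    (hs : ∀ i, ∀ z : ℝ × ℝ, R < |z.1| → v i z = 0)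
    (hN : Neg v ⊤ univ) (M : ℕ) : Neg (cpv v D M) ⊤ univ := by
  intro c _ hc
  rw [En_lc (cpv_CC hv D M)]
  have h1 : ∑ p, ∑ q, c p * c q * BEn (cpv v D M p) (cpv v D M q) univ =
      ∑ j : Fin M, En (lc v (fun i => c (j, i))) univ := by
    rw [Fintype.sum_prod_type]
    refine Finset.sum_congr rfl fun j _ => ?_
    rw [En_lc hv]
    refine Finset.sum_congr rfl fun i _ => ?_
    rw [Fintype.sum_prod_type]
    rw [Finset.sum_eq_single j]
    · refine Finset.sum_congr rfl fun i' _ => ?_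
      rw [cp_BEn_same]
    · intro j' _ hj'
      refine Finset.sum_eq_zero fun i' _ => ?_
      rw [cp_BEn_ne hR hD hs M (Ne.symm hj')]
      ring
    · intro h
      exact absurd (Finset.mem_univ j) h
  rw [h1]
  have h0 : ∀ j : Fin M, En (lc v (fun i => c (j, i))) univ ≤ 0 := by
    intro j
    by_cases h : (fun i => c (j, i)) = 0
    · rw [h]
      have h2 : lc v (0 : ι → ℝ) = fun _ => 0 := by
        funext z
        simp [lc]
      rw [h2]
      simp [En, den, dx, dy]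
    · exact (hN _ (Submodule.mem_top) h).le
  obtain ⟨p, hp⟩ : ∃ p, c p ≠ 0 := by
    by_contra hcon
    push Not at hcon
    exact hc (funext hcon)
  refine Finset.sum_neg' (fun j _ => h0 j) ⟨p.1, Finset.mem_univ _, ?_⟩
  refine hN _ (Submodule.mem_top) fun h => hp ?_
  exact congrFun h p.2

private theorem cp_line_fst (a : ℝ) : ∀ᵐ z : ℝ × ℝ, z.1 ≠ a := by
  have h : volume {z : ℝ × ℝ | ¬ z.1 ≠ a} = 0 := by
    have h1 : {z : ℝ × ℝ | ¬ z.1 ≠ a} = {a} ×ˢ univ := by
      ext z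
      simp
    rw [h1, Measure.volume_eq_prod, Measure.prod_prod]
    simp
  exact h

private theorem cp_line_snd (a : ℝ) : ∀ᵐ z : ℝ × ℝ, z.2 ≠ a := by
  have h : volume {z : ℝ × ℝ | ¬ z.2 ≠ a} = 0 := by
    have h1 : {z : ℝ × ℝ | ¬ z.2 ≠ a} = univ ×ˢ {a} := by
      ext z
      simp
    rw [h1, Measure.volume_eq_prod, Measure.prod_prod]
    simp
  exact h

/-- the energy is concentrated on a box -/
theorem En_univ_bx {f : ℝ × ℝ → ℝ} (hf : CC f) {a b c d : ℝ}
    (hz : ∀ z, z ∉ bx a b c d → f z = 0) : En f univ = En f (bx a b c d) := by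
  unfold En
  rw [setIntegral_univ]
  symm
  refine setIntegral_eq_integral_of_ae_compl_eq_zero ?_
  filter_upwards [cp_line_fst a, cp_line_fst b, cp_line_snd c, cp_line_snd d] with z h1 h2 h3 h4
  intro hn
  have hcl : IsClosed (Icc a b ×ˢ Icc c d : Set (ℝ × ℝ)) := isClosed_Icc.prod isClosed_Icc
  have hout : z ∈ (Icc a b ×ˢ Icc c d : Set (ℝ × ℝ))ᶜ := by
    intro hin
    apply hn
    obtain ⟨⟨p1, p2⟩, p3, p4⟩ := hin
    exact ⟨⟨lt_of_le_of_ne p1 (Ne.symm h1), lt_of_le_of_ne p2 h2⟩,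
      ⟨lt_of_le_of_ne p3 (Ne.symm h3), lt_of_le_of_ne p4 h4⟩⟩
  have hev : f =ᶠ[nhds z] fun _ => 0 := by
    filter_upwards [hcl.isOpen_compl.mem_nhds hout] with w hw
    refine hz w fun hw' => hw ?_
    exact ⟨⟨hw'.1.1.le, hw'.1.2.le⟩, ⟨hw'.2.1.le, hw'.2.2.le⟩⟩
  rw [den_eq_bden]
  exact cp_bden_zero_left hev

theorem count (hΩ : IsOpen Ω) (hb : Bornology.IsBounded Ω) (hv : ∀ i, CC (v i))
    (hs : ∀ i, ∀ z, z ∉ Ω → v i z = 0) (hN : Neg v ⊤ univ) :
    (Fintype.card ι : ℝ) * (5 * π / 2) ≤ (volume Ω).toReal := by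
  have hpi := pi_pos
  obtain ⟨R0, hR0⟩ := hb.subset_closedBall 0
  obtain ⟨R, hR⟩ : ∃ R, R = max R0 1 := ⟨_, rfl⟩
  have hR1 : 1 ≤ R := by rw [hR]; exact le_max_right _ _
  have hRR : R0 ≤ R := by rw [hR]; exact le_max_left _ _
  have hin : ∀ z ∈ Ω, |z.1| ≤ R ∧ |z.2| ≤ R := by
    intro z hz
    have h := hR0 hz
    rw [mem_closedBall_zero_iff, Prod.norm_def] at h
    have h1 := (le_max_left _ _).trans h
    have h2 := (le_max_right _ _).trans h
    rw [Real.norm_eq_abs] at h1 h2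
    exact ⟨h1.trans hRR, h2.trans hRR⟩
  obtain ⟨r, hr⟩ := exists_nat_gt (R + 1)
  have hrpi : R + 1 < r * π := by
    have : (r : ℝ) * 1 ≤ r * π := mul_le_mul_of_nonneg_left (by linarith [pi_gt_three])
      (Nat.cast_nonneg r)
    linarith
  have hx : ∀ i, ∀ z : ℝ × ℝ, R < |z.1| → v i z = 0 := by
    intro i z hz
    refine hs i z fun h => ?_
    have := (hin z h).1
    linarith
  obtain ⟨D, hD⟩ : ∃ D, D = 3 * R := ⟨_, rfl⟩
  have hD2 : 2 * R < D := by linarith
  have key : ∀ M : ℕ, ((M : ℝ) * Fintype.card ι - 2 * r) * (5 * π / 2) ≤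
      M * (volume Ω).toReal := by
    intro M
    have hNM := cpv_neg hv (by linarith) hD2 hx hN M
    have hcc := cpv_CC hv D M
    have hz0 : ∀ p, ∀ z, z ∉ cpS Ω D M → cpv v D M p z = 0 := by
      intro p z hz
      refine hs p.2 _ fun h => hz ⟨p.1, h⟩
    have hbox : ∀ z ∈ cpS Ω D M, z ∈ bx (-(R + 1)) (M * D + (R + 1)) (-(r * π))
        (-(r * π) + ((2 * r : ℕ) : ℝ) * π) := by
      rintro z ⟨j, hj⟩
      obtain ⟨h1, h2⟩ := hin _ hj
      simp only at h1 h2
      rw [abs_le] at h1 h2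
      have hj1 : ((j : ℕ) : ℝ) ≤ M := by exact_mod_cast j.2.le
      have hj0 : (0 : ℝ) ≤ ((j : ℕ) : ℝ) := Nat.cast_nonneg _
      have hD0 : 0 < D := by linarith
      have h3 : ((j : ℕ) : ℝ) * D ≤ M * D := mul_le_mul_of_nonneg_right hj1 hD0.le
      have h4 : 0 ≤ ((j : ℕ) : ℝ) * D := mul_nonneg hj0 hD0.le
      refine ⟨⟨by linarith [h1.1], by linarith [h1.2]⟩, ⟨by linarith [h2.1], ?_⟩⟩
      push_cast
      linarith [h2.2]
    have hNb : Neg (cpv v D M) ⊤ (bx (-(R + 1)) (M * D + (R + 1)) (-(r * π))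
        (-(r * π) + ((2 * r : ℕ) : ℝ) * π)) := by
      intro c hc hc0
      rw [← En_univ_bx (lc_CC hcc c)]
      · exact hNM c hc hc0
      · intro z hz
        have hz' : z ∉ cpS Ω D M := fun h => hz (hbox z h)
        simp only [lc, hz0 _ z hz', mul_zero, Finset.sum_const_zero]
    have hab : -(R + 1) < M * D + (R + 1) := by
      have : 0 ≤ (M : ℝ) * D := mul_nonneg (Nat.cast_nonneg _) (by linarith)
      linarith
    have h1 := slabs (cpS_open hΩ D M) (cpS_bdd hb D M) hcc hz0 hab (2 * r) (-(r * π)) ⊤ hNb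
    have h2 : (volume (cpS Ω D M ∩ bx (-(R + 1)) (M * D + (R + 1)) (-(r * π))
        (-(r * π) + ((2 * r : ℕ) : ℝ) * π))).toReal ≤ (volume (cpS Ω D M)).toReal :=
      ENNReal.toReal_mono (cpS_bdd hb D M).measure_lt_top.ne (measure_mono inter_subset_left)
    have h3 := cpS_vol hΩ hb D M
    have h4 : (Module.finrank ℝ (⊤ : Submodule ℝ (Fin M × ι → ℝ)) : ℝ) =
        (M : ℝ) * Fintype.card ι := by
      rw [finrank_top, Module.finrank_fintype_fun_eq_card, Fintype.card_prod, Fintype.card_fin]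
      push_cast
      ring
    rw [h4] at h1
    push_cast at h1 h2
    linarith
  by_contra hcon
  push Not at hcon
  obtain ⟨M, hM⟩ := exists_nat_gt (2 * r * (5 * π / 2) /
    ((Fintype.card ι : ℝ) * (5 * π / 2) - (volume Ω).toReal))
  have hg : 0 < (Fintype.card ι : ℝ) * (5 * π / 2) - (volume Ω).toReal := by linarith
  rw [div_lt_iff₀ hg] at hM
  have := key M
  nlinarith

end Pool.Agent.W_1ab439_h81b

end Copies
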