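import Pool.Agent.W_1ab439_h81.Final
import Pool.Agent.W_1ab439_h81b.Slab

/-!
Final (S).  The theorem (row 523).

As polya_three in `W_1ab439_h81/Final.lean`: for linearly independent `u i ∈ V` (`i : Fin k`) the family `v i = tr lam (u i)` is CC (h2_CC), zero off
`Ω' = trS lam Ω` (h2_zero), and `lc v c = tr lam (∑ c i • u i)` has negative energy for `c ≠ 0` (h2_En); `count` gives `k * 5π/2 ≤ lam * vol Ω` (trS_vol).
So the rank of `V` is bounded (finite-dimensional), and `k = finrank V` gives the bound: `k ≤ lam vol Ω * 2/(5π) = 8/5 * (lam vol Ω/(4π))`.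
-/

set_option autoImplicit false

open MeasureTheory Set Real

namespace Pool.Agent.W_1ab439_h81b

open Pool.Agent.W_1ab439_h81

variable {Ω : Set (EuclideanSpace ℝ (Fin 2))} {lam : ℝ}
  {V : Submodule ℝ (EuclideanSpace ℝ (Fin 2) → ℝ)}

theorem indep_bound (ho : IsOpen Ω) (hb : Bornology.IsBounded Ω) (hl : 0 < lam)
    (hV : ∀ u ∈ V, ContDiff ℝ (⊤ : ℕ∞) u ∧ HasCompactSupport u ∧ tsupport u ⊆ Ω)
    (hE : ∀ u ∈ V, u ≠ 0 → ∫ x, ‖fderiv ℝ u x‖ ^ 2 < lam * ∫ x, (u x) ^ 2) (k : ℕ)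
    (u : Fin k → EuclideanSpace ℝ (Fin 2) → ℝ) (hu : ∀ i, u i ∈ V)
    (hi : LinearIndependent ℝ u) : (k : ℝ) * (5 * π / 2) ≤ lam * (volume Ω).toReal := by
  rw [← trS_vol hl Ω]
  have h := count (v := fun i : Fin k => tr lam (u i)) (trS_open hl ho) (trS_bdd hl hb)
    (fun i => h2_CC hl hV (hu i)) (fun i z hz => h2_zero hV (hu i) z hz) ?_
  · rwa [Fintype.card_fin] at h
  intro c _ hc
  have h1 : lc (fun i : Fin k => tr lam (u i)) c = tr lam (∑ i, c i • u i) := by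
    funext z
    simp [lc, tr, Finset.sum_apply]
  rw [h1]
  refine h2_En hl hV hE (Submodule.sum_mem _ fun i _ => Submodule.smul_mem _ _ (hu i)) ?_
  intro h0
  apply hc
  funext i
  exact Fintype.linearIndependent_iff.1 hi c h0 i

theorem planar_bound (ho : IsOpen Ω) (hb : Bornology.IsBounded Ω) (hl : 0 < lam)
    (hV : ∀ u ∈ V, ContDiff ℝ (⊤ : ℕ∞) u ∧ HasCompactSupport u ∧ tsupport u ⊆ Ω)
    (hE : ∀ u ∈ V, u ≠ 0 → ∫ x, ‖fderiv ℝ u x‖ ^ 2 < lam * ∫ x, (u x) ^ 2) :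
    FiniteDimensional ℝ V ∧
      (Module.finrank ℝ V : ℝ) ≤ 8 / 5 * (lam * (volume Ω).toReal / (4 * π)) := by
  have hpi := pi_pos
  have hlift : ∀ {n : ℕ} (f : Fin n → V), LinearIndependent ℝ f →
      LinearIndependent ℝ (fun i => (f i : EuclideanSpace ℝ (Fin 2) → ℝ)) := by
    intro n f hf
    exact hf.map' V.subtype V.ker_subtype
  have key : ∀ n : ℕ, (n : Cardinal) ≤ Module.rank ℝ V →
      (n : ℝ) * (5 * π / 2) ≤ lam * (volume Ω).toReal := by
    intro n hn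
    obtain ⟨f, hf⟩ := exists_linearIndependent_of_le_rank hn
    exact indep_bound ho hb hl hV hE n _ (fun i => (f i).2) (hlift f hf)
  obtain ⟨N, hN⟩ := exists_nat_gt (lam * (volume Ω).toReal)
  have hlt : Module.rank ℝ V < (N : Cardinal) := by
    by_contra hcon
    rw [not_lt] at hcon
    have h1 := key N hcon
    have h2 : (1 : ℝ) ≤ 5 * π / 2 := by linarith [pi_gt_three]
    have h3 : (0 : ℝ) ≤ N := Nat.cast_nonneg N
    nlinarith
  have hfin : FiniteDimensional ℝ V :=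
    Module.rank_lt_aleph0_iff.1 (hlt.trans (Cardinal.natCast_lt_aleph0))
  refine ⟨hfin, ?_⟩
  have h1 := key (Module.finrank ℝ V) (Module.finrank_eq_rank ℝ V).le
  have h2 : (8 : ℝ) / 5 * (lam * (volume Ω).toReal / (4 * π)) =
      lam * (volume Ω).toReal / (5 * π / 2) := by
    field_simp
    ring
  rw [h2, le_div_iff₀ (by positivity)]
  exact h1

end Pool.Agent.W_1ab439_h81b
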